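import Pool.Agent.Lib.MP_78ca69_co.R3.X1

set_option autoImplicit false
set_option linter.unusedSectionVars false

namespace RG3

open Finset

/-- perfect matchings give a colouring -/
theorem col_of_pm {V E : Type} [Fintype E] [DecidableEq E] (ends : E → Sym2 V) (r : ℕ)
    (M : Fin r → Finset E) (hM : ∀ i, ∀ v : V, ∃! e, e ∈ M i ∧ v ∈ ends e)
    (hone : ∀ e, (univ.filter fun i => e ∈ M i).card = 1) :
    ∃ c : E → Fin r, ∀ e f, e ≠ f → (∃ v, v ∈ ends e ∧ v ∈ ends f) → c e ≠ c f := by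
  have hex : ∀ e, ∃ i, e ∈ M i := by
    intro e
    have h : 0 < (univ.filter fun i => e ∈ M i).card := by rw [hone e]; exact Nat.one_pos
    obtain ⟨i, hi⟩ := Finset.card_pos.1 h
    exact ⟨i, (Finset.mem_filter.1 hi).2⟩
  choose c hc using hex
  refine ⟨c, fun e f hef ⟨v, hve, hvf⟩ heq => hef ?_⟩
  obtain ⟨g, _, hu⟩ := hM (c e) v
  rw [hu e ⟨hc e, hve⟩, hu f ⟨by rw [heq]; exact hc f, hvf⟩]

/-- a colouring gives perfect matchings -/
theorem pm_of_col {V E : Type} [Fintype E] [DecidableEq E] [DecidableEq V] (ends : E → Sym2 V)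
    (r : ℕ) (hdeg : ∀ v, (univ.filter fun e => v ∈ ends e).card = r) (c : E → Fin r)
    (hc : ∀ e f, e ≠ f → (∃ v, v ∈ ends e ∧ v ∈ ends f) → c e ≠ c f) :
    ∃ M : Fin r → Finset E, (∀ i, ∀ v : V, ∃! e, e ∈ M i ∧ v ∈ ends e) ∧
      ∀ e, (univ.filter fun i => e ∈ M i).card = 1 := by
  refine ⟨fun i => univ.filter fun e => c e = i, ?_, ?_⟩
  · intro i v
    have hinj : Set.InjOn c (univ.filter fun e => v ∈ ends e) := by
      intro e he f hf hef
      by_contra hne
      rw [Finset.coe_filter] at he hf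
      exact hc e f hne ⟨v, he.2, hf.2⟩ hef
    have himg : (univ.filter fun e => v ∈ ends e).image c = univ := by
      rw [← Finset.card_eq_iff_eq_univ, Finset.card_image_of_injOn hinj, hdeg v, Fintype.card_fin]
    have hi : i ∈ (univ.filter fun e => v ∈ ends e).image c := by rw [himg]; exact mem_univ i
    obtain ⟨e, he, hei⟩ := Finset.mem_image.1 hi
    rw [Finset.mem_filter] at he
    refine ⟨e, ⟨Finset.mem_filter.2 ⟨mem_univ _, hei⟩, he.2⟩, ?_⟩
    rintro f ⟨hf, hvf⟩
    rw [Finset.mem_filter] at hf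
    by_contra hne
    exact hc f e hne ⟨v, hvf, he.2⟩ (by rw [hf.2, hei])
  · intro e
    have : (univ.filter fun i => e ∈ univ.filter fun e => c e = i) = {c e} := by
      ext i
      simp [eq_comm]
    rw [this, Finset.card_singleton]

end RG3
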