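import Pool.Agent.Lib.MP_78ca69_co.R3.X1
set_option autoImplicit false
set_option linter.unusedSectionVars false

namespace RG3

open Finset

variable {V : Type*} [Fintype V] [DecidableEq V]

private theorem K2_card {P : Type} [Fintype P] [DecidableEq P] (f : P → ℕ) (p : P) :
    ((univ : Finset (Σ q : P, Fin (f q))).filter fun e => e.1 = p).card = f p := by
  have h : ((univ : Finset (Σ q : P, Fin (f q))).filter fun e => e.1 = p) =
      (univ : Finset (Fin (f p))).map ⟨fun k => ⟨p, k⟩, fun a b hab => by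
        simpa using hab⟩ := by
    ext ⟨q, k⟩
    rw [Finset.mem_filter, Finset.mem_map]
    constructor
    · rintro ⟨_, h⟩
      have h' : q = p := h
      subst h'
      exact ⟨k, Finset.mem_univ _, rfl⟩
    · rintro ⟨k', _, h⟩
      refine ⟨Finset.mem_univ _, ?_⟩
      have := congrArg Sigma.fst h
      exact this.symm
  rw [h, Finset.card_map, Finset.card_univ, Fintype.card_fin]

theorem exists_edges {V : Type} [Fintype V] [DecidableEq V] {w : V → V → ℕ} {S : Finset V} {r : ℕ}
    (h : RG w S r) :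
    ∃ (E : Type) (_ : Fintype E) (ends : E → Sym2 {v // v ∈ S}),
      (∀ x y : {v // v ∈ S}, mult ends x y = w x y) ∧ (∀ e, ¬ (ends e).IsDiag) ∧
      (∀ v, (univ.filter fun e => v ∈ ends e).card = r) ∧
      ∀ X : Finset {v // v ∈ S},
        (univ.filter fun e => ∃ u ∈ X, ∃ v ∉ X, ends e = s(u, v)).card =
          cut w (X.map (Function.Embedding.subtype _)) := by
  let wl : Sym2 {v // v ∈ S} → ℕ := Sym2.lift ⟨fun x y => w x y, fun x y => h.symm x y⟩
  have hm : ∀ x y : {v // v ∈ S}, mult (fun e : (Σ p : Sym2 {v // v ∈ S}, Fin (wl p)) => e.1) x y =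
      w x y := fun x y => K2_card wl s(x, y)
  have hd : ∀ e : (Σ p : Sym2 {v // v ∈ S}, Fin (wl p)), ¬ (e.1).IsDiag := by
    rintro ⟨p, k⟩
    induction p using Sym2.ind with
    | _ x y =>
      intro hxy
      have h1 : x = y := hxy
      subst h1
      have h2 : wl s(x, x) = 0 := h.irr x
      have h3 := k.2
      omega
  refine ⟨Σ p : Sym2 {v // v ∈ S}, Fin (wl p), inferInstance, fun e => e.1, hm, hd, ?_, ?_⟩
  · intro v
    rw [← mult_deg _ hd v]
    simp only [hm]
    have h1 : ∑ y : {v // v ∈ S}, w v y = ∑ y ∈ S, w v y := Finset.sum_coe_sort S (fun y => w v y)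
    rw [h1, ← h.deg v v.2]
    refine Finset.sum_subset (Finset.subset_univ S) fun y _ hy => ?_
    by_contra hne
    rw [h.symm] at hne
    exact hy (h.supp y v hne)
  · intro X
    rw [← mult_cut _ hd X]
    unfold cut
    rw [Finset.sum_map]
    refine Finset.sum_congr rfl fun x _ => ?_
    simp only [hm]
    have h1 : ∑ y ∈ Xᶜ, w x y = ∑ y ∈ (Xᶜ).map (Function.Embedding.subtype _), w x y := by
      rw [Finset.sum_map]
      rfl
    rw [h1]
    refine Finset.sum_subset ?_ ?_
    · intro y hy
      obtain ⟨z, hz, rfl⟩ := Finset.mem_map.1 hy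
      rw [Finset.mem_compl] at hz ⊢
      intro hc
      obtain ⟨z', hz', he⟩ := Finset.mem_map.1 hc
      exact hz (Subtype.ext he ▸ hz')
    · intro y hy hy'
      rw [Finset.mem_compl] at hy
      by_contra hne
      have hne2 : w y x ≠ 0 := by
        rw [h.symm]
        exact hne
      have hyS : y ∈ S := h.supp y x hne2
      by_cases hX : (⟨y, hyS⟩ : {v // v ∈ S}) ∈ X
      · exact hy (Finset.mem_map.2 ⟨⟨y, hyS⟩, hX, rfl⟩)
      · exact hy' (Finset.mem_map.2 ⟨⟨y, hyS⟩, Finset.mem_compl.2 hX, rfl⟩)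

end RG3
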