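import Pool.Agent.Lib.MP_78ca69_co.R3.X1
set_option autoImplicit false
set_option linter.unusedSectionVars false
namespace RG3
open Finset

/-- Row K3. From matchings of edges back to multiplicities: let `f i v` be the other end of the edge of
`M i` at `v` (`v` itself if `v ∉ S`); the number of `i` with `f i u = v` is the sum over the edges `e` between
`u` and `v` of `#{i | e ∈ M i}`. -/
theorem dec_of_edges {V : Type} [Fintype V] [DecidableEq V] {w : V → V → ℕ} {S : Finset V} {r k : ℕ}
    {E : Type} [Fintype E] [DecidableEq E] (ends : E → Sym2 {v // v ∈ S})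
    (hm : ∀ x y : {v // v ∈ S}, mult ends x y = w x y) (hl : ∀ e, ¬ (ends e).IsDiag)
    (M : Fin r → Finset E) (hM : ∀ i, ∀ v, ∃! e, e ∈ M i ∧ v ∈ ends e)
    (hk : ∀ e, (univ.filter fun i => e ∈ M i).card = k) :
    Dec (fun x y => k * w x y) S r := by
  choose g hg hu using hM
  have hmem : ∀ i v, v ∈ ends (g i v) := fun i v => (hg i v).2
  choose o ho using fun i v => (hmem i v)
  -- `ends (g i v) = s(v, o i v)`
  have key : ∀ i u v, o i u = v ↔ ∃ e ∈ M i, ends e = s(u, v) := by
    intro i u v
    constructor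
    · rintro rfl
      exact ⟨g i u, (hg i u).1, ho i u⟩
    · rintro ⟨e, he, hev⟩
      have h1 : e = g i u := hu i u e ⟨he, by rw [hev]; exact Sym2.mem_mk_left u v⟩
      have h2 := ho i u
      rw [← h1, hev] at h2
      exact (Sym2.congr_right.1 h2).symm
  have hinv : ∀ i u, o i (o i u) = u := by
    intro i u
    rw [key]
    obtain ⟨e, he, hev⟩ := (key i u (o i u)).1 rfl
    exact ⟨e, he, by rw [hev, Sym2.eq_swap]⟩
  have hne : ∀ i u, o i u ≠ u := by
    intro i u h
    obtain ⟨e, he, hev⟩ := (key i u u).1 h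
    exact hl e (by rw [hev]; simp)
  have hcount : ∀ u v : {v // v ∈ S}, k * w u v = (univ.filter fun i => o i u = v).card := by
    intro u v
    have h1 : (univ.filter fun i => o i u = v) =
        (univ.filter fun e => ends e = s(u, v)).biUnion fun e => univ.filter fun i => e ∈ M i := by
      ext i
      simp only [Finset.mem_filter, Finset.mem_univ, true_and, Finset.mem_biUnion, key]
      constructor
      · rintro ⟨e, he, hev⟩; exact ⟨e, hev, he⟩
      · rintro ⟨e, hev, he⟩; exact ⟨e, he, hev⟩
    rw [h1, Finset.card_biUnion, Finset.sum_congr rfl fun e _ => hk e, Finset.sum_const,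
      smul_eq_mul, ← hm u v, mult, mul_comm]
    intro e he e' he' hee
    rw [Function.onFun_apply, Finset.disjoint_left]
    intro i hi hi'
    simp only [Finset.coe_filter, Set.mem_ofPred_eq, Finset.mem_univ, true_and,
      Finset.mem_filter] at hi hi' he he'
    refine hee ((hu i u e ⟨hi, ?_⟩).trans (hu i u e' ⟨hi', ?_⟩).symm)
    · rw [he]; exact Sym2.mem_mk_left u v
    · rw [he']; exact Sym2.mem_mk_left u v
  refine ⟨fun i v => if hv : v ∈ S then (o i ⟨v, hv⟩ : V) else v, ?_, ?_⟩
  · intro i v hv
    refine ⟨?_, ?_, ?_⟩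
    · simp only [dif_pos hv]; exact (o i ⟨v, hv⟩).2
    · simp only [dif_pos hv, Subtype.coe_eta, dif_pos (o i ⟨v, hv⟩).2, hinv]
    · simp only [dif_pos hv]
      intro h
      exact hne i ⟨v, hv⟩ (Subtype.ext h)
  · intro u hu' v hv
    refine (hcount ⟨u, hu'⟩ ⟨v, hv⟩).trans ?_
    congr 1
    ext i
    simp only [Finset.mem_filter, Finset.mem_univ, true_and, dif_pos hu']
    exact ⟨fun h => by rw [h], fun h => Subtype.ext h⟩

end RG3
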