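import Pool.Agent.Lib.MP_78ca69_co.R3.Skel
set_option autoImplicit false
set_option linter.unusedSectionVars false
namespace RG3
open Finset
variable {V : Type*} [Fintype V] [DecidableEq V]

theorem exists_perm_fib {α β : Type*} [Fintype α] [DecidableEq α] [DecidableEq β] (f g : α → β)
    (h : ∀ b, (univ.filter fun a => f a = b).card = (univ.filter fun a => g a = b).card) :
    ∃ π : Equiv.Perm α, ∀ a, g (π a) = f a := by
  have e : ∀ b, Nonempty ({a // f a = b} ≃ {a // g a = b}) := by
    intro b
    refine ⟨Fintype.equivOfCardEq ?_⟩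
    rw [Fintype.card_subtype, Fintype.card_subtype]
    exact h b
  refine ⟨(Equiv.sigmaFiberEquiv f).symm.trans ((Equiv.sigmaCongrRight fun b => (e b).some).trans
    (Equiv.sigmaFiberEquiv g)), fun a => ?_⟩
  exact ((e (f a)).some ⟨a, rfl⟩).2

theorem exists_label {α β : Type*} [DecidableEq α] [DecidableEq β] (A : Finset α) (Y : Finset β)
    (n : β → ℕ) (h : A.card = ∑ y ∈ Y, n y) (b0 : β) :
    ∃ g : α → β, (∀ a ∈ A, g a ∈ Y) ∧ ∀ y ∈ Y, (A.filter fun a => g a = y).card = n y := by
  induction Y using Finset.induction_on generalizing A with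
  | empty =>
    rw [Finset.sum_empty, Finset.card_eq_zero] at h
    subst h
    exact ⟨fun _ => b0, by simp, by simp⟩
  | insert y Y hy ih =>
    rw [Finset.sum_insert hy] at h
    obtain ⟨B, hB, hBc⟩ := Finset.exists_subset_card_eq (show n y ≤ A.card by omega)
    obtain ⟨g, hg1, hg2⟩ := ih (A \ B) (by rw [Finset.card_sdiff_of_subset hB]; omega)
    refine ⟨fun a => if a ∈ B then y else g a, fun a ha => ?_, fun z hz => ?_⟩
    · dsimp only
      split_ifs with hb
      · exact Finset.mem_insert_self _ _
      · exact Finset.mem_insert_of_mem (hg1 a (Finset.mem_sdiff.2 ⟨ha, hb⟩))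
    · rcases Finset.mem_insert.1 hz with rfl | hz
      · rw [← hBc]
        congr 1
        ext a
        simp only [Finset.mem_filter]
        constructor
        · rintro ⟨ha, h1⟩
          by_contra hb
          rw [if_neg hb] at h1
          exact hy (h1 ▸ hg1 a (Finset.mem_sdiff.2 ⟨ha, hb⟩))
        · intro ha
          exact ⟨hB ha, if_pos ha⟩
      · rw [← hg2 z hz]
        congr 1
        ext a
        simp only [Finset.mem_filter, Finset.mem_sdiff]
        have hzy : z ≠ y := fun h => hy (h ▸ hz)
        constructor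
        · rintro ⟨ha, h1⟩
          by_cases hb : a ∈ B
          · rw [if_pos hb] at h1
            exact absurd h1.symm hzy
          · rw [if_neg hb] at h1
            exact ⟨⟨ha, hb⟩, h1⟩
        · rintro ⟨⟨ha, hb⟩, h1⟩
          exact ⟨ha, by rw [if_neg hb]; exact h1⟩

end RG3
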