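import Pool.Agent.Lib.MP_78ca69_co.R3.X1
import Pool.Agent.Lib.MP_78ca69_co.R3.F1
set_option autoImplicit false
set_option linter.unusedSectionVars false
namespace RG3
open Finset
variable {V : Type*} [Fintype V] [DecidableEq V]

/-- the colours of a pair -/
private def X2_A {V : Type*} [DecidableEq V] {r : ℕ} (f : Fin r → V → V) (p : Sym2 V) :
    Finset (Fin r) := univ.filter fun i => p.map (f i) = p

private theorem X2_mem {V : Type*} [DecidableEq V] {r : ℕ} {f : Fin r → V → V}
    (hf : ∀ i v, f i (f i v) = v ∧ f i v ≠ v) (i : Fin r) (x y : V) :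
    i ∈ X2_A f s(x, y) ↔ f i x = y := by
  unfold X2_A
  rw [mem_filter, Sym2.map_mk, Sym2.eq_iff]
  constructor
  · rintro ⟨_, ⟨h1, _⟩ | ⟨h1, _⟩⟩
    · exact absurd h1 (hf i x).2
    · exact h1
  · intro h
    refine ⟨mem_univ _, Or.inr ⟨h, ?_⟩⟩
    rw [← h]
    exact (hf i x).1

/-- Row X2. From matchings of the multiplicities to matchings of edges. Proof: for every pair
`{x, y}` with `x ≠ y` distribute the colours `{i | f i x = y}` over the edges between `x` and `y`,
`k` colours for each (`exists_label`); an edge `e` is put in `M i` if colour `i` is given to `e`. (To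
have one choice for each pair use `Sym2 V`: for `p : Sym2 V` the colours `{i | ∀ v ∈ p, Sym2... }`, or
choose for every `p` a representation `p = s(x, y)` by `Quot.out`.) -/
theorem edges_of_dec {V E : Type*} [Fintype V] [DecidableEq V] [Fintype E] [DecidableEq E]
    (ends : E → Sym2 V) (hl : ∀ e, ¬ (ends e).IsDiag) (k r : ℕ)
    (h : Dec (fun x y => k * mult ends x y) univ r) :
    ∃ M : Fin r → Finset E, (∀ i, ∀ v : V, ∃! e, e ∈ M i ∧ v ∈ ends e) ∧
      ∀ e, (univ.filter fun i => e ∈ M i).card = k := by
  classical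
  obtain ⟨f, hf0, hcard⟩ := h
  have hf : ∀ i v, f i (f i v) = v ∧ f i v ≠ v := fun i v => (hf0 i v (mem_univ v)).2
  have hA : ∀ p : Sym2 V, (X2_A f p).card = ∑ _e ∈ univ.filter (fun e => ends e = p), k := by
    intro p
    induction p using Sym2.ind with
    | _ x y =>
      rw [sum_const, smul_eq_mul, mul_comm]
      have h1 := hcard x (mem_univ x) y (mem_univ y)
      simp only [mult] at h1
      rw [h1]
      congr 1
      ext i
      rw [X2_mem hf, mem_filter]
      simp
  have key : ∀ p : Sym2 V, (∃ e, ends e = p) → ∃ g : Fin r → E,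
      (∀ i ∈ X2_A f p, ends (g i) = p) ∧
      ∀ e, ends e = p → ((X2_A f p).filter (fun i => g i = e)).card = k := by
    rintro p ⟨e0, he0⟩
    obtain ⟨g, hg1, hg2⟩ := exists_label (X2_A f p) (univ.filter (fun e => ends e = p))
      (fun _ => k) (hA p) e0
    exact ⟨g, fun i hi => (mem_filter.1 (hg1 i hi)).2,
      fun e he => hg2 e (mem_filter.2 ⟨mem_univ _, he⟩)⟩
  choose g hg1 hg2 using key
  let G : Sym2 V → Fin r → Option E := fun p i =>
    if h : ∃ e, ends e = p then some (g p h i) else none
  have hG : ∀ p (h : ∃ e, ends e = p) i, G p i = some (g p h i) := by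
    intro p h i
    exact dif_pos h
  refine ⟨fun i => univ.filter (fun e => i ∈ X2_A f (ends e) ∧ G (ends e) i = some e), ?_, ?_⟩
  · intro i v
    have hi : i ∈ X2_A f s(v, f i v) := (X2_mem hf i v (f i v)).2 rfl
    have hex : ∃ e, ends e = s(v, f i v) := by
      have h1 := hA s(v, f i v)
      by_contra hcon
      have h2 : univ.filter (fun e => ends e = s(v, f i v)) = ∅ := by
        ext e
        simp only [mem_filter, mem_univ, true_and, notMem_empty, iff_false]
        exact fun he => hcon ⟨e, he⟩
      rw [h2, sum_empty, card_eq_zero] at h1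
      rw [h1] at hi
      exact absurd hi (notMem_empty _)
    have he := hg1 _ hex i hi
    refine ⟨g _ hex i, ⟨mem_filter.2 ⟨mem_univ _, ?_, ?_⟩, ?_⟩, ?_⟩
    · rw [he]; exact hi
    · rw [he]; exact hG _ hex i
    · rw [he]; exact Sym2.mem_mk_left _ _
    · rintro e ⟨he1, he2⟩
      obtain ⟨_, he3, he4⟩ := mem_filter.1 he1
      obtain ⟨w, hw⟩ := he2
      have hw2 : f i v = w := by
        rw [hw] at he3
        exact (X2_mem hf i v w).1 he3
      subst hw2
      rw [hw, hG _ hex i] at he4
      exact (Option.some.inj he4).symm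
  · intro e
    have hex : ∃ e', ends e' = ends e := ⟨e, rfl⟩
    rw [← hg2 (ends e) hex e rfl]
    congr 1
    ext i
    simp only [mem_filter, mem_univ, true_and]
    rw [hG _ hex i]
    constructor
    · rintro ⟨h1, h2⟩; exact ⟨h1, Option.some.inj h2⟩
    · rintro ⟨h1, h2⟩; exact ⟨h1, by rw [h2]⟩

end RG3
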