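import Pool.Agent.Lib.MP_78ca69_co.R3.Red
import Pool.Agent.Lib.MP_78ca69_co.R3.K2
import Pool.Agent.Lib.MP_78ca69_co.R3.K3
import Pool.Agent.Lib.MP_78ca69_co.R3.X2
import Pool.Agent.Lib.MP_78ca69_co.R3.Col

set_option autoImplicit false
set_option linter.unusedSectionVars false

namespace RG3

open Finset

/-- `r`-regular and `r`-edge-connected, no loops (finite-set form) -/
structure Reg (V E : Type) [Fintype V] [DecidableEq V] [Fintype E] (ends : E → Sym2 V)
    (r : ℕ) : Prop where
  loop : ∀ e, ¬ (ends e).IsDiag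
  deg : ∀ v, (univ.filter fun e => v ∈ ends e).card = r
  cut : ∀ X : Finset V, X.Nonempty → X ≠ univ →
    r ≤ (univ.filter fun e => ∃ u ∈ X, ∃ v ∉ X, ends e = s(u, v)).card

def Col {V E : Type} (ends : E → Sym2 V) (r : ℕ) : Prop :=
  ∃ c : E → Fin r, ∀ e f, e ≠ f → (∃ v, v ∈ ends e ∧ v ∈ ends f) → c e ≠ c f

theorem Reg.even {V E : Type} [Fintype V] [DecidableEq V] [Fintype E] {ends : E → Sym2 V} {r : ℕ}
    (h : Reg V E ends r) (hodd : Odd r) : Even (Fintype.card V) := by
  have symm : ∀ x y, mult ends x y = mult ends y x := by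
    intro x y
    unfold mult
    rw [Sym2.eq_swap]
  have irr : ∀ x, mult ends x x = 0 := by
    intro x
    unfold mult
    rw [Finset.card_eq_zero, Finset.filter_eq_empty_iff]
    intro e _ he
    exact h.loop e (by rw [he]; simp)
  have h1 := even_inner symm irr (univ : Finset V)
  have h2 : ∑ x : V, ∑ y, mult ends x y = Fintype.card V * r := by
    rw [Finset.sum_congr rfl fun x _ => by rw [mult_deg ends h.loop x, h.deg x]]
    simp
  rw [h2, Nat.even_mul] at h1
  rcases h1 with h1 | h1
  · exact h1
  · exact absurd h1 (Nat.not_even_iff_odd.2 hodd)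

theorem Reg.RG {V E : Type} [Fintype V] [DecidableEq V] [Fintype E] {ends : E → Sym2 V} {r : ℕ}
    (h : Reg V E ends r) (hodd : Odd r) : RG (mult ends) univ r where
  symm := by
    intro x y
    unfold mult
    rw [Sym2.eq_swap]
  irr := by
    intro x
    unfold mult
    rw [Finset.card_eq_zero, Finset.filter_eq_empty_iff]
    intro e _ he
    exact h.loop e (by rw [he]; simp)
  supp := fun x _ _ => Finset.mem_univ x
  deg := fun v _ => by rw [mult_deg ends h.loop v, h.deg v]
  odd := by
    intro X _ hX
    rw [mult_cut ends h.loop X]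
    refine h.cut X (Finset.card_pos.1 hX.pos) ?_
    rintro rfl
    rw [Finset.card_univ] at hX
    exact (Nat.not_even_iff_odd.2 hX) (h.even hodd)

/-- A graph with a non-trivial separation of order at most 3 is `r`-edge-colourable if all smaller
graphs are. -/
theorem min_sep {V E : Type} [Fintype V] [DecidableEq V] [Fintype E] [DecidableEq E]
    (ends : E → Sym2 V) (r : ℕ) (hr : 3 ≤ r) (hodd : Odd r) (h : Reg V E ends r)
    (ih : ∀ (V' E' : Type) [Fintype V'] [DecidableEq V'] [Fintype E'] [DecidableEq E']
      (ends' : E' → Sym2 V'), Fintype.card V' < Fintype.card V → Reg V' E' ends' r → Col ends' r)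
    (A B C : Finset V) (hun : A ∪ B ∪ C = univ) (hAB : Disjoint A B) (hAC : Disjoint A C)
    (hBC : Disjoint B C) (hB : B.card ≤ 3) (hA : 2 ≤ A.card) (hC : 2 ≤ C.card)
    (hno : ∀ e, ∀ x ∈ A, ∀ y ∈ C, ends e ≠ s(x, y)) : Col ends r := by
  classical
  have hRG := h.RG hodd
  have hEC : EC (mult ends) univ r := by
    intro X _ hX0 hX1
    rw [mult_cut ends h.loop X]
    exact h.cut X hX0 hX1
  have hno' : ∀ x ∈ A, ∀ y ∈ C, mult ends x y = 0 := by
    intro x hx y hy
    unfold mult
    rw [Finset.card_eq_zero, Finset.filter_eq_empty_iff]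
    intro e _ he
    exact hno e x hx y hy he
  have key : Dec (mult ends) univ r := by
    refine ec_reduce' hRG hEC hr hun.symm hAB hAC hBC hB hA hC hno' ?_
    intro w' S' hS' hRG' hEC'
    obtain ⟨E', hE', ends', hm, hl, hd, hcut⟩ := exists_edges hRG'
    have hreg : Reg {v // v ∈ S'} E' ends' r := by
      refine ⟨hl, hd, ?_⟩
      intro X hX0 hX1
      rw [hcut X]
      refine hEC' _ ?_ ?_ ?_
      · intro x hx
        rw [Finset.mem_map] at hx
        obtain ⟨y, _, rfl⟩ := hx
        exact y.2
      · exact hX0.map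
      · intro hS
        apply hX1
        ext x
        simp only [Finset.mem_univ, iff_true]
        have hx : (x : V) ∈ X.map (Function.Embedding.subtype _) := by rw [hS]; exact x.2
        rw [Finset.mem_map] at hx
        obtain ⟨y, hy, hyx⟩ := hx
        have : y = x := Subtype.ext hyx
        rw [← this]
        exact hy
    have hcol := ih {v // v ∈ S'} E' ends' (by
      rw [Fintype.card_coe]
      simpa using hS') hreg
    obtain ⟨c, hc⟩ := hcol
    obtain ⟨M, hM, hone⟩ := pm_of_col ends' r hd c hc
    have := dec_of_edges (k := 1) ends' hm hl M hM hone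
    simpa using this
  have key' : Dec (fun x y => 1 * mult ends x y) univ r := by simpa using key
  obtain ⟨M, hM, hone⟩ := edges_of_dec ends h.loop 1 r key'
  exact col_of_pm ends r M hM hone

end RG3
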