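import Pool.Agent.Lib.MP_78ca69_co.R3.Skel
set_option autoImplicit false
set_option linter.unusedSectionVars false
namespace RG3
open Finset
variable {V : Type*} [Fintype V] [DecidableEq V]

theorem C1_in {w : V → V → ℕ} {X : Finset V} {z : V} {x y : V} (hx : x ∈ X) (hy : y ∈ X) :
    contr w X z x y = w x y := by
  unfold contr
  rw [if_pos ⟨hx, hy⟩]

theorem C1_out {w : V → V → ℕ} {X : Finset V} {z : V} (hz : z ∉ X) {x : V} (hx : x ∈ X) :
    ∑ y ∈ Xᶜ, contr w X z x y = ∑ u ∈ Xᶜ, w x u := by
  rw [Finset.sum_eq_single z]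
  · unfold contr
    rw [if_neg (fun h => hz h.2), if_pos ⟨hx, rfl⟩]
  · intro y hy hyz
    unfold contr
    have hxz : x ≠ z := fun h => hz (h ▸ hx)
    rw [if_neg (fun h => (Finset.mem_compl.1 hy) h.2), if_neg (fun h => hyz h.2),
      if_neg (fun h => hxz h.1)]
  · intro h
    exact absurd (Finset.mem_compl.2 hz) h

theorem C1_cut {w : V → V → ℕ} {X : Finset V} {z : V} (hz : z ∉ X) {Y : Finset V} (hY : Y ⊆ X) :
    cut (contr w X z) Y = cut w Y := by
  unfold cut
  refine Finset.sum_congr rfl fun x hx => ?_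
  have hxX := hY hx
  have hd : Yᶜ = (X \ Y) ∪ Xᶜ := by
    ext u
    simp only [Finset.mem_compl, Finset.mem_union, Finset.mem_sdiff]
    by_cases h1 : u ∈ X <;> by_cases h2 : u ∈ Y <;> simp [h1, h2]
    exact h1 (hY h2)
  have hdis : Disjoint (X \ Y) Xᶜ := by
    rw [Finset.disjoint_left]
    intro u hu hu'
    exact (Finset.mem_compl.1 hu') (Finset.mem_sdiff.1 hu).1
  rw [hd, Finset.sum_union hdis, Finset.sum_union hdis, C1_out hz hxX]
  congr 1
  exact Finset.sum_congr rfl fun y hy => C1_in hxX (Finset.mem_sdiff.1 hy).1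

theorem C1_symm {w : V → V → ℕ} {X : Finset V} {z : V} (symm : ∀ x y, w x y = w y x)
    (hz : z ∉ X) (x y : V) : contr w X z x y = contr w X z y x := by
  unfold contr
  by_cases h1 : x ∈ X <;> by_cases h2 : y ∈ X
  · rw [if_pos ⟨h1, h2⟩, if_pos ⟨h2, h1⟩, symm]
  · by_cases h3 : y = z
    · rw [if_neg (fun h => h2 h.2), if_pos ⟨h1, h3⟩, if_neg (fun h => h2 h.1),
        if_neg (fun h => h2 h.1), if_pos ⟨h3, h1⟩]
    · rw [if_neg (fun h => h2 h.2), if_neg (fun h => h3 h.2), if_neg (fun h => h2 h.2),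
        if_neg (fun h => h2 h.1), if_neg (fun h => h2 h.1), if_neg (fun h => h3 h.1)]
  · by_cases h3 : x = z
    · rw [if_neg (fun h => h1 h.1), if_neg (fun h => h1 h.1), if_pos ⟨h3, h2⟩,
        if_neg (fun h => h1 h.2), if_pos ⟨h2, h3⟩]
    · rw [if_neg (fun h => h1 h.1), if_neg (fun h => h1 h.1), if_neg (fun h => h3 h.1),
        if_neg (fun h => h1 h.2), if_neg (fun h => h3 h.2), if_neg (fun h => h1 h.2)]
  · rw [if_neg (fun h => h1 h.1), if_neg (fun h => h1 h.1), if_neg (fun h => h2 h.2),
      if_neg (fun h => h2 h.1), if_neg (fun h => h2 h.1), if_neg (fun h => h1 h.2)]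

theorem contr_RG {w : V → V → ℕ} {S X : Finset V} {r : ℕ} {z : V} (h : RG w S r) (hX : X ⊆ S)
    (hodd : Odd X.card) (hc : cut w X = r) (hz : z ∉ X) :
    RG (contr w X z) (insert z X) r := by
  have hsupp : ∀ x y, contr w X z x y ≠ 0 → x ∈ insert z X := by
    intro x y hne
    rw [Finset.mem_insert]
    by_contra hcon
    push Not at hcon
    apply hne
    unfold contr
    rw [if_neg (fun h => hcon.2 h.1), if_neg (fun h => hcon.2 h.1), if_neg (fun h => hcon.1 h.1)]
  have hsy := C1_symm (z := z) h.symm hz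
  have hzr : ∑ y, contr w X z z y = cut w X := by
    unfold cut
    rw [← Finset.sum_add_sum_compl X (fun y => contr w X z z y)]
    have h0 : ∑ y ∈ Xᶜ, contr w X z z y = 0 := by
      refine Finset.sum_eq_zero fun y hy => ?_
      have hy' := Finset.mem_compl.1 hy
      unfold contr
      rw [if_neg (fun h => hz h.1), if_neg (fun h => hz h.1), if_neg (fun h => hy' h.2)]
    rw [h0, add_zero]
    refine Finset.sum_congr rfl fun y hy => ?_
    unfold contr
    rw [if_neg (fun h => hz h.1), if_neg (fun h => hz h.1), if_pos ⟨rfl, hy⟩]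
  refine ⟨hsy, ?_, hsupp, ?_, ?_⟩
  · intro x
    unfold contr
    by_cases h1 : x ∈ X
    · rw [if_pos ⟨h1, h1⟩, h.irr]
    · rw [if_neg (fun h => h1 h.1), if_neg (fun h => h1 h.1), if_neg (fun h => h1 h.2)]
  · intro x hx
    rw [Finset.mem_insert] at hx
    rcases hx with hx | hx
    · rw [hx, hzr, hc]
    · rw [← Finset.sum_add_sum_compl X (fun y => contr w X z x y), C1_out hz hx,
        Finset.sum_congr rfl (fun y hy => C1_in hx hy),
        Finset.sum_add_sum_compl X (fun y => w x y)]
      exact h.deg x (hX hx)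
  · intro Y hY hYodd
    by_cases hzY : z ∈ Y
    · have hY' : insert z X \ Y ⊆ X := by
        intro u hu
        obtain ⟨h1, h2⟩ := Finset.mem_sdiff.1 hu
        rcases Finset.mem_insert.1 h1 with h3 | h3
        · exact absurd (h3 ▸ hzY) h2
        · exact h3
      have hcard : (insert z X \ Y).card + Y.card = X.card + 1 := by
        rw [Finset.card_sdiff_add_card_eq_card hY, Finset.card_insert_of_notMem hz]
      have hodd' : Odd (insert z X \ Y).card := by
        rw [Nat.odd_iff] at hodd hYodd ⊢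
        omega
      have h1 : cut (contr w X z) Y = cut (contr w X z) (insert z X \ Y) := by
        rw [← cut_compl hsy (insert z X \ Y)]
        refine cut_supp (T := insert z X) (fun x y hne => ⟨hsupp x y hne, hsupp y x ?_⟩) ?_
        · rw [hsy y x]
          exact hne
        · ext u
          simp only [Finset.mem_inter, Finset.mem_compl, Finset.mem_sdiff]
          tauto
      rw [h1, C1_cut hz hY']
      exact h.odd _ (hY'.trans hX) hodd'
    · have hY' : Y ⊆ X := by
        intro u hu
        rcases Finset.mem_insert.1 (hY hu) with h3 | h3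
        · exact absurd (h3 ▸ hu) hzY
        · exact h3
      rw [C1_cut hz hY']
      exact h.odd _ (hY'.trans hX) hYodd

end RG3
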