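import Pool.Agent.Lib.MP_78ca69_co.R3.F1
set_option autoImplicit false
set_option linter.unusedSectionVars false

namespace RG3

open Finset

variable {V : Type*} [Fintype V] [DecidableEq V]

private theorem C2_lab {r : ℕ} (t : Fin r → V) (X Y : Finset V) (w : V → V → ℕ)
    (ht : ∀ i, t i ∈ X)
    (h : ∀ x ∈ X, (univ.filter fun i => t i = x).card = ∑ y ∈ Y, w x y) :
    ∃ g : Fin r → V, (∀ i, g i ∈ Y) ∧ ∀ x ∈ X, ∀ y ∈ Y,
      (univ.filter fun i => t i = x ∧ g i = y).card = w x y := by
  have h1 : ∀ x, ∃ g : Fin r → V, x ∈ X → (∀ i, t i = x → g i ∈ Y) ∧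
      ∀ y ∈ Y, ((univ.filter fun i => t i = x).filter fun i => g i = y).card = w x y := by
    intro x
    by_cases hx : x ∈ X
    · obtain ⟨g, hg1, hg2⟩ := exists_label (univ.filter fun i => t i = x) Y (w x) (h x hx) x
      exact ⟨g, fun _ => ⟨fun i hi => hg1 i (by simpa using hi), hg2⟩⟩
    · exact ⟨fun _ => x, fun h => absurd h hx⟩
  choose G hG using h1
  refine ⟨fun i => G (t i) i, fun i => (hG (t i) (ht i)).1 i rfl, fun x hx y hy => ?_⟩
  rw [← (hG x hx).2 y hy]
  congr 1
  ext i
  simp only [mem_filter, mem_univ, true_and]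
  constructor
  · rintro ⟨rfl, h2⟩
    exact ⟨rfl, h2⟩
  · rintro ⟨rfl, h2⟩
    exact ⟨rfl, h2⟩

private theorem C2_perm {r : ℕ} (π : Equiv.Perm (Fin r)) (P : Fin r → Prop) [DecidablePred P] :
    (univ.filter fun i => P (π i)).card = (univ.filter fun i => P i).card := by
  refine Finset.card_bij (fun i _ => π i) ?_ ?_ ?_
  · intro i hi
    simpa using hi
  · intro i _ j _ hij
    exact π.injective hij
  · intro j hj
    exact ⟨π.symm j, by simpa using hj, by simp⟩

theorem contr_glue {w : V → V → ℕ} {S X : Finset V} {r : ℕ} {z z' : V}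
    (symm : ∀ x y, w x y = w y x) (irr : ∀ x, w x x = 0) (supp : ∀ x y, w x y ≠ 0 → x ∈ S)
    (hX : X ⊆ S) (hz : z ∈ S) (hzX : z ∉ X) (hz' : z' ∈ X)
    (h1 : Dec (contr w X z) (insert z X) r)
    (h2 : Dec (contr w (S \ X) z') (insert z' (S \ X)) r) : Dec w S r := by
  obtain ⟨f1, a1, b1⟩ := h1
  obtain ⟨f2, a2, b2⟩ := h2
  set Y := S \ X with hY
  have hYX : ∀ v, v ∈ Y → v ∉ X := fun v hv => (mem_sdiff.1 hv).2
  have hYS : ∀ v, v ∈ Y → v ∈ S := fun v hv => (mem_sdiff.1 hv).1
  have hz'Y : z' ∉ Y := fun h => hYX _ h hz'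
  have t1 : ∀ i, f1 i z ∈ X := fun i => by
    obtain ⟨h3, -, h5⟩ := a1 i z (mem_insert_self _ _)
    exact (mem_insert.1 h3).resolve_left h5
  have t2 : ∀ i, f2 i z' ∈ Y := fun i => by
    obtain ⟨h3, -, h5⟩ := a2 i z' (mem_insert_self _ _)
    exact (mem_insert.1 h3).resolve_left h5
  have c1 : ∀ x ∈ X, (univ.filter fun i => f1 i z = x).card = ∑ y ∈ Y, w x y := by
    intro x hx
    rw [← b1 z (mem_insert_self _ _) x (mem_insert_of_mem hx)]
    unfold contr
    rw [if_neg (fun h => hzX h.1), if_neg (fun h => hzX h.1), if_pos ⟨rfl, hx⟩]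
    symm
    refine Finset.sum_subset (fun y hy => mem_compl.2 (hYX y hy)) fun y hy hy' => ?_
    by_contra hne
    rw [symm] at hne
    exact hy' (mem_sdiff.2 ⟨supp y x hne, mem_compl.1 hy⟩)
  have c2 : ∀ y ∈ Y, (univ.filter fun i => f2 i z' = y).card = ∑ x ∈ X, w y x := by
    intro y hy
    rw [← b2 z' (mem_insert_self _ _) y (mem_insert_of_mem hy)]
    unfold contr
    rw [if_neg (fun h => hz'Y h.1), if_neg (fun h => hz'Y h.1), if_pos ⟨rfl, hy⟩]
    symm
    refine Finset.sum_subset (fun x hx => mem_compl.2 fun h => hYX x h hx) fun x hx hx' => ?_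
    by_contra hne
    rw [symm] at hne
    exact mem_compl.1 hx (mem_sdiff.2 ⟨supp x y hne, hx'⟩)
  obtain ⟨g1, g1Y, e1⟩ := C2_lab (fun i => f1 i z) X Y w t1 c1
  obtain ⟨g2, g2X, e2⟩ := C2_lab (fun i => f2 i z') Y X w t2 c2
  obtain ⟨π, hπ⟩ := exists_perm_fib (fun i => (g2 i, f2 i z')) (fun i => (f1 i z, g1 i)) (by
    rintro ⟨x, y⟩
    by_cases hxy : x ∈ X ∧ y ∈ Y
    · have h3 := e1 x hxy.1 y hxy.2
      have h4 := e2 y hxy.2 x hxy.1
      rw [symm y x, ← h3] at h4
      rw [show (univ.filter fun i => (g2 i, f2 i z') = (x, y)) =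
        univ.filter fun i => f2 i z' = y ∧ g2 i = x by
          ext i; simp only [mem_filter, mem_univ, true_and, Prod.mk.injEq]; tauto, h4]
      congr 1
      ext i
      simp only [mem_filter, mem_univ, true_and, Prod.mk.injEq]
    · rw [Finset.filter_false_of_mem, Finset.filter_false_of_mem]
      · intro i _ h3
        rw [Prod.mk.injEq] at h3
        exact hxy ⟨h3.1 ▸ t1 i, h3.2 ▸ g1Y i⟩
      · intro i _ h3
        rw [Prod.mk.injEq] at h3
        exact hxy ⟨h3.1 ▸ g2X i, h3.2 ▸ t2 i⟩)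
  have p1 : ∀ i, f1 (π i) z = g2 i := fun i => congrArg Prod.fst (hπ i)
  have p2 : ∀ i, g1 (π i) = f2 i z' := fun i => congrArg Prod.snd (hπ i)
  have s1 : ∀ i, ∀ v ∈ X, f1 i v = z ↔ f1 i z = v := fun i v hv => by
    constructor
    · intro h3
      rw [← h3]
      exact (a1 i v (mem_insert_of_mem hv)).2.1
    · intro h3
      rw [← h3]
      exact (a1 i z (mem_insert_self _ _)).2.1
  have s2 : ∀ i, ∀ v ∈ Y, f2 i v = z' ↔ f2 i z' = v := fun i v hv => by
    constructor
    · intro h3
      rw [← h3]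
      exact (a2 i v (mem_insert_of_mem hv)).2.1
    · intro h3
      rw [← h3]
      exact (a2 i z' (mem_insert_self _ _)).2.1
  have u1 : ∀ i, ∀ v ∈ X, f1 i v ≠ z → f1 i v ∈ X := fun i v hv h3 =>
    (mem_insert.1 (a1 i v (mem_insert_of_mem hv)).1).resolve_left h3
  have u2 : ∀ i, ∀ v ∈ Y, f2 i v ≠ z' → f2 i v ∈ Y := fun i v hv h3 =>
    (mem_insert.1 (a2 i v (mem_insert_of_mem hv)).1).resolve_left h3
  have hXz : ∀ v ∈ X, v ≠ z := fun v hv h3 => hzX (h3 ▸ hv)
  have hYz : ∀ v ∈ Y, v ≠ z' := fun v hv h3 => hz'Y (h3 ▸ hv)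
  have FX : ∀ i, ∀ v ∈ X, f1 (π i) v = z →
      (if v ∈ X then (if f1 (π i) v = z then g1 (π i) else f1 (π i) v)
      else (if f2 i v = z' then g2 i else f2 i v)) = g1 (π i) := fun i v hv h3 => by
    rw [if_pos hv, if_pos h3]
  refine ⟨fun i v => if v ∈ X then (if f1 (π i) v = z then g1 (π i) else f1 (π i) v)
    else (if f2 i v = z' then g2 i else f2 i v), ?_, ?_⟩
  · intro i v hv
    by_cases hvX : v ∈ X
    · by_cases h3 : f1 (π i) v = z
      · have h4 : g1 (π i) ∉ X := hYX _ (g1Y _)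
        have h5 : f2 i (g1 (π i)) = z' := (s2 i _ (g1Y _)).2 (p2 i).symm
        have h6 : g2 i = v := by rw [← p1 i]; exact (s1 _ v hvX).1 h3
        simp only [hvX, h3, h4, h5, if_true, if_false]
        exact ⟨hYS _ (g1Y _), h6, fun h7 => h4 (h7 ▸ hvX)⟩
      · have h4 := u1 (π i) v hvX h3
        obtain ⟨-, h5, h6⟩ := a1 (π i) v (mem_insert_of_mem hvX)
        simp only [hvX, h3, h4, h5, hXz v hvX, if_true, if_false]
        exact ⟨hX h4, trivial, h6⟩
    · have hvY : v ∈ Y := mem_sdiff.2 ⟨hv, hvX⟩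
      by_cases h3 : f2 i v = z'
      · have h4 : g2 i ∈ X := g2X i
        have h5 : f1 (π i) (g2 i) = z := (s1 _ _ h4).2 (p1 i)
        have h6 : g1 (π i) = v := by rw [p2 i]; exact (s2 _ v hvY).1 h3
        simp only [hvX, h3, h4, h5, if_true, if_false]
        exact ⟨hX h4, h6, fun h7 => hvX (h7 ▸ h4)⟩
      · have h4 := u2 i v hvY h3
        obtain ⟨-, h5, h6⟩ := a2 i v (mem_insert_of_mem hvY)
        simp only [hvX, h3, hYX _ h4, h5, hYz v hvY, if_false]
        exact ⟨hYS _ h4, trivial, h6⟩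
  · intro u hu v hv
    by_cases huX : u ∈ X
    · by_cases hvX : v ∈ X
      · have h3 : w u v = contr w X z u v := by
          unfold contr
          rw [if_pos ⟨huX, hvX⟩]
        rw [h3, b1 u (mem_insert_of_mem huX) v (mem_insert_of_mem hvX),
          ← C2_perm π fun i => f1 i u = v]
        congr 1
        ext i
        simp only [mem_filter, mem_univ, true_and, huX, if_true]
        by_cases h4 : f1 (π i) u = z
        · rw [if_pos h4, h4]
          constructor
          · intro h5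
            exact absurd h5.symm (hXz v hvX)
          · intro h5
            exact absurd hvX (hYX v (h5 ▸ g1Y _))
        · rw [if_neg h4]
      · have hvY : v ∈ Y := mem_sdiff.2 ⟨hv, hvX⟩
        rw [← e1 u huX v hvY, ← C2_perm π fun i => f1 i z = u ∧ g1 i = v]
        congr 1
        ext i
        simp only [mem_filter, mem_univ, true_and, huX, if_true]
        by_cases h4 : f1 (π i) u = z
        · rw [if_pos h4]
          exact ⟨fun h => h.2, fun h => ⟨(s1 _ u huX).1 h4, h⟩⟩
        · rw [if_neg h4]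
          constructor
          · intro h5
            exact absurd ((s1 _ u huX).2 h5.1) h4
          · intro h5
            exact absurd (u1 _ u huX h4) (h5 ▸ hvX)
    · have huY : u ∈ Y := mem_sdiff.2 ⟨hu, huX⟩
      by_cases hvX : v ∈ X
      · rw [← e2 u huY v hvX]
        congr 1
        ext i
        simp only [mem_filter, mem_univ, true_and, huX, if_false]
        by_cases h4 : f2 i u = z'
        · rw [if_pos h4]
          exact ⟨fun h => h.2, fun h => ⟨(s2 _ u huY).1 h4, h⟩⟩
        · rw [if_neg h4]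
          constructor
          · intro h5
            exact absurd ((s2 _ u huY).2 h5.1) h4
          · intro h5
            exact absurd hvX (h5 ▸ hYX _ (u2 _ u huY h4))
      · have hvY : v ∈ Y := mem_sdiff.2 ⟨hv, hvX⟩
        have h3 : w u v = contr w Y z' u v := by
          unfold contr
          rw [if_pos ⟨huY, hvY⟩]
        rw [h3, b2 u (mem_insert_of_mem huY) v (mem_insert_of_mem hvY)]
        congr 1
        ext i
        simp only [mem_filter, mem_univ, true_and, huX, if_false]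
        by_cases h4 : f2 i u = z'
        · rw [if_pos h4, h4]
          constructor
          · intro h5
            exact absurd h5.symm (hYz v hvY)
          · intro h5
            exact absurd (h5 ▸ g2X i) hvX
        · rw [if_neg h4]

end RG3
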