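import Pool.Agent.Lib.MP_78ca69_co.R3.PM
import Pool.Agent.Lib.MP_78ca69_co.R3.C1
import Pool.Agent.Lib.MP_78ca69_co.R3.C2
set_option autoImplicit false
set_option linter.unusedSectionVars false

namespace RG3

open Finset

variable {V : Type*} [Fintype V] [DecidableEq V]

private theorem B_compl {w : V → V → ℕ} {S X : Finset V} (symm : ∀ x y, w x y = w y x)
    (supp : ∀ x y, w x y ≠ 0 → x ∈ S) : cut w (S \ X) = cut w X := by
  rw [← cut_compl symm X]
  refine cut_supp (T := S) (fun x y h => ⟨supp x y h, supp y x (by rwa [symm])⟩) ?_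
  ext x
  simp only [mem_inter, mem_sdiff, mem_compl]
  tauto

private theorem B_even {w : V → V → ℕ} {S : Finset V} {r : ℕ} (h : RG w S r) (hr : 0 < r) :
    Even S.card := by
  by_contra hodd
  rw [Nat.not_even_iff_odd] at hodd
  have h1 := h.odd S (Finset.Subset.refl S) hodd
  have h2 : cut w S = 0 := by
    unfold cut
    refine Finset.sum_eq_zero fun x _ => Finset.sum_eq_zero fun y hy => ?_
    by_contra hne
    rw [mem_compl] at hy
    exact hy (h.supp y x (by rwa [h.symm]))
  omega

private theorem B_main (n : ℕ) : ∀ (w : V → V → ℕ) (S : Finset V) (r : ℕ), S.card + r = n →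
    RG w S r → S.card ≤ 8 → Dec w S r := by
  induction n using Nat.strong_induction_on with
  | _ n ih =>
  intro w S r hn h hS
  rcases Nat.eq_zero_or_pos r with hr | hr
  · subst hr
    refine ⟨fun i => i.elim0, fun i => i.elim0, fun u hu v _ => ?_⟩
    have h1 := h.deg u hu
    rw [Finset.sum_eq_zero_iff] at h1
    rw [h1 v (mem_univ v)]
    simp
  have hev := B_even h hr
  by_cases ht : ∃ X ⊆ S, Odd X.card ∧ 3 ≤ X.card ∧ 3 ≤ (S \ X).card ∧ cut w X = r
  · obtain ⟨X, hX, hodd, h3, h3', hc⟩ := ht
    have hcard : (S \ X).card + X.card = S.card := Finset.card_sdiff_add_card_eq_card hX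
    have hodd' : Odd (S \ X).card := by
      rw [← hcard] at hev
      exact (Nat.even_add'.1 hev).2 hodd
    obtain ⟨z, hz⟩ : (S \ X).Nonempty := Finset.card_pos.1 (by omega)
    obtain ⟨z', hz'⟩ : X.Nonempty := Finset.card_pos.1 (by omega)
    rw [mem_sdiff] at hz
    have hz2 : z' ∉ S \ X := fun hh => (mem_sdiff.1 hh).2 hz'
    have g1 := contr_RG h hX hodd hc hz.2
    have g2 := contr_RG (X := S \ X) h sdiff_subset hodd'
      ((B_compl h.symm h.supp).trans hc) hz2
    have c1 : (insert z X).card = X.card + 1 := card_insert_of_notMem hz.2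
    have c2 : (insert z' (S \ X)).card = (S \ X).card + 1 := card_insert_of_notMem hz2
    exact contr_glue h.symm h.irr h.supp hX hz.1 hz.2 hz'
      (ih ((insert z X).card + r) (by omega) _ _ _ rfl g1 (by omega))
      (ih ((insert z' (S \ X)).card + r) (by omega) _ _ _ rfl g2 (by omega))
  · push Not at ht
    obtain ⟨f, hf⟩ := exists_pm h hr
    obtain ⟨r', rfl⟩ := Nat.exists_eq_add_of_le' hr
    let m : V → V → ℕ := fun x y => if x ∈ S ∧ f x = y then 1 else 0
    let w' : V → V → ℕ := fun x y => w x y - m x y
    have hms : ∀ x y, m x y = m y x := by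
      intro x y
      have key : ∀ x y, (x ∈ S ∧ f x = y) → (y ∈ S ∧ f y = x) := by
        rintro x y ⟨hx, rfl⟩
        exact ⟨(hf x hx).1, (hf x hx).2.1⟩
      by_cases h1 : x ∈ S ∧ f x = y
      · simp only [m, if_pos h1, if_pos (key x y h1)]
      · have h2 : ¬ (y ∈ S ∧ f y = x) := fun h2 => h1 (key y x h2)
        simp only [m, if_neg h1, if_neg h2]
    have hmw : ∀ x y, m x y ≤ w x y := by
      intro x y
      by_cases h1 : x ∈ S ∧ f x = y
      · simp only [m, if_pos h1]
        obtain ⟨hx, rfl⟩ := h1
        exact (hf x hx).2.2.2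
      · simp only [m, if_neg h1]
        exact Nat.zero_le _
    have hw' : ∀ x y, w x y = w' x y + m x y := fun x y => (Nat.sub_add_cancel (hmw x y)).symm
    have hmsum : ∀ x ∈ S, ∑ y, m x y = 1 := by
      intro x hx
      simp only [m, hx, true_and]
      rw [Finset.sum_ite_eq]
      simp
    have hmsupp : ∀ x y, m x y ≠ 0 → x ∈ S := by
      intro x y hne
      by_contra hx
      exact hne (by simp [m, hx])
    have hcut : ∀ X, cut w X = cut w' X + cut m X := by
      intro X
      rw [← cut_add]
      exact cut_congr hw' X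
    have hmle : ∀ Z ⊆ S, cut m Z ≤ Z.card := by
      intro Z hZ
      refine (cut_le_deg m Z).trans ?_
      rw [Finset.sum_congr rfl fun x hx => hmsum x (hZ hx)]
      simp
    have hRG : RG w' S r' := by
      refine ⟨fun x y => ?_, fun x => ?_, fun x y hne => ?_, fun x hx => ?_, fun X hX hodd => ?_⟩
      · simp only [w']
        rw [h.symm x y, hms x y]
      · simp only [w']
        rw [h.irr x, Nat.zero_sub]
      · refine h.supp x y fun h0 => hne ?_
        simp only [w']
        rw [h0, Nat.zero_sub]
      · have h1 := h.deg x hx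
        have h2 : ∑ y, w x y = ∑ y, w' x y + ∑ y, m x y := by
          rw [← Finset.sum_add_distrib]
          exact Finset.sum_congr rfl fun y _ => hw' x y
        rw [hmsum x hx, h1] at h2
        omega
      · have hcard : (S \ X).card + X.card = S.card := Finset.card_sdiff_add_card_eq_card hX
        have hodd' : Odd (S \ X).card := by
          rw [← hcard] at hev
          exact (Nat.even_add'.1 hev).2 hodd
        have h1 := h.odd X hX hodd
        have h2 := hcut X
        have h3 : cut m (S \ X) = cut m X := B_compl hms hmsupp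
        have h4 := hmle X hX
        have h5 := hmle (S \ X) sdiff_subset
        rw [h3] at h5
        have hpar : 3 ≤ X.card → 3 ≤ (S \ X).card → r' + 3 ≤ cut w X := by
          intro a b
          have h6 := ht X hX hodd a b
          have h7 := cut_parity h.symm h.irr X
          rw [Finset.sum_congr rfl fun x hx => h.deg x (hX hx), Finset.sum_const,
            smul_eq_mul] at h7
          obtain ⟨k, hk⟩ := hodd
          rw [hk] at h7
          have h8 : (2 * k + 1) * (r' + 1) = 2 * (k * (r' + 1)) + (r' + 1) := by ring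
          rw [h8] at h7
          omega
        obtain ⟨k, hk⟩ := hodd
        obtain ⟨l, hl⟩ := hodd'
        rcases Nat.lt_or_ge X.card 3 with a | a
        · omega
        · rcases Nat.lt_or_ge (S \ X).card 3 with b | b
          · omega
          · have := hpar a b
            omega
    obtain ⟨F, hF1, hF2⟩ := ih (S.card + r') (by omega) w' S r' rfl hRG hS
    refine ⟨Fin.cons f F, ?_, ?_⟩
    · intro i
      refine Fin.cases ?_ (fun i => ?_) i
      · intro v hv
        rw [Fin.cons_zero]
        exact ⟨(hf v hv).1, (hf v hv).2.1, (hf v hv).2.2.1⟩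
      · rw [Fin.cons_succ]
        exact hF1 i
    · intro u hu v hv
      rw [hw' u v, hF2 u hu v hv, Finset.card_filter, Finset.card_filter, Fin.sum_univ_succ,
        add_comm]
      simp only [Fin.cons_zero, Fin.cons_succ, m, hu, true_and]

theorem small_dec {w : V → V → ℕ} {S : Finset V} {r : ℕ} (h : RG w S r) (hS : S.card ≤ 8) :
    Dec w S r :=
  B_main _ w S r rfl h hS

end RG3
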