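import Pool.Agent.Lib.MP_78ca69_co.R3.Skel

set_option autoImplicit false
set_option linter.unusedSectionVars false

namespace RG3

open Finset

variable {V : Type*} [Fintype V] [DecidableEq V]

private theorem E1_bound {σ : V → ℕ} {N : V → Finset V} {S : Finset V} (hV : Valid σ N S) :
    ∑ v ∈ S, (N v).card ≤ 3 * S.card := by
  refine (Finset.sum_le_sum fun v hv => hV.card v hv).trans ?_
  rw [Finset.sum_const, smul_eq_mul, mul_comm]

private theorem E1_ext {σ : V → ℕ} {N : V → Finset V} {S : Finset V} (hV : Valid σ N S) {v x : V}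
    (hv : v ∈ S) (h2 : (N v).card ≤ 2) (hx : x ∈ S) (hlt : σ v < σ x)
    (hadj : ∀ a ∈ N v, a ∈ N x ∨ x ∈ N a) (hxN : x ∉ N v) :
    Valid σ (Function.update N v (insert x (N v))) S := by
  have hne : x ≠ v := fun h => by rw [h] at hlt; exact lt_irrefl _ hlt
  have hup : ∀ u, u ≠ v → Function.update N v (insert x (N v)) u = N u :=
    fun u hu => Function.update_of_ne hu _ _
  have hself : Function.update N v (insert x (N v)) v = insert x (N v) :=
    Function.update_self _ _ _
  have hmono : ∀ u, N u ⊆ Function.update N v (insert x (N v)) u := by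
    intro u
    by_cases hu : u = v
    · rw [hu, hself]
      exact Finset.subset_insert _ _
    · rw [hup u hu]
  refine ⟨hV.inj, ?_, ?_, ?_, ?_⟩
  · intro u hu
    by_cases huv : u = v
    · rw [huv, hself]
      exact Finset.insert_subset hx (hV.sub v hv)
    · rw [hup u huv]
      exact hV.sub u hu
  · intro u hu
    by_cases huv : u = v
    · rw [huv, hself]
      refine (Finset.card_insert_le _ _).trans ?_
      omega
    · rw [hup u huv]
      exact hV.card u hu
  · intro u hu y hy
    by_cases huv : u = v
    · rw [huv, hself, Finset.mem_insert] at hy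
      rcases hy with rfl | hy
      · rw [huv]; exact hlt
      · rw [huv]; exact hV.lt v hv y hy
    · rw [hup u huv] at hy
      exact hV.lt u hu y hy
  · intro u hu a ha b hb hab
    by_cases huv : u = v
    · rw [huv, hself, Finset.mem_insert] at ha hb
      rcases ha with rfl | ha <;> rcases hb with rfl | hb
      · exact absurd rfl hab
      · rcases hadj b hb with h | h
        · exact Or.inr (hmono _ h)
        · exact Or.inl (hmono _ h)
      · rcases hadj a ha with h | h
        · exact Or.inl (hmono _ h)
        · exact Or.inr (hmono _ h)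
      · rcases hV.clq v hv a ha b hb hab with h | h
        · exact Or.inl (hmono _ h)
        · exact Or.inr (hmono _ h)
    · rw [hup u huv] at ha hb
      rcases hV.clq u hu a ha b hb hab with h | h
      · exact Or.inl (hmono _ h)
      · exact Or.inr (hmono _ h)

/-- A maximal elimination structure. -/
theorem exists_maximal {σ : V → ℕ} {N : V → Finset V} {S : Finset V} (hV : Valid σ N S) :
    ∃ N' : V → Finset V, Valid σ N' S ∧ (∀ v ∈ S, N v ⊆ N' v) ∧
      ∀ v ∈ S, (N' v).card ≤ 2 → ∀ x ∈ S, σ v < σ x →
        (∀ a ∈ N' v, a ∈ N' x ∨ x ∈ N' a) → x ∈ N' v := by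
  have key : ∀ k : ℕ, ∀ N1 : V → Finset V, Valid σ N1 S → (∀ v ∈ S, N v ⊆ N1 v) →
      3 * S.card - ∑ v ∈ S, (N1 v).card = k →
      ∃ N' : V → Finset V, Valid σ N' S ∧ (∀ v ∈ S, N v ⊆ N' v) ∧
      ∀ v ∈ S, (N' v).card ≤ 2 → ∀ x ∈ S, σ v < σ x →
        (∀ a ∈ N' v, a ∈ N' x ∨ x ∈ N' a) → x ∈ N' v := by
    intro k
    induction k using Nat.strong_induction_on with
    | _ k ih =>
      intro N1 hV1 hsub hk
      by_cases hmax : ∀ v ∈ S, (N1 v).card ≤ 2 → ∀ x ∈ S, σ v < σ x →
        (∀ a ∈ N1 v, a ∈ N1 x ∨ x ∈ N1 a) → x ∈ N1 v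
      · exact ⟨N1, hV1, hsub, hmax⟩
      · push Not at hmax
        obtain ⟨v, hv, h2, x, hx, hlt, hadj, hxN⟩ := hmax
        have hV2 := E1_ext hV1 hv h2 hx hlt hadj hxN
        have hsum : ∑ u ∈ S, (Function.update N1 v (insert x (N1 v)) u).card =
            ∑ u ∈ S, (N1 u).card + 1 := by
          rw [← Finset.add_sum_erase S _ hv, ← Finset.add_sum_erase S (fun u => (N1 u).card) hv]
          have h1 : (Function.update N1 v (insert x (N1 v)) v).card = (N1 v).card + 1 := by
            rw [Function.update_self, Finset.card_insert_of_notMem hxN]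
          have h3 : ∑ u ∈ S.erase v, (Function.update N1 v (insert x (N1 v)) u).card =
              ∑ u ∈ S.erase v, (N1 u).card := by
            refine Finset.sum_congr rfl fun u hu => ?_
            rw [Function.update_of_ne (Finset.ne_of_mem_erase hu)]
          rw [h1, h3]
          omega
        have hb := E1_bound hV2
        refine ih (3 * S.card - ∑ u ∈ S, (Function.update N1 v (insert x (N1 v)) u).card)
          (by omega) _ hV2 ?_ rfl
        intro u hu
        by_cases huv : u = v
        · rw [huv, Function.update_self]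
          exact (hsub v hv).trans (Finset.subset_insert _ _)
        · rw [Function.update_of_ne huv]
          exact hsub u hu
  exact key _ N hV (fun v _ => Finset.Subset.refl _) rfl

end RG3
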