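import Pool.Agent.Lib.MP_78ca69_co.R3.Skel
set_option autoImplicit false
set_option linter.unusedSectionVars false
namespace RG3
open Finset
variable {V : Type*} [Fintype V] [DecidableEq V]

private theorem E2_key {σ : V → ℕ} {N : V → Finset V} {S : Finset V} (hV : Valid σ N S)
    (hmax : ∀ v ∈ S, (N v).card ≤ 2 → ∀ x ∈ S, σ v < σ x →
        (∀ a ∈ N v, a ∈ N x ∨ x ∈ N a) → x ∈ N v) (v : V) (hv : v ∈ S) (hc : (N v).card ≤ 2)
    (hne : (N v).Nonempty) : ∃ a ∈ N v, N v = insert a (N a) ∧ a ∉ N a ∧ a ∈ S := by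
  obtain ⟨a, ha, hmin⟩ := Finset.exists_min_image (N v) σ hne
  have haS : a ∈ S := hV.sub v hv ha
  have haN : a ∉ N a := fun h => lt_irrefl _ (hV.lt a haS a h)
  have key : ∀ a' ∈ N v, a' ≠ a → a' ∈ N a := by
    intro a' ha' hne'
    rcases hV.clq v hv a ha a' ha' (Ne.symm hne') with h | h
    · exfalso
      have h1 := hV.lt a' (hV.sub v hv ha') a h
      have h2 := hmin a' ha'
      omega
    · exact h
  refine ⟨a, ha, ?_, haN, haS⟩
  ext x
  rw [Finset.mem_insert]
  constructor
  · intro hx
    by_cases h : x = a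
    · exact Or.inl h
    · exact Or.inr (key x hx h)
  · rintro (rfl | hx)
    · exact ha
    · by_contra hxv
      apply hxv
      apply hmax v hv hc x (hV.sub a haS hx)
      · have h1 := hV.lt v hv a ha
        have h2 := hV.lt a haS x hx
        omega
      · intro a' ha'
        by_cases h : a' = a
        · subst h; exact Or.inr hx
        · have h1 := key a' ha' h
          have h2 : x ≠ a' := fun h3 => hxv (h3 ▸ ha')
          rcases hV.clq a haS x hx a' h1 h2 with h3 | h3
          · exact Or.inr h3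
          · exact Or.inl h3

theorem maximal_small {σ : V → ℕ} {N : V → Finset V} {S : Finset V} (hV : Valid σ N S)
    (hmax : ∀ v ∈ S, (N v).card ≤ 2 → ∀ x ∈ S, σ v < σ x →
        (∀ a ∈ N v, a ∈ N x ∨ x ∈ N a) → x ∈ N v) :
    (S.filter fun v => (N v).card ≤ 2).card ≤ 3 ∧
      ∀ v ∈ S, (N v).card ≤ 2 → ∀ a ∈ N v, (N a).card ≤ 2 := by
  have key := E2_key hV hmax
  have same : ∀ v ∈ S, ∀ v' ∈ S, (N v).card ≤ 2 → N v = N v' → v = v' := by
    have aux : ∀ v ∈ S, ∀ v' ∈ S, (N v).card ≤ 2 → N v = N v' → ¬ σ v < σ v' := by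
      intro v hv v' hv' hc he hlt
      have h1 : v' ∈ N v := hmax v hv hc v' hv' hlt (fun a ha => Or.inl (he ▸ ha))
      rw [he] at h1
      exact lt_irrefl _ (hV.lt v' hv' v' h1)
    intro v hv v' hv' hc he
    apply hV.inj v hv v' hv'
    have h1 := aux v hv v' hv' hc he
    have h2 := aux v' hv' v hv (he ▸ hc) he.symm
    omega
  have inj : ∀ c : ℕ, c ≤ 2 → ∀ v ∈ S, ∀ v' ∈ S, (N v).card = c → (N v').card = c → v = v' := by
    intro c
    induction c with
    | zero =>
      intro _ v hv v' hv' h1 h2
      apply same v hv v' hv' (by omega)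
      rw [Finset.card_eq_zero.mp h1, Finset.card_eq_zero.mp h2]
    | succ c ih =>
      intro hc v hv v' hv' h1 h2
      apply same v hv v' hv' (by omega)
      obtain ⟨a, ha, hNa, haN, haS⟩ := key v hv (by omega) (Finset.card_pos.mp (by omega))
      obtain ⟨b, hb, hNb, hbN, hbS⟩ := key v' hv' (by omega) (Finset.card_pos.mp (by omega))
      rw [hNa, Finset.card_insert_of_notMem haN] at h1
      rw [hNb, Finset.card_insert_of_notMem hbN] at h2
      have hab : a = b := ih (by omega) a haS b hbS (by omega) (by omega)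
      rw [hNa, hNb, hab]
  refine ⟨?_, ?_⟩
  · have h3 : (Finset.range 3).card = 3 := Finset.card_range 3
    rw [← h3]
    apply Finset.card_le_card_of_injOn (fun v => (N v).card)
    · intro v hv
      have := (Finset.mem_filter.mp hv).2
      simp only [Finset.coe_range, Set.mem_Iio]
      omega
    · intro v hv v' hv' he
      have h1 := Finset.mem_filter.mp (Finset.mem_coe.mp hv)
      have h2 := Finset.mem_filter.mp (Finset.mem_coe.mp hv')
      exact inj _ h1.2 v h1.1 v' h2.1 rfl he.symm
  · have main : ∀ c : ℕ, c ≤ 2 → ∀ v ∈ S, (N v).card = c → ∀ a ∈ N v, (N a).card ≤ 2 := by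
      intro c
      induction c with
      | zero =>
        intro _ v _ h1 a ha
        rw [Finset.card_eq_zero.mp h1] at ha
        exact absurd ha (Finset.notMem_empty a)
      | succ c ih =>
        intro hc v hv h1 a' ha'
        obtain ⟨a, ha, hNa, haN, haS⟩ := key v hv (by omega) (Finset.card_pos.mp (by omega))
        rw [hNa, Finset.card_insert_of_notMem haN] at h1
        rw [hNa, Finset.mem_insert] at ha'
        rcases ha' with rfl | ha'
        · omega
        · exact ih (by omega) a haS (by omega) a' ha'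
    intro v hv hc a ha
    exact main _ hc v hv rfl a ha

end RG3
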