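import Pool.Agent.Lib.MP_78ca69_co.R3.Skel
set_option autoImplicit false
set_option linter.unusedSectionVars false

namespace RG3

open Finset

variable {V : Type*} [Fintype V] [DecidableEq V]

private theorem E3_mk {w : V → V → ℕ} {N : V → Finset V} {S L R T : Finset V}
    (hT : T.card = 3) (hcl : ∀ x ∈ T, ∀ y ∈ T, x ≠ y → x ∈ N y ∨ y ∈ N x)
    (hun : S = L ∪ R ∪ T) (dLR : Disjoint L R) (dLT : Disjoint L T) (dRT : Disjoint R T)
    (hno : ∀ x ∈ L, ∀ y ∈ R, w x y = 0) (hLe : Even L.card) (hL2 : 2 ≤ L.card)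
    (hRo : Odd R.card) (hR3 : 3 ≤ R.card) :
    ∃ (a b c : V) (L R : Finset V), Sep w S L R a b c ∧ (a ∈ N b ∨ b ∈ N a) ∧
      (a ∈ N c ∨ c ∈ N a) ∧ (b ∈ N c ∨ c ∈ N b) ∧ Even L.card ∧ 2 ≤ L.card ∧
      Odd R.card ∧ 3 ≤ R.card := by
  obtain ⟨a, b, c, hab, hac, hbc, rfl⟩ := Finset.card_eq_three.1 hT
  have ha : a ∈ ({a, b, c} : Finset V) := by simp
  have hb : b ∈ ({a, b, c} : Finset V) := by simp
  have hc : c ∈ ({a, b, c} : Finset V) := by simp
  refine ⟨a, b, c, L, R, ?_, hcl a ha b hb hab, hcl a ha c hc hac, hcl b hb c hc hbc,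
    hLe, hL2, hRo, hR3⟩
  exact
    { ab := hab
      ac := hac
      bc := hbc
      un := hun
      dLR := dLR
      aL := fun h => Finset.disjoint_left.1 dLT h ha
      bL := fun h => Finset.disjoint_left.1 dLT h hb
      cL := fun h => Finset.disjoint_left.1 dLT h hc
      aR := fun h => Finset.disjoint_left.1 dRT h ha
      bR := fun h => Finset.disjoint_left.1 dRT h hb
      cR := fun h => Finset.disjoint_left.1 dRT h hc
      no := hno }

/-- two vertices with the same three later neighbours and no in-neighbours -/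
private theorem E3_two {w : V → V → ℕ} {σ : V → ℕ} {N : V → Finset V} {S : Finset V}
    (hV : Valid σ N S) (hf : Fits w N S) (h10 : 10 ≤ S.card) (hev : Even S.card)
    {u u' : V} (hu : u ∈ S) (hu' : u' ∈ S) (hne : u ≠ u') (h3 : (N u).card = 3)
    (hNN : N u' = N u) (hin : ∀ y ∈ S, u ∉ N y) (hin' : ∀ y ∈ S, u' ∉ N y) :
    ∃ (a b c : V) (L R : Finset V), Sep w S L R a b c ∧ (a ∈ N b ∨ b ∈ N a) ∧
      (a ∈ N c ∨ c ∈ N a) ∧ (b ∈ N c ∨ c ∈ N b) ∧ Even L.card ∧ 2 ≤ L.card ∧
      Odd R.card ∧ 3 ≤ R.card := by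
  have hL : ({u, u'} : Finset V) ⊆ S := by
    intro x hx
    rw [Finset.mem_insert, Finset.mem_singleton] at hx
    rcases hx with rfl | rfl
    · exact hu
    · exact hu'
  have hLc : ({u, u'} : Finset V).card = 2 := Finset.card_pair hne
  have hT : N u ⊆ S := hV.sub u hu
  have dLT : Disjoint ({u, u'} : Finset V) (N u) := by
    rw [Finset.disjoint_left]
    intro x hx hxN
    rw [Finset.mem_insert, Finset.mem_singleton] at hx
    rcases hx with h | h
    · rw [h] at hxN
      exact hin u hu hxN
    · rw [h] at hxN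
      exact hin' u hu hxN
  have hLT : ({u, u'} ∪ N u) ⊆ S := Finset.union_subset hL hT
  have hLTc : (({u, u'} : Finset V) ∪ N u).card = 5 := by
    rw [Finset.card_union_of_disjoint dLT, hLc, h3]
  have hRc : (S \ ({u, u'} ∪ N u)).card = S.card - 5 := by
    rw [Finset.card_sdiff_of_subset hLT, hLTc]
  refine E3_mk (N := N) (L := {u, u'}) (R := S \ ({u, u'} ∪ N u)) (T := N u) h3 ?_ ?_ ?_ dLT ?_ ?_
    ?_ ?_ ?_ ?_
  · intro x hx y hy hxy
    exact hV.clq u hu x hx y hy hxy
  · ext x
    simp only [Finset.mem_union, Finset.mem_sdiff]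
    constructor
    · intro hx
      by_cases h1 : x ∈ ({u, u'} : Finset V)
      · exact Or.inl (Or.inl h1)
      · by_cases h2 : x ∈ N u
        · exact Or.inr h2
        · exact Or.inl (Or.inr ⟨hx, fun h => h.elim h1 h2⟩)
    · rintro ((h | h) | h)
      · exact hL h
      · exact h.1
      · exact hT h
  · rw [Finset.disjoint_left]
    intro x hx hx'
    rw [Finset.mem_sdiff] at hx'
    exact hx'.2 (Finset.mem_union_left _ hx)
  · rw [Finset.disjoint_left]
    intro x hx hx'
    rw [Finset.mem_sdiff] at hx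
    exact hx.2 (Finset.mem_union_right _ hx')
  · intro x hx y hy
    rw [Finset.mem_sdiff] at hy
    by_contra hne0
    have hxS : x ∈ S := hL hx
    rw [Finset.mem_insert, Finset.mem_singleton] at hx
    rcases hf x hxS y hy.1 hne0 with h | h
    · rcases hx with rfl | rfl
      · exact hin y hy.1 h
      · exact hin' y hy.1 h
    · have hyN : y ∈ N u := by
        rcases hx with rfl | rfl
        · exact h
        · rw [hNN] at h; exact h
      exact hy.2 (Finset.mem_union_right _ hyN)
  · rw [hLc]; exact ⟨1, rfl⟩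
  · rw [hLc]
  · rw [hRc]
    obtain ⟨k, hk⟩ := hev
    exact ⟨k - 3, by omega⟩
  · rw [hRc]; omega

/-- Row E3. A useful 3-separation. -/
theorem exists_sep {w : V → V → ℕ} {σ : V → ℕ} {N : V → Finset V} {S : Finset V}
    (hV : Valid σ N S) (hf : Fits w N S)
    (hZ : (S.filter fun v => (N v).card ≤ 2).card ≤ 3)
    (hZ2 : ∀ v ∈ S, (N v).card ≤ 2 → ∀ a ∈ N v, (N a).card ≤ 2)
    (h10 : 10 ≤ S.card) (hev : Even S.card) :
    ∃ (a b c : V) (L R : Finset V), Sep w S L R a b c ∧ (a ∈ N b ∨ b ∈ N a) ∧
      (a ∈ N c ∨ c ∈ N a) ∧ (b ∈ N c ∨ c ∈ N b) ∧ Even L.card ∧ 2 ≤ L.card ∧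
      Odd R.card ∧ 3 ≤ R.card := by
  by_cases hA : ∃ v ∈ S, (N v).card = 3 ∧ ∃ u ∈ S, v ∈ N u
  · obtain ⟨v0, hv0, h30, u0, hu0, hvu0⟩ := hA
    obtain ⟨v, hvm, hvmin⟩ := Finset.exists_min_image
      (S.filter fun v => (N v).card = 3 ∧ ∃ u ∈ S, v ∈ N u) σ
      ⟨v0, Finset.mem_filter.2 ⟨hv0, h30, u0, hu0, hvu0⟩⟩
    rw [Finset.mem_filter] at hvm
    obtain ⟨hv, h3, u1, hu1, hvu1⟩ := hvm
    -- minimality
    have hmin : ∀ x ∈ S, σ x < σ v → (N x).card = 3 → ∀ y ∈ S, x ∉ N y := by
      intro x hx hlt hx3 y hy hxy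
      have := hvmin x (Finset.mem_filter.2 ⟨hx, hx3, y, hy, hxy⟩)
      omega
    have hin3 : ∀ u ∈ S, v ∈ N u → (N u).card = 3 := by
      intro u hu hvu
      have h1 := hV.card u hu
      by_contra hne
      have h2 : (N u).card ≤ 2 := by omega
      have := hZ2 u hu h2 v hvu
      omega
    have hinno : ∀ u ∈ S, v ∈ N u → ∀ y ∈ S, u ∉ N y := by
      intro u hu hvu
      exact hmin u hu (hV.lt u hu v hvu) (hin3 u hu hvu)
    have hNsub : ∀ u ∈ S, v ∈ N u → ∀ x ∈ N u, x ≠ v → x ∈ N v := by
      intro u hu hvu x hx hxv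
      have hxS : x ∈ S := hV.sub u hu hx
      rcases hV.clq u hu x hx v hvu hxv with h | h
      · exact h
      · exact absurd hx (hmin x hxS (hV.lt x hxS v h) (hin3 x hxS h) u hu)
    have hvN : v ∉ N v := fun h => lt_irrefl _ (hV.lt v hv v h)
    set D' := S.filter fun u => v ∈ N u with hD'
    have hvD' : v ∉ D' := by
      intro h
      exact hvN (Finset.mem_filter.1 h).2
    set D := insert v D' with hD
    have hDS : D ⊆ S := by
      intro x hx
      rw [hD, Finset.mem_insert] at hx
      rcases hx with rfl | hx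
      · exact hv
      · exact (Finset.mem_filter.1 hx).1
    have hNS : N v ⊆ S := hV.sub v hv
    have hDc : D.card = D'.card + 1 := Finset.card_insert_of_notMem hvD'
    have hD'1 : 1 ≤ D'.card := Finset.card_pos.2 ⟨u1, Finset.mem_filter.2 ⟨hu1, hvu1⟩⟩
    have dDN : Disjoint D (N v) := by
      rw [Finset.disjoint_left]
      intro x hx hxN
      rw [hD, Finset.mem_insert] at hx
      rcases hx with rfl | hx
      · exact hvN hxN
      · have h1 := hV.lt x (Finset.mem_filter.1 hx).1 v (Finset.mem_filter.1 hx).2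
        have h2 := hV.lt v hv x hxN
        omega
    have hDN : D ∪ N v ⊆ S := Finset.union_subset hDS hNS
    have hDNc : (D ∪ N v).card = D.card + 3 := by
      rw [Finset.card_union_of_disjoint dDN, h3]
    set Q := S \ (D ∪ N v) with hQ
    have hQc : Q.card + (D.card + 3) = S.card := by
      rw [hQ, Finset.card_sdiff_of_subset hDN, hDNc]
      have := Finset.card_le_card hDN
      omega
    have dDQ : Disjoint D Q := by
      rw [Finset.disjoint_left]
      intro x hx hx'
      rw [hQ, Finset.mem_sdiff] at hx'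
      exact hx'.2 (Finset.mem_union_left _ hx)
    have dQN : Disjoint Q (N v) := by
      rw [Finset.disjoint_left]
      intro x hx hx'
      rw [hQ, Finset.mem_sdiff] at hx
      exact hx.2 (Finset.mem_union_right _ hx')
    have hnoadj : ∀ x ∈ D, ∀ y ∈ Q, x ∉ N y ∧ y ∉ N x := by
      intro x hx y hy
      rw [hQ, Finset.mem_sdiff, Finset.mem_union] at hy
      obtain ⟨hyS, hy2⟩ := hy
      rw [hD, Finset.mem_insert] at hx
      rcases hx with rfl | hx
      · refine ⟨fun h => hy2 (Or.inl ?_), fun h => hy2 (Or.inr h)⟩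
        rw [hD, Finset.mem_insert]
        exact Or.inr (Finset.mem_filter.2 ⟨hyS, h⟩)
      · obtain ⟨hxS, hvx⟩ := Finset.mem_filter.1 hx
        refine ⟨hinno x hxS hvx y hyS, fun h => ?_⟩
        by_cases hyv : y = v
        · apply hy2
          left
          rw [hyv, hD]
          exact Finset.mem_insert_self _ _
        · exact hy2 (Or.inr (hNsub x hxS hvx y h hyv))
    have hun : S = D ∪ Q ∪ N v := by
      ext x
      simp only [Finset.mem_union, hQ, Finset.mem_sdiff]
      constructor
      · intro hx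
        by_cases h1 : x ∈ D
        · exact Or.inl (Or.inl h1)
        · by_cases h2 : x ∈ N v
          · exact Or.inr h2
          · exact Or.inl (Or.inr ⟨hx, fun h => h.elim h1 h2⟩)
      · rintro ((h | h) | h)
        · exact hDS h
        · exact h.1
        · exact hNS h
    by_cases hq : 2 ≤ Q.card
    · rcases Nat.even_or_odd D.card with hDe | hDo
      · have hQo : Odd Q.card := by
          obtain ⟨k, hk⟩ := hev
          obtain ⟨l, hl⟩ := hDe
          exact ⟨k - l - 2, by omega⟩
        refine E3_mk (N := N) (L := D) (R := Q) (T := N v) h3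
          (fun x hx y hy hxy => hV.clq v hv x hx y hy hxy) hun dDQ dDN dQN ?_ hDe (by omega) hQo ?_
        · intro x hx y hy
          by_contra hne0
          have hyS : y ∈ S := by rw [hQ, Finset.mem_sdiff] at hy; exact hy.1
          rcases hf x (hDS hx) y hyS hne0 with h | h
          · exact (hnoadj x hx y hy).1 h
          · exact (hnoadj x hx y hy).2 h
        · obtain ⟨k, hk⟩ := hQo
          omega
      · have hQe : Even Q.card := by
          obtain ⟨k, hk⟩ := hev
          obtain ⟨l, hl⟩ := hDo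
          exact ⟨k - l - 2, by omega⟩
        refine E3_mk (N := N) (L := Q) (R := D) (T := N v) h3
          (fun x hx y hy hxy => hV.clq v hv x hx y hy hxy) ?_ dDQ.symm dQN dDN ?_ hQe hq hDo ?_
        · rw [Finset.union_comm Q D]; exact hun
        · intro y hy x hx
          by_contra hne0
          have hyS : y ∈ S := by rw [hQ, Finset.mem_sdiff] at hy; exact hy.1
          rcases hf y hyS x (hDS hx) hne0 with h | h
          · exact (hnoadj x hx y hy).2 h
          · exact (hnoadj x hx y hy).1 h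
        · obtain ⟨k, hk⟩ := hDo
          omega
    · -- two vertices of `D'` with the same later neighbours
      have hD'5 : 5 ≤ D'.card := by omega
      have hmaps : ∀ u ∈ D', (N u).erase v ∈ (N v).powersetCard 2 := by
        intro u hu
        obtain ⟨huS, hvu⟩ := Finset.mem_filter.1 hu
        rw [Finset.mem_powersetCard]
        refine ⟨?_, ?_⟩
        · intro x hx
          rw [Finset.mem_erase] at hx
          exact hNsub u huS hvu x hx.2 hx.1
        · rw [Finset.card_erase_of_mem hvu, hin3 u huS hvu]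
      have hlt : ((N v).powersetCard 2).card < D'.card := by
        rw [Finset.card_powersetCard, h3]
        have : Nat.choose 3 2 = 3 := by decide
        omega
      obtain ⟨u, hu, u', hu', hne, heq⟩ :=
        Finset.exists_ne_map_eq_of_card_lt_of_maps_to hlt hmaps
      obtain ⟨huS, hvu⟩ := Finset.mem_filter.1 hu
      obtain ⟨huS', hvu'⟩ := Finset.mem_filter.1 hu'
      have hNN : N u' = N u := by
        rw [← Finset.insert_erase hvu, ← Finset.insert_erase hvu', heq]
      exact E3_two hV hf h10 hev huS huS' hne (hin3 u huS hvu) hNN (hinno u huS hvu)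
        (hinno u' huS' hvu')
  · -- no vertex with three later neighbours has an in-neighbour
    set Z := S.filter fun v => (N v).card ≤ 2 with hZd
    have hno : ∀ v ∈ S, (N v).card = 3 → ∀ y ∈ S, v ∉ N y := by
      intro v hv h3 y hy hvy
      exact hA ⟨v, hv, h3, y, hy, hvy⟩
    have hsub : ∀ u ∈ S, N u ⊆ Z := by
      intro u hu x hx
      have hxS := hV.sub u hu hx
      have h1 := hV.card x hxS
      have h2 : (N x).card ≠ 3 := fun h => hno x hxS h u hu hx
      exact Finset.mem_filter.2 ⟨hxS, by omega⟩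
    have hfull : ∀ u ∈ S \ Z, (N u).card = 3 ∧ N u = Z := by
      intro u hu
      rw [Finset.mem_sdiff] at hu
      have h1 := hV.card u hu.1
      have h2 : ¬ (N u).card ≤ 2 := fun h => hu.2 (Finset.mem_filter.2 ⟨hu.1, h⟩)
      have h3 : (N u).card = 3 := by omega
      exact ⟨h3, Finset.eq_of_subset_of_card_le (hsub u hu.1) (by omega)⟩
    have hZS : Z ⊆ S := Finset.filter_subset _ _
    have hc : 1 < (S \ Z).card := by
      rw [Finset.card_sdiff_of_subset hZS]
      omega
    obtain ⟨u, hu, u', hu', hne⟩ := Finset.one_lt_card.1 hc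
    have h1 := hfull u hu
    have h2 := hfull u' hu'
    rw [Finset.mem_sdiff] at hu hu'
    exact E3_two hV hf h10 hev hu.1 hu'.1 hne h1.1 (h2.2.trans h1.2.symm)
      (hno u hu.1 h1.1) (hno u' hu'.1 h2.1)

end RG3
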