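import Pool.Agent.Lib.MP_78ca69_co.R3.Skel
set_option autoImplicit false
set_option linter.unusedSectionVars false

namespace RG3

open Finset

variable {V : Type*} [Fintype V] [DecidableEq V]

private theorem E4_abc {N : V → Finset V} {a b c : V} (hab : a ∈ N b ∨ b ∈ N a)
    (hac : a ∈ N c ∨ c ∈ N a) (hbc : b ∈ N c ∨ c ∈ N b) {x y : V}
    (hx : x ∈ ({a, b, c} : Finset V)) (hy : y ∈ ({a, b, c} : Finset V)) (hxy : x ≠ y) :
    x ∈ N y ∨ y ∈ N x := by
  simp only [mem_insert, mem_singleton] at hx hy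
  rcases hx with rfl | rfl | rfl <;> rcases hy with rfl | rfl | rfl <;>
    first
    | exact absurd rfl hxy
    | assumption
    | exact Or.symm ‹_›

private theorem E4_ed {p q x y : V} {k : ℕ} (h : ed p q k x y ≠ 0) :
    (x = p ∧ y = q) ∨ (x = q ∧ y = p) := by
  by_contra hn
  apply h
  unfold ed
  rw [if_neg hn]

theorem EO_G2 {w : V → V → ℕ} {σ : V → ℕ} {N : V → Finset V} {S L R : Finset V} {a b c : V}
    (hV : Valid σ N S) (hf : Fits w N S) (hs : Sep w S L R a b c) (hab : a ∈ N b ∨ b ∈ N a)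
    (hac : a ∈ N c ∨ c ∈ N a) (hbc : b ∈ N c ∨ c ∈ N b) (n₁ n₂ n₃ : ℕ) :
    EO (G2 w L a b c n₁ n₂ n₃) (R ∪ {a, b, c}) := by
  have hsub : R ∪ {a, b, c} ⊆ S := by
    rw [hs.un]
    intro x hx
    rcases mem_union.1 hx with h | h
    · exact mem_union_left _ (mem_union_right _ h)
    · exact mem_union_right _ h
  refine ⟨σ, fun v => N v ∩ (R ∪ {a, b, c}), ⟨?_, ?_, ?_, ?_, ?_⟩, ?_⟩
  · exact fun u hu v hv h => hV.inj u (hsub hu) v (hsub hv) h
  · exact fun v _ => inter_subset_right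
  · exact fun v hv => (card_le_card inter_subset_left).trans (hV.card v (hsub hv))
  · exact fun v hv u hu => hV.lt v (hsub hv) u (mem_inter.1 hu).1
  · intro v hv x hx y hy hxy
    obtain ⟨h1, h2⟩ := mem_inter.1 hx
    obtain ⟨h3, h4⟩ := mem_inter.1 hy
    rcases hV.clq v (hsub hv) x h1 y h3 hxy with h | h
    · exact Or.inl (mem_inter.2 ⟨h, h2⟩)
    · exact Or.inr (mem_inter.2 ⟨h, h4⟩)
  · intro x hx y hy h
    have key : x ∈ N y ∨ y ∈ N x := by
      by_cases hw : wR w L x y = 0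
      · have h3 : ed b c n₁ x y ≠ 0 ∨ ed a c n₂ x y ≠ 0 ∨ ed a b n₃ x y ≠ 0 := by
          by_contra hn
          push Not at hn
          obtain ⟨e1, e2, e3⟩ := hn
          apply h
          unfold G2
          rw [hw, e1, e2, e3]
        rcases h3 with h3 | h3 | h3 <;> rcases E4_ed h3 with ⟨rfl, rfl⟩ | ⟨rfl, rfl⟩ <;>
          first
          | assumption
          | exact Or.symm ‹_›
      · apply hf x (hsub hx) y (hsub hy)
        intro h0
        apply hw
        unfold wR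
        rw [h0, ite_self]
    rcases key with h1 | h1
    · exact Or.inl (mem_inter.2 ⟨h1, hx⟩)
    · exact Or.inr (mem_inter.2 ⟨h1, hy⟩)

theorem EO_G1 {w : V → V → ℕ} {σ : V → ℕ} {N : V → Finset V} {S L R : Finset V} {a b c z : V}
    (hV : Valid σ N S) (hf : Fits w N S) (hs : Sep w S L R a b c)
    (hsym : ∀ x y, w x y = w y x) (hab : a ∈ N b ∨ b ∈ N a)
    (hac : a ∈ N c ∨ c ∈ N a) (hbc : b ∈ N c ∨ c ∈ N b) (hz : z ∈ R) (s₁ s₂ s₃ t₁ t₂ t₃ : ℕ) :
    EO (G1 w L z a b c s₁ s₂ s₃ t₁ t₂ t₃) (L ∪ {a, b, c, z}) := by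
  have hzL : z ∉ L := fun h => disjoint_left.1 hs.dLR h hz
  have hza : a ≠ z := fun h => hs.aR (h ▸ hz)
  have hzb : b ≠ z := fun h => hs.bR (h ▸ hz)
  have hzc : c ≠ z := fun h => hs.cR (h ▸ hz)
  have hTz : z ∉ L ∪ {a, b, c} := by
    simp only [mem_union, mem_insert, mem_singleton, not_or]
    exact ⟨hzL, hza.symm, hzb.symm, hzc.symm⟩
  have hsub : L ∪ {a, b, c} ⊆ S := by
    rw [hs.un]
    intro x hx
    rcases mem_union.1 hx with h | h
    · exact mem_union_left _ (mem_union_left _ h)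
    · exact mem_union_right _ h
  have hmem : ∀ {x}, x ∈ L ∪ {a, b, c, z} → x ≠ z → x ∈ L ∪ {a, b, c} := by
    intro x hx hxz
    simp only [mem_union, mem_insert, mem_singleton] at hx ⊢
    tauto
  have habc : ({a, b, c} : Finset V) ⊆ L ∪ {a, b, c} := subset_union_right
  have hT : L ∪ {a, b, c} ⊆ L ∪ {a, b, c, z} := by
    intro x hx
    simp only [mem_union, mem_insert, mem_singleton] at hx ⊢
    tauto
  have hne : ∀ {x}, x ∈ L ∪ {a, b, c} → x ≠ z := fun {x} hx h => hTz (h ▸ hx)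
  refine ⟨fun v => if v = z then 0 else σ v + 1,
    fun v => if v = z then {a, b, c} else N v ∩ (L ∪ {a, b, c}), ⟨?_, ?_, ?_, ?_, ?_⟩, ?_⟩
  · intro u hu v hv h
    by_cases h1 : u = z
    · by_cases h2 : v = z
      · rw [h1, h2]
      · simp only [h1, h2, if_true, if_false] at h
        omega
    · by_cases h2 : v = z
      · simp only [h1, h2, if_true, if_false] at h
        omega
      · simp only [h1, h2, if_false] at h
        exact hV.inj u (hsub (hmem hu h1)) v (hsub (hmem hv h2)) (by omega)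
  · intro v _
    split_ifs
    · exact habc.trans hT
    · exact inter_subset_right.trans hT
  · intro v hv
    split_ifs with h
    · exact card_le_three
    · exact (card_le_card inter_subset_left).trans (hV.card v (hsub (hmem hv h)))
  · intro v hv u hu
    by_cases h : v = z
    · rw [if_pos h] at hu ⊢
      have h1 : u ≠ z := hne (habc hu)
      rw [if_neg h1]
      omega
    · rw [if_neg h] at hu ⊢
      obtain ⟨h1, h2⟩ := mem_inter.1 hu
      rw [if_neg (hne h2)]
      have := hV.lt v (hsub (hmem hv h)) u h1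
      omega
  · intro v hv x hx y hy hxy
    by_cases h : v = z
    · rw [if_pos h] at hx hy
      have hx' := habc hx
      have hy' := habc hy
      rw [if_neg (hne hx'), if_neg (hne hy')]
      rcases E4_abc hab hac hbc hx hy hxy with h1 | h1
      · exact Or.inl (mem_inter.2 ⟨h1, hx'⟩)
      · exact Or.inr (mem_inter.2 ⟨h1, hy'⟩)
    · rw [if_neg h] at hx hy
      obtain ⟨h1, h2⟩ := mem_inter.1 hx
      obtain ⟨h3, h4⟩ := mem_inter.1 hy
      rw [if_neg (hne h2), if_neg (hne h4)]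
      rcases hV.clq v (hsub (hmem hv h)) x h1 y h3 hxy with h5 | h5
      · exact Or.inl (mem_inter.2 ⟨h5, h2⟩)
      · exact Or.inr (mem_inter.2 ⟨h5, h4⟩)
  · have key : ∀ x ∈ L ∪ {a, b, c, z}, ∀ y ∈ L ∪ {a, b, c, z}, y ≠ z →
        (x ≠ z → w x y ≠ 0 → x ∈ N y ∨ y ∈ N x) → G1 w L z a b c s₁ s₂ s₃ t₁ t₂ t₃ x y ≠ 0 →
        x ≠ z → x ∈ N y ∨ y ∈ N x := by
      intro x hx y hy hyz hw h hxz
      by_cases h0 : w x y = 0
      · have h3 : ed b c s₁ x y ≠ 0 ∨ ed a c s₂ x y ≠ 0 ∨ ed a b s₃ x y ≠ 0 ∨ ed z a t₁ x y ≠ 0 ∨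
            ed z b t₂ x y ≠ 0 ∨ ed z c t₃ x y ≠ 0 := by
          by_contra hn
          push Not at hn
          obtain ⟨e1, e2, e3, e4, e5, e6⟩ := hn
          apply h
          unfold G1 wL
          rw [h0, e1, e2, e3, e4, e5, e6, ite_self]
        rcases h3 with h3 | h3 | h3 | h3 | h3 | h3 <;> rcases E4_ed h3 with ⟨h5, h6⟩ | ⟨h5, h6⟩ <;>
          first
          | exact absurd h5 hxz
          | exact absurd h6 hyz
          | (rw [h5, h6]; assumption)
          | (rw [h5, h6]; exact Or.symm ‹_›)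
      · exact hw hxz h0
    have keyz : ∀ y ∈ L ∪ {a, b, c, z}, y ≠ z → (w z y = 0 ∨ y ∉ L) →
        G1 w L z a b c s₁ s₂ s₃ t₁ t₂ t₃ z y ≠ 0 → y ∈ ({a, b, c} : Finset V) := by
      intro y hy hyz hw h
      have h0 : wL w L z y = 0 := by
        unfold wL
        rcases hw with h1 | h1
        · rw [h1, ite_self]
        · rw [if_neg]
          rintro (h2 | h2)
          · exact hzL h2
          · exact h1 h2
      have h3 : ed b c s₁ z y ≠ 0 ∨ ed a c s₂ z y ≠ 0 ∨ ed a b s₃ z y ≠ 0 ∨ ed z a t₁ z y ≠ 0 ∨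
          ed z b t₂ z y ≠ 0 ∨ ed z c t₃ z y ≠ 0 := by
        by_contra hn
        push Not at hn
        obtain ⟨e1, e2, e3, e4, e5, e6⟩ := hn
        apply h
        unfold G1
        rw [h0, e1, e2, e3, e4, e5, e6]
      simp only [mem_insert, mem_singleton]
      rcases h3 with h3 | h3 | h3 | h3 | h3 | h3 <;> rcases E4_ed h3 with ⟨h5, h6⟩ | ⟨h5, h6⟩ <;>
        tauto
    have hno : ∀ y ∈ L ∪ {a, b, c, z}, w z y = 0 ∨ y ∉ L := by
      intro y _
      by_cases hy : y ∈ L
      · exact Or.inl (by rw [hsym]; exact hs.no y hy z hz)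
      · exact Or.inr hy
    have hGs : ∀ x y, G1 w L z a b c s₁ s₂ s₃ t₁ t₂ t₃ x y =
        G1 w L z a b c s₁ s₂ s₃ t₁ t₂ t₃ y x := by
      intro x y
      unfold G1 wL
      rw [hsym x y, ed_symm b c, ed_symm a c, ed_symm a b, ed_symm z a, ed_symm z b, ed_symm z c]
      simp only [or_comm]
    intro x hx y hy h
    show x ∈ (if y = z then {a, b, c} else N y ∩ (L ∪ {a, b, c})) ∨
      y ∈ (if x = z then {a, b, c} else N x ∩ (L ∪ {a, b, c}))
    by_cases hxz : x = z
    · by_cases hyz : y = z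
      · exfalso
        apply h
        rw [hxz, hyz]
        unfold G1 wL ed
        simp [hzL, hza.symm, hzb.symm, hzc.symm]
      · right
        rw [if_pos hxz]
        rw [hxz] at h
        exact keyz y hy hyz (hno y hy) h
    · by_cases hyz : y = z
      · left
        rw [if_pos hyz]
        rw [hyz, hGs] at h
        exact keyz x hx hxz (hno x hx) h
      · rw [if_neg hxz, if_neg hyz]
        have h1 := hmem hx hxz
        have h2 := hmem hy hyz
        rcases key x hx y hy hyz (fun _ h0 => hf x (hsub h1) y (hsub h2) h0) h hxz with h3 | h3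
        · exact Or.inl (mem_inter.2 ⟨h3, h1⟩)
        · exact Or.inr (mem_inter.2 ⟨h3, h2⟩)

end RG3
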