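import Pool.Agent.Lib.MP_78ca69_co.R3.Skel

set_option autoImplicit false
set_option linter.unusedSectionVars false

namespace RG3

open Finset

variable {V : Type*} [Fintype V] [DecidableEq V]

/-- `w` is `r`-edge-connected on `S` -/
def EC (w : V → V → ℕ) (S : Finset V) (r : ℕ) : Prop :=
  ∀ X ⊆ S, X.Nonempty → X ≠ S → r ≤ cut w X

end RG3
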