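import Pool.Agent.Lib.MP_78ca69_co.R3.T1
set_option autoImplicit false
set_option linter.unusedSectionVars false

namespace RG3

open Finset

variable {V : Type*} [Fintype V] [DecidableEq V]

private theorem T2_sigma (d : V → ℕ) :
    ∃ σ : V → ℕ, Function.Injective σ ∧ ∀ u v, d u < d v → σ v < σ u := by
  have hle : ∀ v, d v ≤ ∑ x, d x := fun v =>
    Finset.single_le_sum (f := d) (fun _ _ => Nat.zero_le _) (Finset.mem_univ v)
  have hlt : ∀ v, (Fintype.equivFin V v : ℕ) < Fintype.card V := fun v =>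
    (Fintype.equivFin V v).2
  refine ⟨fun v => (∑ x, d x - d v) * Fintype.card V + (Fintype.equivFin V v : ℕ), ?_, ?_⟩
  · intro u v huv
    have h1 : ((∑ x, d x - d u) * Fintype.card V + (Fintype.equivFin V u : ℕ)) %
        Fintype.card V = ((∑ x, d x - d v) * Fintype.card V + (Fintype.equivFin V v : ℕ)) %
        Fintype.card V := congrArg (fun n => n % Fintype.card V) huv
    rw [Nat.mul_add_mod', Nat.mul_add_mod', Nat.mod_eq_of_lt (hlt u),
      Nat.mod_eq_of_lt (hlt v)] at h1
    exact (Fintype.equivFin V).injective (Fin.ext h1)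
  · intro u v huv
    have h1 := hle v
    have h2 : ∑ x, d x - d v + 1 ≤ ∑ x, d x - d u := by omega
    have h3 := Nat.mul_le_mul_right (Fintype.card V) h2
    rw [Nat.add_mul, Nat.one_mul] at h3
    have h4 := hlt v
    show (∑ x, d x - d v) * Fintype.card V + (Fintype.equivFin V v : ℕ) <
      (∑ x, d x - d u) * Fintype.card V + (Fintype.equivFin V u : ℕ)
    omega

theorem EO_of_tree {ι : Type*} (T : SimpleGraph ι) (bag : ι → Finset V) (hT : T.IsTree)
    (hconn : ∀ v, (T.induce {i | v ∈ bag i}).Connected) (hcard : ∀ i, (bag i).card ≤ 4) :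
    ∃ (σ : V → ℕ) (N : V → Finset V), Valid σ N univ ∧
      ∀ x y i, x ∈ bag i → y ∈ bag i → x ≠ y → x ∈ N y ∨ y ∈ N x := by
  classical
  obtain ⟨dep, par, hpar⟩ := tree_par T hT
  have hne : ∀ v, ∃ p, v ∈ bag p ∧ ∀ j, v ∈ bag j → dep p ≤ dep j := by
    intro v
    obtain ⟨i⟩ := (hconn v).nonempty
    have h1 : ∃ n, ∃ p, v ∈ bag p ∧ dep p = n := ⟨_, i.1, i.2, rfl⟩
    obtain ⟨p, hp, hp'⟩ := Nat.find_spec h1
    refine ⟨p, hp, fun j hj => ?_⟩
    rw [hp']
    exact Nat.find_min' h1 ⟨j, hj, rfl⟩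
  choose top htop hmin using hne
  have hp : ∀ v i, v ∈ bag i → i ≠ top v → v ∈ bag (par i) ∧ dep (par i) < dep i :=
    fun v i hi hne => hpar {i | v ∈ bag i} (hconn v) (top v) (htop v) (hmin v) i hi hne
  have key : ∀ (n : ℕ) (u v : V) (i : ι), dep i = n → u ∈ bag i → v ∈ bag i →
      dep (top u) ≤ dep (top v) → u ∈ bag (top v) := by
    intro n
    induction n using Nat.strong_induction_on with
    | _ n ih =>
      intro u v i hn hu hv huv
      by_cases h1 : i = top v
      · rw [← h1]; exact hu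
      · obtain ⟨h2, h3⟩ := hp v i hv h1
        by_cases h4 : i = top u
        · have h5 := hmin v _ h2
          rw [h4] at h3
          rw [h4] at h5
          omega
        · obtain ⟨h5, -⟩ := hp u i hu h4
          exact ih (dep (par i)) (by omega) u v (par i) rfl h5 h2 huv
  obtain ⟨σ, hσ, hσd⟩ := T2_sigma (fun v => dep (top v))
  obtain ⟨N, hN⟩ : ∃ N : V → Finset V,
      N = fun v => univ.filter fun u => σ v < σ u ∧ ∃ i, u ∈ bag i ∧ v ∈ bag i := ⟨_, rfl⟩
  have hmem : ∀ u v, u ∈ N v ↔ σ v < σ u ∧ ∃ i, u ∈ bag i ∧ v ∈ bag i := by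
    intro u v
    rw [hN, Finset.mem_filter]
    exact ⟨fun h => h.2, fun h => ⟨Finset.mem_univ _, h⟩⟩
  have hin : ∀ u v, u ∈ N v → u ∈ bag (top v) := by
    intro u v huv
    obtain ⟨h1, i, h2, h3⟩ := (hmem u v).1 huv
    refine key (dep i) u v i rfl h2 h3 ?_
    by_contra hc
    push Not at hc
    have := hσd v u hc
    omega
  have hedge : ∀ x y i, x ∈ bag i → y ∈ bag i → x ≠ y → x ∈ N y ∨ y ∈ N x := by
    intro x y i hx hy hxy
    have h1 : σ x ≠ σ y := fun h => hxy (hσ h)
    rcases lt_or_gt_of_ne h1 with h2 | h2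
    · exact Or.inr ((hmem y x).2 ⟨h2, i, hy, hx⟩)
    · exact Or.inl ((hmem x y).2 ⟨h2, i, hx, hy⟩)
  refine ⟨σ, N, ⟨fun u _ v _ h => hσ h, fun v _ => Finset.subset_univ _, ?_, ?_, ?_⟩, hedge⟩
  · intro v _
    have h1 : N v ⊆ (bag (top v)).erase v := by
      intro u hu
      refine Finset.mem_erase.2 ⟨?_, hin u v hu⟩
      intro h
      have := ((hmem u v).1 hu).1
      rw [h] at this
      exact lt_irrefl _ this
    have h2 := Finset.card_le_card h1
    rw [Finset.card_erase_of_mem (htop v)] at h2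
    have h3 := hcard (top v)
    omega
  · intro v _ u hu
    exact ((hmem u v).1 hu).1
  · intro v _ a ha b hb hab
    exact hedge a b (top v) (hin a v ha) (hin b v hb) hab

end RG3
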