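import Pool.Agent.Lib.MP_78ca69_co.R3.Main1
import Pool.Agent.Lib.MP_78ca69_co.R3.T2
import Pool.Agent.Lib.MP_78ca69_co.R3.X2

set_option autoImplicit false
set_option linter.unusedSectionVars false

namespace RG3

open Finset

/-- The multigraph with vertex set `V`, edge set `E` and ends `ends` has tree-width at most `k`: there is a
tree-decomposition (a tree `T`, a bag of vertices for every node of `T`, the nodes whose bags contain a
given vertex induce a non-empty connected subgraph of `T`, every edge has both ends in some bag) all of whose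
bags have at most `k + 1` vertices. -/
def TreewidthLE {V E : Type} (ends : E → Sym2 V) (k : ℕ) : Prop :=
  ∃ (ι : Type) (T : SimpleGraph ι) (bag : ι → Finset V), T.IsTree ∧
    (∀ i, (bag i).card ≤ k + 1) ∧ (∀ v, (T.induce {i | v ∈ bag i}).Connected) ∧
    ∀ e, ∃ i, ∀ v ∈ ends e, v ∈ bag i

section

variable {V E : Type} [Fintype V] [DecidableEq V] [Fintype E]

theorem mult_symm (ends : E → Sym2 V) (x y : V) : mult ends x y = mult ends y x := by
  unfold mult
  rw [Sym2.eq_swap]

theorem mult_RG (ends : E → Sym2 V) (hl : ∀ e, ¬ (ends e).IsDiag) (r : ℕ)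
    (hdeg : ∀ v, (univ.filter fun e => v ∈ ends e).card = r)
    (hcut : ∀ X : Finset V, Odd X.card →
      r ≤ (univ.filter fun e => ∃ u ∈ X, ∃ v ∉ X, ends e = s(u, v)).card) :
    RG (mult ends) univ r where
  symm := mult_symm ends
  irr := by
    intro x
    unfold mult
    rw [Finset.card_eq_zero, Finset.filter_eq_empty_iff]
    intro e _ he
    exact hl e (by rw [he]; simp)
  supp := fun x _ _ => Finset.mem_univ x
  deg := fun v _ => by rw [mult_deg ends hl v, hdeg v]
  odd := fun X _ hX => by rw [mult_cut ends hl X]; exact hcut X hX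

theorem mult_EO (ends : E → Sym2 V) (hl : ∀ e, ¬ (ends e).IsDiag) (htw : TreewidthLE ends 3) :
    EO (mult ends) univ := by
  obtain ⟨ι, T, bag, hT, hcard, hconn, hedge⟩ := htw
  obtain ⟨σ, N, hV, hN⟩ := EO_of_tree T bag hT hconn hcard
  refine ⟨σ, N, hV, ?_⟩
  intro x _ y _ hxy
  unfold mult at hxy
  rw [Finset.card_ne_zero] at hxy
  obtain ⟨e, he⟩ := hxy
  rw [Finset.mem_filter] at he
  obtain ⟨i, hi⟩ := hedge e
  refine hN x y i (hi x (by rw [he.2]; exact Sym2.mem_mk_left x y))
    (hi y (by rw [he.2]; exact Sym2.mem_mk_right x y)) ?_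
  rintro rfl
  exact hl e (by rw [he.2]; simp)

/-- The edges of an `r`-graph of tree-width at most 3 are partitioned into `r` perfect matchings. -/
theorem main_edges [DecidableEq E] (ends : E → Sym2 V) (hl : ∀ e, ¬ (ends e).IsDiag) (r : ℕ)
    (hdeg : ∀ v, (univ.filter fun e => v ∈ ends e).card = r)
    (hcut : ∀ X : Finset V, Odd X.card →
      r ≤ (univ.filter fun e => ∃ u ∈ X, ∃ v ∉ X, ends e = s(u, v)).card)
    (htw : TreewidthLE ends 3) :
    ∃ M : Fin r → Finset E, (∀ i, ∀ v : V, ∃! e, e ∈ M i ∧ v ∈ ends e) ∧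
      ∀ e, (univ.filter fun i => e ∈ M i).card = 1 := by
  have h := dec_of_EO _ (mult ends) univ r rfl (mult_RG ends hl r hdeg hcut) (mult_EO ends hl htw)
  refine edges_of_dec ends hl 1 r ?_
  simpa using h

end

end RG3
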