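import Pool.Agent.Lib.MP_78ca69_co.R3.F1
set_option autoImplicit false
set_option linter.unusedSectionVars false

namespace RG3

open Finset

variable {V : Type*} [Fintype V] [DecidableEq V]

/-! ### Row G -/

private theorem G_fin (l l' : Fin 3) (h : l ≠ l') :
    ∃ k : Fin 3, (l = k + 1 ∧ l' = k + 2) ∨ (l = k + 2 ∧ l' = k + 1) := by
  revert l l'
  decide

private theorem G_fin2 (k l : Fin 3) (h : l ≠ k) : l = k + 1 ∨ l = k + 2 := by
  revert k l
  decide

private theorem G_fin4 (k l l' l'' : Fin 3) (h1 : l ≠ k) (h2 : l' ≠ k) (h3 : l ≠ l')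
    (h4 : l'' ≠ l') (h5 : l'' ≠ k) : l'' = l := by
  revert k l l' l''
  decide

private theorem G_fin3 (k : Fin 3) : k + 1 ≠ k ∧ k + 2 ≠ k ∧ k + 1 ≠ k + 2 := by
  revert k
  decide

private theorem G_one {V : Type*} [DecidableEq V] {L R : Finset V} {e : Fin 3 → V} {z : V}
    (heR : ∀ l, e l ∉ R) (einj : ∀ l l', e l = e l' → l = l') (g h : V → V) (κ : Option (Fin 3)) (gz : g z ∉ L)
    (hg : ∀ v, (v ∈ L ∨ (∃ l, v = e l) ∨ v = z) →
      (g v ∈ L ∨ (∃ l, g v = e l) ∨ g v = z) ∧ g (g v) = v ∧ g v ≠ v)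
    (hh : ∀ v, (v ∈ R ∨ ∃ l, v = e l) → (h v ∈ R ∨ ∃ l, h v = e l) ∧ h (h v) = v ∧ h v ≠ v)
    (c1 : ∀ l, g (e l) ∈ L ↔ ∃ k, κ = some k ∧ l ≠ k)
    (c2 : ∀ k, κ = some k → ∀ l, l ≠ k → ∃ l', l' ≠ k ∧ l' ≠ l ∧ h (e l) = e l')
    (F : V → V) (hF1 : ∀ v ∈ L, F v = g v) (hF2 : ∀ l, g (e l) ∈ L → F (e l) = g (e l))
    (hF3 : ∀ l, g (e l) ∉ L → F (e l) = h (e l)) (hF4 : ∀ v ∈ R, F v = h v) :
    ∀ v, (v ∈ L ∨ v ∈ R ∨ ∃ l, v = e l) →
      (F v ∈ L ∨ F v ∈ R ∨ ∃ l, F v = e l) ∧ F (F v) = v ∧ F v ≠ v := by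
  have key : ∀ v l, (v ∈ R ∨ ∃ m, v = e m ∧ g (e m) ∉ L) → h v = e l → g (e l) ∉ L := by
    intro v l hv hvl hgl
    obtain ⟨k, hk, hlk⟩ := (c1 l).1 hgl
    obtain ⟨l', h1, h2, h3⟩ := c2 k hk l hlk
    have hv' : v ∈ R ∨ ∃ m, v = e m := by
      rcases hv with hv | ⟨m, hm, _⟩
      · exact Or.inl hv
      · exact Or.inr ⟨m, hm⟩
    have h4 := (hh v hv').2.1
    rw [hvl, h3] at h4
    rcases hv with hv | ⟨m, hm, hm2⟩
    · rw [← h4] at hv
      exact heR l' hv
    · rw [hm] at h4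
      have h5 := einj _ _ h4
      rw [← h5] at hm2
      exact hm2 ((c1 l').2 ⟨k, hk, h1⟩)
  intro v hv
  rcases hv with hv | hv | ⟨l, rfl⟩
  · obtain ⟨h1, h2, h3⟩ := hg v (Or.inl hv)
    rw [hF1 v hv]
    rcases h1 with h1 | ⟨l, hl⟩ | h1
    · exact ⟨Or.inl h1, by rw [hF1 _ h1]; exact h2, h3⟩
    · refine ⟨Or.inr (Or.inr ⟨l, hl⟩), ?_, h3⟩
      rw [hl] at h2 ⊢
      rw [hF2 l (by rw [h2]; exact hv)]
      exact h2
    · rw [h1] at h2
      exact absurd (by rw [h2]; exact hv) gz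
  · obtain ⟨h1, h2, h3⟩ := hh v (Or.inl hv)
    rw [hF4 v hv]
    rcases h1 with h1 | ⟨l, hl⟩
    · exact ⟨Or.inr (Or.inl h1), by rw [hF4 _ h1]; exact h2, h3⟩
    · refine ⟨Or.inr (Or.inr ⟨l, hl⟩), ?_, h3⟩
      have h5 := key v l (Or.inl hv) hl
      rw [hl] at h2 ⊢
      rw [hF3 l h5]
      exact h2
  · by_cases hl : g (e l) ∈ L
    · obtain ⟨h1, h2, h3⟩ := hg (e l) (Or.inr (Or.inl ⟨l, rfl⟩))
      rw [hF2 l hl]
      exact ⟨Or.inl hl, by rw [hF1 _ hl]; exact h2, h3⟩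
    · obtain ⟨h1, h2, h3⟩ := hh (e l) (Or.inr ⟨l, rfl⟩)
      rw [hF3 l hl]
      rcases h1 with h1 | ⟨l', hl'⟩
      · exact ⟨Or.inr (Or.inl h1), by rw [hF4 _ h1]; exact h2, h3⟩
      · refine ⟨Or.inr (Or.inr ⟨l', hl'⟩), ?_, h3⟩
        have h5 := key (e l) l' (Or.inr ⟨l, rfl, hl⟩) hl'
        rw [hl'] at h2 ⊢
        rw [hF3 l' h5]
        exact h2

private theorem G_ed_zero (p q : V) (k : ℕ) {x y : V} (h1 : x ≠ p) (h2 : x ≠ q) :
    ed p q k x y = 0 := by
  unfold ed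
  rw [if_neg]
  rintro (⟨h, _⟩ | ⟨h, _⟩)
  · exact h1 h
  · exact h2 h

private theorem G_G1 {w : V → V → ℕ} {S L R : Finset V} {a b c z : V}
    (hs : Sep w S L R a b c) (hz : z ∈ R) (s₁ s₂ s₃ t₁ t₂ t₃ : ℕ) {u : V} (v : V) (hu : u ∈ L) :
    G1 w L z a b c s₁ s₂ s₃ t₁ t₂ t₃ u v = w u v := by
  have h1 : u ≠ a := fun h => hs.aL (h ▸ hu)
  have h2 : u ≠ b := fun h => hs.bL (h ▸ hu)
  have h3 : u ≠ c := fun h => hs.cL (h ▸ hu)
  have h4 : u ≠ z := fun h => Finset.disjoint_left.1 hs.dLR hu (h ▸ hz)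
  unfold G1 wL
  rw [G_ed_zero b c s₁ h2 h3, G_ed_zero a c s₂ h1 h3, G_ed_zero a b s₃ h1 h2,
    G_ed_zero z a t₁ h4 h1, G_ed_zero z b t₂ h4 h2, G_ed_zero z c t₃ h4 h3,
    if_pos (Or.inl hu)]
  simp only [add_zero]

private theorem G_G2 {w : V → V → ℕ} {S L R : Finset V} {a b c : V}
    (hs : Sep w S L R a b c) (n₁ n₂ n₃ : ℕ) {u v : V} (hu : u ∈ R) (hv : v ∉ L) :
    G2 w L a b c n₁ n₂ n₃ u v = w u v := by
  have h1 : u ≠ a := fun h => hs.aR (h ▸ hu)
  have h2 : u ≠ b := fun h => hs.bR (h ▸ hu)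
  have h3 : u ≠ c := fun h => hs.cR (h ▸ hu)
  have h4 : u ∉ L := fun h => Finset.disjoint_left.1 hs.dLR h hu
  unfold G2 wR
  rw [G_ed_zero b c n₁ h2 h3, G_ed_zero a c n₂ h1 h3, G_ed_zero a b n₃ h1 h2,
    if_neg (by rintro (h | h); exacts [h4 h, hv h])]
  simp only [add_zero]

private theorem G_G1_symm {w : V → V → ℕ} (symm : ∀ x y, w x y = w y x) (L : Finset V)
    (z a b c : V) (s₁ s₂ s₃ t₁ t₂ t₃ : ℕ) (x y : V) :
    G1 w L z a b c s₁ s₂ s₃ t₁ t₂ t₃ x y = G1 w L z a b c s₁ s₂ s₃ t₁ t₂ t₃ y x := by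
  unfold G1 wL
  rw [ed_symm b c s₁ x y, ed_symm a c s₂ x y, ed_symm a b s₃ x y, ed_symm z a t₁ x y,
    ed_symm z b t₂ x y, ed_symm z c t₃ x y, symm x y]
  simp only [or_comm]

private theorem G_abc {w : V → V → ℕ} {S L R : Finset V} {a b c : V}
    (hs : Sep w S L R a b c) (n₁ n₂ n₃ : ℕ) (k : Fin 3) :
    G2 w L a b c n₁ n₂ n₃ ((![a, b, c] : Fin 3 → V) (k + 1)) ((![a, b, c] : Fin 3 → V) (k + 2)) =
      w ((![a, b, c] : Fin 3 → V) (k + 1)) ((![a, b, c] : Fin 3 → V) (k + 2)) +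
        (![n₁, n₂, n₃] : Fin 3 → ℕ) k := by
  have h1 := hs.ab
  have h2 := hs.ac
  have h3 := hs.bc
  have h1' := hs.ab.symm
  have h2' := hs.ac.symm
  have h3' := hs.bc.symm
  have k1 := hs.aL
  have k2 := hs.bL
  have k3 := hs.cL
  fin_cases k
  · show G2 w L a b c n₁ n₂ n₃ b c = w b c + n₁
    unfold G2 wR ed
    simp [h1, h2, h3, h1', h2', h3', k1, k2, k3]
  · show G2 w L a b c n₁ n₂ n₃ c a = w c a + n₂
    unfold G2 wR ed
    simp [h1, h2, h3, h1', h2', h3', k1, k2, k3]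
  · show G2 w L a b c n₁ n₂ n₃ a b = w a b + n₃
    unfold G2 wR ed
    simp [h1, h2, h3, h1', h2', h3', k1, k2, k3]

private theorem G_solve (m n : Fin 3 → ℕ)
    (h : ∀ l, m (l + 1) + m (l + 2) = n (l + 1) + n (l + 2)) : m = n := by
  have h0 := h 0
  have h1 := h 1
  have h2 := h 2
  have e1 : (0 : Fin 3) + 1 = 1 := rfl
  have e2 : (0 : Fin 3) + 2 = 2 := rfl
  have e3 : (1 : Fin 3) + 1 = 2 := rfl
  have e4 : (1 : Fin 3) + 2 = 0 := rfl
  have e5 : (2 : Fin 3) + 1 = 0 := rfl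
  have e6 : (2 : Fin 3) + 2 = 1 := rfl
  rw [e1, e2] at h0
  rw [e3, e4] at h1
  rw [e5, e6] at h2
  funext k
  fin_cases k
  · show m 0 = n 0
    omega
  · show m 1 = n 1
    omega
  · show m 2 = n 2
    omega

private theorem G_none {r : ℕ} (c₁ c₂ : Fin r → Option (Fin 3))
    (h : ∀ k, (univ.filter fun i => c₁ i = some k).card = (univ.filter fun i => c₂ i = some k).card) :
    ∀ o, (univ.filter fun i => c₁ i = o).card = (univ.filter fun i => c₂ i = o).card := by
  have key : ∀ c₀ : Fin r → Option (Fin 3), r = (univ.filter fun i => c₀ i = none).card +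
      ∑ k, (univ.filter fun i => c₀ i = some k).card := by
    intro c₀
    have h1 := Finset.card_eq_sum_card_fiberwise (f := c₀) (s := (univ : Finset (Fin r)))
      (t := (univ : Finset (Option (Fin 3)))) (fun _ _ => Finset.mem_coe.2 (Finset.mem_univ _))
    rw [Finset.card_univ, Fintype.card_fin, Fintype.sum_option] at h1
    exact h1
  intro o
  cases o with
  | none =>
    have h1 := key c₁
    have h2 := key c₂
    rw [Finset.sum_congr rfl fun k _ => h k] at h1
    omega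
  | some k => exact h k

/-- Row G. Gluing at a 3-separation. Let `f1`, `f2` be the two families. For `f1`: the vertex `z` is
matched to one of `a, b, c`, and the other two are matched to each other or both into `L`. So
`V1 j = {x ∈ {a,b,c} | f1 j x ∈ L}` is empty or has two elements, and since
`#{j | f1 j a ∈ L} = ∑ y ∈ L, w a y = n₂ + n₃` etc. the numbers of `j` with `V1 j = {b,c}`, `{a,c}`,
`{a,b}` are `n₁`, `n₂`, `n₃`. For `f2`: `#{i | f2 i b = c} = w b c + n₁`; choose a set `A₁` of `n₁` of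
these `i`, and similarly `A₂` (for `a, c`), `A₃` (for `a, b`); let `V2 i = {b,c}` for `i ∈ A₁` and so on,
`V2 i = ∅` otherwise. By `exists_perm_fib` there is a permutation `π` with `V1 (π i) = V2 i`. Then
`F i v = if v ∈ L ∨ (v ∈ V2 i) then f1 (π i) v else f2 i v` works. -/
theorem sep_glue {w : V → V → ℕ} {S L R : Finset V} {a b c z : V} {r : ℕ}
    (symm : ∀ x y, w x y = w y x) (irr : ∀ x, w x x = 0)
    (hs : Sep w S L R a b c) (hz : z ∈ R) {n₁ n₂ n₃ s₁ s₂ s₃ t₁ t₂ t₃ : ℕ}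
    (ha : n₂ + n₃ = ∑ y ∈ L, w a y) (hb : n₁ + n₃ = ∑ y ∈ L, w b y)
    (hc : n₁ + n₂ = ∑ y ∈ L, w c y)
    (h2 : Dec (G2 w L a b c n₁ n₂ n₃) (R ∪ {a, b, c}) r)
    (h1 : Dec (G1 w L z a b c s₁ s₂ s₃ t₁ t₂ t₃) (L ∪ {a, b, c, z}) r) : Dec w S r := by
  classical
  obtain ⟨f1, hf1, hf1c⟩ := h1
  obtain ⟨f2, hf2, hf2c⟩ := h2
  obtain ⟨e, he⟩ : ∃ e : Fin 3 → V, e = ![a, b, c] := ⟨_, rfl⟩
  obtain ⟨n, hn⟩ : ∃ n : Fin 3 → ℕ, n = ![n₁, n₂, n₃] := ⟨_, rfl⟩
  have e0 : e 0 = a := by rw [he]; rfl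
  have e1 : e 1 = b := by rw [he]; rfl
  have e2 : e 2 = c := by rw [he]; rfl
  have hE : ∀ v, (v = a ∨ v = b ∨ v = c) ↔ ∃ l, v = e l := by
    intro v
    constructor
    · rintro (h | h | h)
      · exact ⟨0, by rw [e0]; exact h⟩
      · exact ⟨1, by rw [e1]; exact h⟩
      · exact ⟨2, by rw [e2]; exact h⟩
    · rintro ⟨l, h⟩
      fin_cases l
      · exact Or.inl (h.trans e0)
      · exact Or.inr (Or.inl (h.trans e1))
      · exact Or.inr (Or.inr (h.trans e2))
  have heL : ∀ l, e l ∉ L := by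
    intro l
    rcases (hE (e l)).2 ⟨l, rfl⟩ with h | h | h
    · rw [h]; exact hs.aL
    · rw [h]; exact hs.bL
    · rw [h]; exact hs.cL
  have heR : ∀ l, e l ∉ R := by
    intro l
    rcases (hE (e l)).2 ⟨l, rfl⟩ with h | h | h
    · rw [h]; exact hs.aR
    · rw [h]; exact hs.bR
    · rw [h]; exact hs.cR
  have einj : ∀ l l', e l = e l' → l = l' := by
    intro l l' h
    by_contra hne
    obtain ⟨k, hk | hk⟩ := G_fin l l' hne
    · rw [hk.1, hk.2] at h
      fin_cases k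
      · exact hs.bc (by rw [← e1, ← e2]; exact h)
      · exact hs.ac (by rw [← e0, ← e2]; exact h.symm)
      · exact hs.ab (by rw [← e0, ← e1]; exact h)
    · rw [hk.1, hk.2] at h
      fin_cases k
      · exact hs.bc (by rw [← e1, ← e2]; exact h.symm)
      · exact hs.ac (by rw [← e0, ← e2]; exact h)
      · exact hs.ab (by rw [← e0, ← e1]; exact h.symm)
  have hLR : ∀ v ∈ L, v ∉ R := fun v h => Finset.disjoint_left.1 hs.dLR h
  have hzL : z ∉ L := fun h => hLR z h hz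
  have hze : ∀ l, z ≠ e l := fun l h => heR l (h ▸ hz)
  have mS : ∀ v, v ∈ S ↔ (v ∈ L ∨ v ∈ R ∨ ∃ l, v = e l) := by
    intro v
    rw [hs.un, Finset.mem_union, Finset.mem_union, ← hE]
    simp only [Finset.mem_insert, Finset.mem_singleton]
    tauto
  have m1 : ∀ v, v ∈ L ∪ {a, b, c, z} ↔ (v ∈ L ∨ (∃ l, v = e l) ∨ v = z) := by
    intro v
    rw [Finset.mem_union, ← hE]
    simp only [Finset.mem_insert, Finset.mem_singleton]
    tauto
  have m2 : ∀ v, v ∈ R ∪ {a, b, c} ↔ (v ∈ R ∨ ∃ l, v = e l) := by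
    intro v
    rw [Finset.mem_union, ← hE]
    simp only [Finset.mem_insert, Finset.mem_singleton]
  have hg : ∀ j v, (v ∈ L ∨ (∃ l, v = e l) ∨ v = z) →
      (f1 j v ∈ L ∨ (∃ l, f1 j v = e l) ∨ f1 j v = z) ∧ f1 j (f1 j v) = v ∧ f1 j v ≠ v := by
    intro j v hv
    have h := hf1 j v ((m1 v).2 hv)
    exact ⟨(m1 _).1 h.1, h.2⟩
  have hh : ∀ i v, (v ∈ R ∨ ∃ l, v = e l) →
      (f2 i v ∈ R ∨ ∃ l, f2 i v = e l) ∧ f2 i (f2 i v) = v ∧ f2 i v ≠ v := by
    intro i v hv
    have h := hf2 i v ((m2 v).2 hv)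
    exact ⟨(m2 _).1 h.1, h.2⟩
  have cnt1 : ∀ u ∈ L, ∀ v, (v ∈ L ∨ (∃ l, v = e l) ∨ v = z) →
      (univ.filter fun j => f1 j u = v).card = w u v := by
    intro u hu v hv
    rw [← hf1c u ((m1 u).2 (Or.inl hu)) v ((m1 v).2 hv), G_G1 hs hz _ _ _ _ _ _ v hu]
  have cnt1' : ∀ v ∈ L, ∀ u, (u ∈ L ∨ (∃ l, u = e l) ∨ u = z) →
      (univ.filter fun j => f1 j u = v).card = w u v := by
    intro v hv u hu
    rw [← hf1c u ((m1 u).2 hu) v ((m1 v).2 (Or.inl hv)), G_G1_symm symm,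
      G_G1 hs hz _ _ _ _ _ _ u hv, symm]
  have gz : ∀ j, f1 j z ∉ L := by
    intro j hj
    have h := cnt1' _ hj z (Or.inr (Or.inr rfl))
    rw [symm, hs.no _ hj z hz, Finset.card_eq_zero, Finset.filter_eq_empty_iff] at h
    exact h (Finset.mem_univ j) rfl
  have hk0 : ∀ j, ∃ k, f1 j z = e k := by
    intro j
    rcases (hg j z (Or.inr (Or.inr rfl))).1 with h | h | h
    · exact absurd h (gz j)
    · exact h
    · exact absurd h (hg j z (Or.inr (Or.inr rfl))).2.2
  choose kk hkk using hk0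
  have fz : ∀ j, f1 j (e (kk j)) = z := by
    intro j
    rw [← hkk j]
    exact (hg j z (Or.inr (Or.inr rfl))).2.1
  have nz : ∀ j l, l ≠ kk j → f1 j (e l) ≠ z := by
    intro j l hl h
    apply hl
    apply einj
    rw [← (hg j (e l) (Or.inr (Or.inl ⟨l, rfl⟩))).2.1, h]
    exact hkk j
  -- the two other vertices are both matched into `L` or not
  have both : ∀ j l l', l ≠ kk j → l' ≠ kk j → l ≠ l' → f1 j (e l) ∈ L → f1 j (e l') ∈ L := by
    intro j l l' hl hl' hll hL1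
    rcases (hg j (e l') (Or.inr (Or.inl ⟨l', rfl⟩))).1 with h | ⟨l'', h⟩ | h
    · exact h
    · exfalso
      have hb' := (hg j (e l') (Or.inr (Or.inl ⟨l', rfl⟩))).2
      have n1 : l'' ≠ l' := by
        intro h3
        exact hb'.2 (by rw [h, h3])
      have n2 : l'' ≠ kk j := by
        intro h3
        have h4 := hb'.1
        rw [h, h3, fz j] at h4
        exact hze l' h4
      have n3 : l'' = l := G_fin4 (kk j) l l' l'' hl hl' hll n1 n2
      have h4 := hb'.1
      rw [h, n3] at h4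
      rw [h4] at hL1
      exact heL l' hL1
    · exact absurd h (nz j l' hl')
  let c1 : Fin r → Option (Fin 3) := fun j =>
    if f1 j (e (kk j + 1)) ∈ L then some (kk j) else none
  have hc1 : ∀ j l, f1 j (e l) ∈ L ↔ ∃ k, c1 j = some k ∧ l ≠ k := by
    intro j l
    constructor
    · intro h
      have hl : l ≠ kk j := by
        intro h3
        rw [h3, fz j] at h
        exact hzL h
      have h5 : f1 j (e (kk j + 1)) ∈ L := by
        by_cases h6 : l = kk j + 1
        · rw [← h6]; exact h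
        · exact both j l (kk j + 1) hl (G_fin3 _).1 h6 h
      exact ⟨kk j, if_pos h5, hl⟩
    · rintro ⟨k, hk, hl⟩
      by_cases h5 : f1 j (e (kk j + 1)) ∈ L
      · have h6 : c1 j = some (kk j) := if_pos h5
        rw [h6] at hk
        have h7 := Option.some.inj hk
        rw [← h7] at hl
        by_cases h8 : l = kk j + 1
        · rw [h8]; exact h5
        · exact both j (kk j + 1) l (G_fin3 _).1 hl (Ne.symm h8) h5
      · have h6 : c1 j = none := if_neg h5
        rw [h6] at hk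
        cases hk
  have hsum : ∀ l, n (l + 1) + n (l + 2) = ∑ y ∈ L, w (e l) y := by
    intro l
    fin_cases l
    · show n 1 + n 2 = ∑ y ∈ L, w (e 0) y
      rw [e0, ← ha, hn]; rfl
    · show n 2 + n 0 = ∑ y ∈ L, w (e 1) y
      rw [e1, ← hb, hn, add_comm]; rfl
    · show n 0 + n 1 = ∑ y ∈ L, w (e 2) y
      rw [e2, ← hc, hn]; rfl
  have hm : (fun k => (univ.filter fun j => c1 j = some k).card) = n := by
    apply G_solve
    intro l
    show (univ.filter fun j => c1 j = some (l + 1)).card +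
      (univ.filter fun j => c1 j = some (l + 2)).card = _
    rw [hsum l]
    have h1 : (univ.filter fun j => c1 j = some (l + 1)).card +
      (univ.filter fun j => c1 j = some (l + 2)).card = (univ.filter fun j => f1 j (e l) ∈ L).card := by
      rw [← Finset.card_union_of_disjoint]
      · congr 1
        ext j
        simp only [Finset.mem_union, Finset.mem_filter, Finset.mem_univ, true_and]
        rw [hc1 j l]
        constructor
        · rintro (h | h)
          · exact ⟨_, h, (G_fin3 l).1.symm⟩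
          · exact ⟨_, h, (G_fin3 l).2.1.symm⟩
        · rintro ⟨k, hk, hlk⟩
          rcases G_fin2 l k hlk.symm with h | h
          · exact Or.inl (by rw [hk, h])
          · exact Or.inr (by rw [hk, h])
      · rw [Finset.disjoint_left]
        intro j hj hj'
        have a1 := (Finset.mem_filter.1 hj).2
        have a2 := (Finset.mem_filter.1 hj').2
        rw [a1] at a2
        exact (G_fin3 l).2.2 (Option.some.inj a2)
    rw [h1, Finset.card_eq_sum_card_fiberwise (f := fun j => f1 j (e l)) (t := L)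
      (fun j hj => Finset.mem_coe.2 (Finset.mem_filter.1 (Finset.mem_coe.1 hj)).2)]
    refine Finset.sum_congr rfl fun y hy => ?_
    rw [← cnt1' y hy (e l) (Or.inr (Or.inl ⟨l, rfl⟩))]
    congr 1
    ext j
    simp only [Finset.mem_filter, Finset.mem_univ, true_and]
    exact ⟨fun h => h.2, fun h => ⟨by rw [h]; exact hy, h⟩⟩
  -- the sets `A k`
  have hAcard : ∀ k, (univ.filter fun i => f2 i (e (k + 1)) = e (k + 2)).card =
      w (e (k + 1)) (e (k + 2)) + n k := by
    intro k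
    rw [← hf2c _ ((m2 _).2 (Or.inr ⟨_, rfl⟩)) _ ((m2 _).2 (Or.inr ⟨_, rfl⟩)), he, hn]
    exact G_abc hs n₁ n₂ n₃ k
  have hA : ∀ k, ∃ A : Finset (Fin r), A ⊆ (univ.filter fun i => f2 i (e (k + 1)) = e (k + 2)) ∧
      A.card = n k := by
    intro k
    exact Finset.exists_subset_card_eq (by rw [hAcard k]; omega)
  choose A hAs hAc using hA
  have hAm : ∀ k, ∀ i ∈ A k, ∀ l, l ≠ k → ∃ l', l' ≠ k ∧ l' ≠ l ∧ f2 i (e l) = e l' := by
    intro k i hi l hl
    have h1 := (Finset.mem_filter.1 (hAs k hi)).2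
    rcases G_fin2 k l hl with h | h
    · exact ⟨k + 2, (G_fin3 k).2.1, by rw [h]; exact (G_fin3 k).2.2.symm, by rw [h]; exact h1⟩
    · refine ⟨k + 1, (G_fin3 k).1, by rw [h]; exact (G_fin3 k).2.2, ?_⟩
      rw [h, ← h1]
      exact (hh i _ (Or.inr ⟨_, rfl⟩)).2.1
  have hAd : ∀ k k' i, i ∈ A k → i ∈ A k' → k = k' := by
    intro k k' i hi hi'
    by_contra hne
    -- `k'` is matched outside of `{k}`... the partner of `e k'`
    obtain ⟨l', a1, a2, a3⟩ := hAm k i hi k' (Ne.symm hne)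
    obtain ⟨l'', b1, b2, b3⟩ := hAm k' i hi' l' a2
    have h4 := (hh i (e k') (Or.inr ⟨k', rfl⟩)).2.1
    rw [a3, b3] at h4
    exact b1 (einj _ _ h4)
  let c2 : Fin r → Option (Fin 3) := fun i =>
    if h : ∃ k, i ∈ A k then some h.choose else none
  have hc2 : ∀ i k, c2 i = some k ↔ i ∈ A k := by
    intro i k
    constructor
    · intro h
      by_cases h3 : ∃ k, i ∈ A k
      · have h4 : c2 i = some h3.choose := dif_pos h3
        rw [h4] at h
        rw [← Option.some.inj h]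
        exact h3.choose_spec
      · have h4 : c2 i = none := dif_neg h3
        rw [h4] at h
        cases h
    · intro h
      have h3 : ∃ k, i ∈ A k := ⟨k, h⟩
      have h4 : c2 i = some h3.choose := dif_pos h3
      rw [h4]
      exact congrArg some (hAd _ _ i h3.choose_spec h)
  have hfib : ∀ o, (univ.filter fun i => c2 i = o).card = (univ.filter fun j => c1 j = o).card := by
    apply G_none
    intro k
    have h3 := congrFun hm k
    have h4 : (univ.filter fun i => c2 i = some k) = A k := by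
      ext i
      simp only [Finset.mem_filter, Finset.mem_univ, true_and]
      exact hc2 i k
    rw [h4, hAc k]
    exact h3.symm
  obtain ⟨π, hπ⟩ := exists_perm_fib c2 c1 hfib
  let F : Fin r → V → V := fun i v =>
    if v ∈ L ∨ ((∃ l, v = e l) ∧ f1 (π i) v ∈ L) then f1 (π i) v else f2 i v
  have hF1 : ∀ i, ∀ v ∈ L, F i v = f1 (π i) v := fun i v hv => if_pos (Or.inl hv)
  have hF2 : ∀ i l, f1 (π i) (e l) ∈ L → F i (e l) = f1 (π i) (e l) :=
    fun i l h => if_pos (Or.inr ⟨⟨l, rfl⟩, h⟩)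
  have hF3 : ∀ i l, f1 (π i) (e l) ∉ L → F i (e l) = f2 i (e l) := by
    intro i l h
    refine if_neg ?_
    rintro (h3 | h3)
    · exact heL l h3
    · exact h h3.2
  have hF4 : ∀ i, ∀ v ∈ R, F i v = f2 i v := by
    intro i v hv
    refine if_neg ?_
    rintro (h3 | ⟨⟨l, h3⟩, _⟩)
    · exact hLR v h3 hv
    · exact heR l (h3 ▸ hv)
  have hFm : ∀ i v, (v ∈ L ∨ v ∈ R ∨ ∃ l, v = e l) →
      (F i v ∈ L ∨ F i v ∈ R ∨ ∃ l, F i v = e l) ∧ F i (F i v) = v ∧ F i v ≠ v := by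
    intro i
    refine G_one heR einj (f1 (π i)) (f2 i) (c2 i) (gz _) (hg _) (hh _) ?_ ?_ (F i)
      (hF1 i) (hF2 i) (hF3 i) (hF4 i)
    · intro l
      rw [← hπ i]
      exact hc1 (π i) l
    · intro k hk
      exact hAm k i ((hc2 i k).1 hk)
  refine ⟨F, fun i v hv => ?_, ?_⟩
  · have h := hFm i v ((mS v).1 hv)
    exact ⟨(mS _).2 h.1, h.2⟩
  have csymm : ∀ u v, (u ∈ L ∨ u ∈ R ∨ ∃ l, u = e l) → (v ∈ L ∨ v ∈ R ∨ ∃ l, v = e l) →
      (univ.filter fun i => F i u = v).card = (univ.filter fun i => F i v = u).card := by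
    intro u v hu hv
    congr 1
    ext i
    simp only [Finset.mem_filter, Finset.mem_univ, true_and]
    constructor
    · intro h
      rw [← h]
      exact (hFm i u hu).2.1
    · intro h
      rw [← h]
      exact (hFm i v hv).2.1
  have caseL : ∀ u ∈ L, ∀ v, (v ∈ L ∨ v ∈ R ∨ ∃ l, v = e l) →
      w u v = (univ.filter fun i => F i u = v).card := by
    intro u hu v hv
    have h3 : (univ.filter fun i => F i u = v).card = (univ.filter fun j => f1 j u = v).card := by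
      refine Finset.card_bij (fun i _ => π i) ?_ ?_ ?_
      · intro i hi
        have h4 := (Finset.mem_filter.1 hi).2
        rw [hF1 i u hu] at h4
        exact Finset.mem_filter.2 ⟨Finset.mem_univ _, h4⟩
      · intro i _ i' _ h
        exact π.injective h
      · intro j hj
        refine ⟨π.symm j, ?_, π.apply_symm_apply j⟩
        refine Finset.mem_filter.2 ⟨Finset.mem_univ _, ?_⟩
        rw [hF1 _ u hu, π.apply_symm_apply]
        exact (Finset.mem_filter.1 hj).2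
    rw [h3]
    rcases hv with hv | hv | hv
    · exact (cnt1 u hu v (Or.inl hv)).symm
    · rw [hs.no u hu v hv]
      symm
      rw [Finset.card_eq_zero, Finset.filter_eq_empty_iff]
      intro j _ h4
      have h5 := hg j u (Or.inl hu)
      rw [h4] at h5
      rcases h5.1 with h6 | ⟨l, h6⟩ | h6
      · exact hLR v h6 hv
      · exact heR l (h6 ▸ hv)
      · have h7 := h5.2.1
        rw [h6] at h7
        exact gz j (h7 ▸ hu)
    · exact (cnt1 u hu v (Or.inr (Or.inl hv))).symm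
  have caseR : ∀ u ∈ R, ∀ v, (v ∈ R ∨ ∃ l, v = e l) →
      w u v = (univ.filter fun i => F i u = v).card := by
    intro u hu v hv
    have hvL : v ∉ L := by
      rcases hv with h | ⟨l, h⟩
      · exact fun h3 => hLR v h3 h
      · rw [h]; exact heL l
    rw [← G_G2 hs n₁ n₂ n₃ hu hvL, hf2c u ((m2 u).2 (Or.inl hu)) v ((m2 v).2 hv)]
    congr 1
    ext i
    simp only [Finset.mem_filter, Finset.mem_univ, true_and]
    rw [hF4 i u hu]
  have caseE : ∀ k, w (e (k + 1)) (e (k + 2)) =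
      (univ.filter fun i => F i (e (k + 1)) = e (k + 2)).card := by
    intro k
    have h3 : (univ.filter fun i => F i (e (k + 1)) = e (k + 2)) =
        (univ.filter fun i => f2 i (e (k + 1)) = e (k + 2)) \ A k := by
      ext i
      simp only [Finset.mem_sdiff, Finset.mem_filter, Finset.mem_univ, true_and]
      have hc1' := hc1 (π i) (k + 1)
      rw [hπ i] at hc1'
      constructor
      · intro h
        by_cases h4 : f1 (π i) (e (k + 1)) ∈ L
        · rw [hF2 i _ h4] at h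
          rw [h] at h4
          exact absurd h4 (heL _)
        · rw [hF3 i _ h4] at h
          refine ⟨h, fun h5 => h4 (hc1'.2 ⟨k, (hc2 i k).2 h5, (G_fin3 k).1⟩)⟩
      · rintro ⟨h, h5⟩
        have h4 : f1 (π i) (e (k + 1)) ∉ L := by
          intro h6
          obtain ⟨k', h7, h8⟩ := hc1'.1 h6
          have h9 := (hc2 i k').1 h7
          obtain ⟨l', a1, a2, a3⟩ := hAm k' i h9 (k + 1) h8
          rw [h] at a3
          have a4 := einj _ _ a3
          rw [← a4] at a1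
          have h10 : k' = k := by
            rcases G_fin2 k k' (by
              intro h11
              rw [h11] at h9
              exact h5 h9) with h12 | h12
            · exact absurd h12.symm h8
            · exact absurd h12.symm a1
          rw [h10] at h9
          exact h5 h9
        rw [hF3 i _ h4]
        exact h
    rw [h3, Finset.card_sdiff_of_subset (hAs k), hAcard k, hAc k]
    omega
  intro u hu v hv
  have hu' := (mS u).1 hu
  have hv' := (mS v).1 hv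
  rcases hu' with hu1 | hu1 | ⟨l, hu1⟩
  · exact caseL u hu1 v hv'
  · rcases hv' with hv1 | hv1
    · rw [symm, csymm u v (Or.inr (Or.inl hu1)) (Or.inl hv1)]
      exact caseL v hv1 u (Or.inr (Or.inl hu1))
    · exact caseR u hu1 v hv1
  · rcases hv' with hv1 | hv1 | ⟨l', hv1⟩
    · rw [symm, csymm u v (Or.inr (Or.inr ⟨l, hu1⟩)) (Or.inl hv1)]
      exact caseL v hv1 u (Or.inr (Or.inr ⟨l, hu1⟩))
    · rw [symm, csymm u v (Or.inr (Or.inr ⟨l, hu1⟩)) (Or.inr (Or.inl hv1))]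
      exact caseR v hv1 u (Or.inr ⟨l, hu1⟩)
    · by_cases hll : l = l'
      · have h3 : v = u := by rw [hu1, hv1, hll]
        rw [h3, irr]
        symm
        rw [Finset.card_eq_zero, Finset.filter_eq_empty_iff]
        intro i _ h4
        exact (hFm i u (Or.inr (Or.inr ⟨l, hu1⟩))).2.2 h4
      · obtain ⟨k, hk | hk⟩ := G_fin l l' hll
        · rw [hu1, hv1, hk.1, hk.2]
          exact caseE k
        · rw [symm, csymm u v (Or.inr (Or.inr ⟨l, hu1⟩)) (Or.inr (Or.inr ⟨l', hv1⟩)), hu1, hv1,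
            hk.1, hk.2]
          exact caseE k

end RG3
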