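import Pool.Agent.Lib.MP_78ca69_co.R3.EC
set_option autoImplicit false
set_option linter.unusedSectionVars false

namespace RG3

open Finset

variable {V : Type*} [Fintype V] [DecidableEq V]

/-- Row M1. The right side of a 3-separation is `r`-edge-connected. Proof (compare `sep_G2` in
/team-store/r3_S2.lean): replacing `X` by `(R ∪ {a,b,c}) \ X` (`cut_supp`, `cut_compl`) we may suppose that `X`
contains at most one of `a, b, c`, and then `cut (G2 ..) X = cut w X` as `w = wL + wR`. -/
theorem G2_EC {w : V → V → ℕ} {S L R : Finset V} {a b c : V} {r : ℕ} (h : RG w S r)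
    (hec : EC w S r) (hs : Sep w S L R a b c) {n₁ n₂ n₃ : ℕ} (e1 : n₂ + n₃ = ∑ y ∈ L, w a y)
    (e2 : n₁ + n₃ = ∑ y ∈ L, w b y) (e3 : n₁ + n₂ = ∑ y ∈ L, w c y) :
    EC (G2 w L a b c n₁ n₂ n₃) (R ∪ {a, b, c}) r := by
  have hTL : ∀ x ∈ R ∪ {a, b, c}, x ∉ L := by
    intro x hx hxL
    simp only [Finset.mem_union, Finset.mem_insert, Finset.mem_singleton] at hx
    rcases hx with h1 | rfl | rfl | rfl
    · exact Finset.disjoint_left.1 hs.dLR hxL h1
    · exact hs.aL hxL
    · exact hs.bL hxL
    · exact hs.cL hxL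
  have hTS : R ∪ {a, b, c} ⊆ S := by
    intro x hx
    rw [hs.un]
    simp only [Finset.mem_union, Finset.mem_insert, Finset.mem_singleton] at hx ⊢
    tauto
  have hsym : ∀ x y, G2 w L a b c n₁ n₂ n₃ x y = G2 w L a b c n₁ n₂ n₃ y x := by
    intro x y
    unfold G2 wR
    rw [ed_symm b c, ed_symm a c, ed_symm a b, h.symm x y]
    simp only [or_comm]
  have hsupp : ∀ x y, G2 w L a b c n₁ n₂ n₃ x y ≠ 0 → x ∈ R ∪ {a, b, c} := by
    intro x y hne
    by_contra hx
    apply hne
    simp only [Finset.mem_union, Finset.mem_insert, Finset.mem_singleton, not_or] at hx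
    have h1 : wR w L x y = 0 := by
      unfold wR
      split_ifs with h2
      · rfl
      · by_contra h3
        have h4 := h.supp x y h3
        rw [hs.un] at h4
        simp only [Finset.mem_union, Finset.mem_insert, Finset.mem_singleton] at h4
        tauto
    have h2 : ed b c n₁ x y = 0 := by unfold ed; rw [if_neg]; tauto
    have h3 : ed a c n₂ x y = 0 := by unfold ed; rw [if_neg]; tauto
    have h4 : ed a b n₃ x y = 0 := by unfold ed; rw [if_neg]; tauto
    unfold G2
    rw [h1, h2, h3, h4]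
  -- the sums over L
  have hdd : ∀ X : Finset V, X ⊆ R ∪ {a, b, c} → ∑ x ∈ X, ∑ y ∈ L, w x y =
      (if a ∈ X then ∑ y ∈ L, w a y else 0) + (if b ∈ X then ∑ y ∈ L, w b y else 0) +
        (if c ∈ X then ∑ y ∈ L, w c y else 0) := by
    intro X hX
    have h1 : ∑ x ∈ X, ∑ y ∈ L, w x y =
        ∑ x ∈ ({a, b, c} : Finset V), if x ∈ X then ∑ y ∈ L, w x y else 0 := by
      have h2 : ∑ x ∈ X, ∑ y ∈ L, w x y = ∑ x, if x ∈ X then ∑ y ∈ L, w x y else 0 := by
        rw [Finset.sum_ite_mem, Finset.univ_inter]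
      rw [h2]
      symm
      refine Finset.sum_subset (Finset.subset_univ _) ?_
      intro x _ hx
      simp only [Finset.mem_insert, Finset.mem_singleton, not_or] at hx
      by_cases hxX : x ∈ X
      · rw [if_pos hxX]
        refine Finset.sum_eq_zero fun y hy => ?_
        have hxR : x ∈ R := by
          have := hX hxX
          simp only [Finset.mem_union, Finset.mem_insert, Finset.mem_singleton] at this
          tauto
        rw [h.symm]
        exact hs.no y hy x hxR
      · rw [if_neg hxX]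
    rw [h1, Finset.sum_insert (by simp [hs.ab, hs.ac]), Finset.sum_insert (by simp [hs.bc]),
      Finset.sum_singleton, add_assoc]
  have hcutL : ∀ X : Finset V, X ⊆ R ∪ {a, b, c} → cut w X = cut (wR w L) X +
      ∑ x ∈ X, ∑ y ∈ L, w x y := by
    intro X hX
    unfold cut
    rw [← Finset.sum_add_distrib]
    refine Finset.sum_congr rfl fun x hx => ?_
    have hxL : x ∉ L := hTL x (hX hx)
    have h1 : ∑ y ∈ L, w x y = ∑ y ∈ Xᶜ, if y ∈ L then w x y else 0 := by
      rw [Finset.sum_ite_mem, Finset.inter_eq_right.2]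
      intro y hy
      rw [Finset.mem_compl]
      exact fun hyX => hTL y (hX hyX) hy
    rw [h1, ← Finset.sum_add_distrib]
    refine Finset.sum_congr rfl fun y _ => ?_
    unfold wR
    by_cases hyL : y ∈ L
    · rw [if_pos (Or.inr hyL), if_pos hyL, zero_add]
    · rw [if_neg (by tauto), if_neg hyL, add_zero]
  have hcutG : ∀ X : Finset V, cut (G2 w L a b c n₁ n₂ n₃) X = cut (wR w L) X +
      (if (b ∈ X ∧ c ∉ X) ∨ (c ∈ X ∧ b ∉ X) then n₁ else 0) +
      (if (a ∈ X ∧ c ∉ X) ∨ (c ∈ X ∧ a ∉ X) then n₂ else 0) +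
      (if (a ∈ X ∧ b ∉ X) ∨ (b ∈ X ∧ a ∉ X) then n₃ else 0) := by
    intro X
    rw [← cut_ed hs.bc n₁ X, ← cut_ed hs.ac n₂ X, ← cut_ed hs.ab n₃ X]
    unfold G2
    rw [cut_add (fun x y => wR w L x y + ed b c n₁ x y + ed a c n₂ x y),
      cut_add (fun x y => wR w L x y + ed b c n₁ x y), cut_add]
  have haS : a ∈ S := hTS (by simp)
  have hbS : b ∈ S := hTS (by simp)
  have hfew : ∀ X : Finset V, X ⊆ R ∪ {a, b, c} → X.Nonempty →
      ¬ (a ∈ X ∧ b ∈ X) → ¬ (a ∈ X ∧ c ∈ X) → ¬ (b ∈ X ∧ c ∈ X) →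
      r ≤ cut (G2 w L a b c n₁ n₂ n₃) X := by
    intro X hX hne hab hac hbc
    have h1 := hec X (hX.trans hTS) hne (fun h2 => hab (by rw [h2]; exact ⟨haS, hbS⟩))
    rw [hcutL X hX, hdd X hX] at h1
    rw [hcutG X]
    by_cases ha : a ∈ X
    · have hb : b ∉ X := fun hb => hab ⟨ha, hb⟩
      have hc : c ∉ X := fun hc => hac ⟨ha, hc⟩
      simp only [ha, hb, hc, if_true, if_false, true_and, false_and, and_true, and_false,
        not_true, not_false_iff, or_false, false_or] at h1 ⊢
      omega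
    · by_cases hb : b ∈ X
      · have hc : c ∉ X := fun hc => hbc ⟨hb, hc⟩
        simp only [ha, hb, hc, if_true, if_false, true_and, false_and, and_true, and_false,
          not_true, not_false_iff, or_false, false_or] at h1 ⊢
        omega
      · by_cases hc : c ∈ X
        · simp only [ha, hb, hc, if_true, if_false, true_and, false_and, and_true, and_false,
            not_true, not_false_iff, or_false, false_or] at h1 ⊢
          omega
        · simp only [ha, hb, hc, if_true, if_false, true_and, false_and, and_true, and_false,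
            not_true, not_false_iff, or_false, false_or] at h1 ⊢
          omega
  intro X hX hne hnT
  by_cases htwo : (a ∈ X ∧ b ∈ X) ∨ (a ∈ X ∧ c ∈ X) ∨ (b ∈ X ∧ c ∈ X)
  · have hcomp : cut (G2 w L a b c n₁ n₂ n₃) X =
        cut (G2 w L a b c n₁ n₂ n₃) ((R ∪ {a, b, c}) \ X) := by
      rw [← cut_compl hsym X]
      refine cut_supp (T := R ∪ {a, b, c}) (fun x y hne => ⟨hsupp x y hne, hsupp y x ?_⟩) ?_
      · rw [hsym]; exact hne
      · ext x
        simp only [Finset.mem_inter, Finset.mem_compl, Finset.mem_sdiff]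
        tauto
    rw [hcomp]
    have hne' : ((R ∪ {a, b, c}) \ X).Nonempty := by
      rw [Finset.sdiff_nonempty]
      exact fun h2 => hnT (Finset.Subset.antisymm hX h2)
    refine hfew _ Finset.sdiff_subset hne' ?_ ?_ ?_ <;>
    · simp only [Finset.mem_sdiff]
      tauto
  · push Not at htwo
    exact hfew X hX hne (fun h1 => htwo.1 h1.1 h1.2) (fun h1 => htwo.2.1 h1.1 h1.2)
      (fun h1 => htwo.2.2 h1.1 h1.2)

end RG3
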