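import Pool.Agent.Lib.MP_78ca69_co.R3.EC
set_option autoImplicit false
set_option linter.unusedSectionVars false

namespace RG3

open Finset

variable {V : Type*} [Fintype V] [DecidableEq V]

private theorem M2_split (w : V → V → ℕ) (L : Finset V) (x y : V) :
    w x y = wL w L x y + wR w L x y := by
  unfold wL wR
  by_cases h : x ∈ L ∨ y ∈ L
  · rw [if_pos h, if_pos h, add_zero]
  · rw [if_neg h, if_neg h, zero_add]

private theorem M2_cut (w : V → V → ℕ) (L X : Finset V) :
    cut w X = cut (wL w L) X + cut (wR w L) X := by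
  rw [← cut_add]
  exact cut_congr (M2_split w L) X

private theorem M2_symL {w : V → V → ℕ} (hw : ∀ x y, w x y = w y x) (L : Finset V) (x y : V) :
    wL w L x y = wL w L y x := by
  unfold wL
  rw [hw x y]
  by_cases h : x ∈ L ∨ y ∈ L
  · rw [if_pos h, if_pos h.symm]
  · rw [if_neg h, if_neg fun h' => h h'.symm]

private theorem M2_symR {w : V → V → ℕ} (hw : ∀ x y, w x y = w y x) (L : Finset V) (x y : V) :
    wR w L x y = wR w L y x := by
  unfold wR
  rw [hw x y]
  by_cases h : x ∈ L ∨ y ∈ L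
  · rw [if_pos h, if_pos h.symm]
  · rw [if_neg h, if_neg fun h' => h h'.symm]

private theorem M2_irrL {w : V → V → ℕ} (hw : ∀ x, w x x = 0) (L : Finset V) (x : V) :
    wL w L x x = 0 := by
  unfold wL
  rw [hw x, ite_self]

private theorem M2_irrR {w : V → V → ℕ} (hw : ∀ x, w x x = 0) (L : Finset V) (x : V) :
    wR w L x x = 0 := by
  unfold wR
  rw [hw x, ite_self]

section
variable {w : V → V → ℕ} {S L R : Finset V} {a b c : V} {r : ℕ}

private theorem M2_suppL (h : RG w S r) (hs : Sep w S L R a b c) (x y : V)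
    (hne : wL w L x y ≠ 0) : x ∈ L ∪ {a, b, c} ∧ y ∈ L ∪ {a, b, c} := by
  have key : ∀ x y, x ∈ L → w x y ≠ 0 → y ∈ L ∪ {a, b, c} := by
    intro x y hx hxy
    have hy : y ∈ S := h.supp y x (by rw [h.symm]; exact hxy)
    rw [hs.un] at hy
    rcases Finset.mem_union.1 hy with hy | hy
    · rcases Finset.mem_union.1 hy with hy | hy
      · exact Finset.mem_union_left _ hy
      · exact absurd (hs.no x hx y hy) hxy
    · exact Finset.mem_union_right _ hy
  unfold wL at hne
  by_cases hl : x ∈ L ∨ y ∈ L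
  · rw [if_pos hl] at hne
    rcases hl with hl | hl
    · exact ⟨Finset.mem_union_left _ hl, key x y hl hne⟩
    · exact ⟨key y x hl (by rw [h.symm]; exact hne), Finset.mem_union_left _ hl⟩
  · rw [if_neg hl] at hne
    exact absurd rfl hne

private theorem M2_suppR (h : RG w S r) (hs : Sep w S L R a b c) (x y : V)
    (hne : wR w L x y ≠ 0) : x ∈ R ∪ {a, b, c} ∧ y ∈ R ∪ {a, b, c} := by
  have key : ∀ x, x ∉ L → x ∈ S → x ∈ R ∪ {a, b, c} := by
    intro x hx hxS
    rw [hs.un] at hxS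
    rcases Finset.mem_union.1 hxS with hy | hy
    · rcases Finset.mem_union.1 hy with hy | hy
      · exact absurd hy hx
      · exact Finset.mem_union_left _ hy
    · exact Finset.mem_union_right _ hy
  unfold wR at hne
  by_cases hl : x ∈ L ∨ y ∈ L
  · rw [if_pos hl] at hne
    exact absurd rfl hne
  · rw [if_neg hl] at hne
    push Not at hl
    exact ⟨key x hl.1 (h.supp x y hne), key y hl.2 (h.supp y x (by rw [h.symm]; exact hne))⟩

private theorem M2_suppR' (x y : V) (hne : wR w L x y ≠ 0) : x ∈ Lᶜ ∧ y ∈ Lᶜ := by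
  unfold wR at hne
  by_cases hl : x ∈ L ∨ y ∈ L
  · rw [if_pos hl] at hne
    exact absurd rfl hne
  · push Not at hl
    exact ⟨Finset.mem_compl.2 hl.1, Finset.mem_compl.2 hl.2⟩

private theorem M2_cutR (P Y : Finset V) (hY : Y ⊆ L) :
    cut (wR w L) (P ∪ Y) = cut (wR w L) P := by
  refine cut_supp M2_suppR' ?_
  ext x
  simp only [Finset.mem_inter, Finset.mem_union, Finset.mem_compl]
  constructor
  · rintro ⟨h1 | h1, h2⟩
    · exact ⟨h1, h2⟩
    · exact absurd (hY h1) h2
  · rintro ⟨h1, h2⟩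
    exact ⟨Or.inl h1, h2⟩

private theorem M2_deg (h : RG w S r) {x : V} (hx : x ∈ S) :
    (∑ y, wL w L x y) + (∑ y, wR w L x y) = r := by
  rw [← Finset.sum_add_distrib, ← h.deg x hx]
  exact Finset.sum_congr rfl fun y _ => (M2_split w L x y).symm

private theorem M2_degL (h : RG w S r) (hs : Sep w S L R a b c) {x : V} (hx : x ∈ L) :
    ∑ y, wL w L x y = r := by
  have hxS : x ∈ S := by
    rw [hs.un]
    exact Finset.mem_union_left _ (Finset.mem_union_left _ hx)
  rw [← h.deg x hxS]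
  refine Finset.sum_congr rfl fun y _ => ?_
  unfold wL
  rw [if_pos (Or.inl hx)]

private theorem M2_swap12 (hs : Sep w S L R a b c) : Sep w S L R b a c where
  ab := hs.ab.symm
  ac := hs.bc
  bc := hs.ac
  un := by
    rw [hs.un]
    congr 1
    exact Finset.insert_comm _ _ _
  dLR := hs.dLR
  aL := hs.bL
  bL := hs.aL
  cL := hs.cL
  aR := hs.bR
  bR := hs.aR
  cR := hs.cR
  no := hs.no

private theorem M2_swap23 (hs : Sep w S L R a b c) : Sep w S L R a c b where
  ab := hs.ac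
  ac := hs.ab
  bc := hs.bc.symm
  un := by
    rw [hs.un]
    congr 2
    exact Finset.pair_comm _ _
  dLR := hs.dLR
  aL := hs.aL
  bL := hs.cL
  cL := hs.bL
  aR := hs.aR
  bR := hs.cR
  cR := hs.bR
  no := hs.no

private theorem M2_memS (hs : Sep w S L R a b c) : a ∈ S ∧ b ∈ S ∧ c ∈ S := by
  rw [hs.un]
  refine ⟨?_, ?_, ?_⟩ <;> simp

/-- `m ≤ e_a` -/
private theorem M2_i (h : RG w S r) (hs : Sep w S L R a b c) (hR : Odd R.card) :
    r ≤ (∑ y, wL w L b y) + (∑ y, wL w L c y) + ∑ y, wR w L a y := by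
  have hcard : Odd (R ∪ {b, c}).card := by
    rw [Finset.card_union_of_disjoint, Finset.card_pair hs.bc]
    · exact hR.add_even (by decide)
    · rw [Finset.disjoint_right]
      intro x hx
      rcases Finset.mem_insert.1 hx with rfl | hx
      · exact hs.bR
      · rw [Finset.mem_singleton.1 hx]
        exact hs.cR
  have hsub : R ∪ {b, c} ⊆ S := by
    intro x hx
    obtain ⟨-, h2, h3⟩ := M2_memS hs
    rcases Finset.mem_union.1 hx with hx | hx
    · rw [hs.un]
      exact Finset.mem_union_left _ (Finset.mem_union_right _ hx)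
    · rcases Finset.mem_insert.1 hx with rfl | hx
      · exact h2
      · rw [Finset.mem_singleton.1 hx]
        exact h3
  have h1 := h.odd _ hsub hcard
  rw [M2_cut w L] at h1
  have h2 : cut (wL w L) (R ∪ {b, c}) = cut (wL w L) {b, c} := by
    refine cut_supp (M2_suppL h hs) ?_
    ext x
    simp only [Finset.mem_inter, Finset.mem_union, Finset.mem_insert, Finset.mem_singleton]
    constructor
    · rintro ⟨u1 | u1, u2⟩
      · exfalso
        rcases u2 with u2 | u2 | u2 | u2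
        · exact Finset.disjoint_left.1 hs.dLR u2 u1
        · rw [u2] at u1
          exact hs.aR u1
        · rw [u2] at u1
          exact hs.bR u1
        · rw [u2] at u1
          exact hs.cR u1
      · exact ⟨u1, u2⟩
    · rintro ⟨u1, u2⟩
      exact ⟨Or.inr u1, u2⟩
  have h3 : cut (wR w L) (R ∪ {b, c}) = ∑ y, wR w L a y := by
    rw [← cut_compl (M2_symR h.symm L), ← cut_singleton (M2_irrR h.irr L)]
    refine cut_supp (M2_suppR h hs) ?_
    ext x
    simp only [Finset.mem_inter, Finset.mem_union, Finset.mem_insert, Finset.mem_singleton,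
      Finset.mem_compl, not_or]
    constructor
    · rintro ⟨⟨h1, h2, h3⟩, h4 | h4 | h4 | h4⟩
      · exact absurd h4 h1
      · exact ⟨h4, Or.inr (Or.inl h4)⟩
      · exact absurd h4 h2
      · exact absurd h4 h3
    · rintro ⟨rfl, h2⟩
      exact ⟨⟨hs.aR, hs.ab, hs.ac⟩, h2⟩
  have h4 : cut (wL w L) {b, c} ≤ (∑ y, wL w L b y) + (∑ y, wL w L c y) := by
    refine (cut_le_deg _ _).trans ?_
    rw [Finset.sum_pair hs.bc]
  omega

/-- `0 ≤ m` -/
private theorem M2_0 (h : RG w S r) (hs : Sep w S L R a b c) (hR : Odd R.card) :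
    r ≤ (∑ y, wR w L a y) + (∑ y, wR w L b y) + ∑ y, wR w L c y := by
  have hsub : R ⊆ S := by
    intro x hx
    rw [hs.un]
    exact Finset.mem_union_left _ (Finset.mem_union_right _ hx)
  have h1 := h.odd _ hsub hR
  rw [M2_cut w L] at h1
  have h2 : cut (wL w L) R = 0 := by
    rw [← cut_empty (wL w L)]
    refine cut_supp (M2_suppL h hs) ?_
    ext x
    simp only [Finset.mem_inter, Finset.mem_union, Finset.mem_insert, Finset.mem_singleton,
      Finset.notMem_empty, false_and, iff_false, not_and]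
    rintro h1 (h2 | rfl | rfl | rfl)
    · exact Finset.disjoint_left.1 hs.dLR h2 h1
    · exact hs.aR h1
    · exact hs.bR h1
    · exact hs.cR h1
  have h3 : cut (wR w L) R ≤ (∑ y, wR w L a y) + (∑ y, wR w L b y) + ∑ y, wR w L c y := by
    have h5 : cut (wR w L) R = cut (wR w L) {a, b, c} := by
      rw [← cut_compl (M2_symR h.symm L)]
      refine cut_supp (M2_suppR h hs) ?_
      ext x
      simp only [Finset.mem_inter, Finset.mem_union, Finset.mem_insert, Finset.mem_singleton,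
        Finset.mem_compl]
      constructor
      · rintro ⟨h1, h4 | h4⟩
        · exact absurd h4 h1
        · exact ⟨h4, Or.inr h4⟩
      · rintro ⟨h1, h2⟩
        refine ⟨?_, h2⟩
        rcases h1 with rfl | rfl | rfl
        · exact hs.aR
        · exact hs.bR
        · exact hs.cR
    rw [h5]
    refine (cut_le_deg _ _).trans ?_
    rw [Finset.sum_insert (by simp [hs.ab, hs.ac]), Finset.sum_pair hs.bc, add_assoc]
  omega

private theorem M2_par (h : RG w S r) (hs : Sep w S L R a b c) (hL : Even L.card) :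
    Even ((∑ y, wL w L a y) + (∑ y, wL w L b y) + ∑ y, wL w L c y) := by
  have h1 := cut_parity (M2_symL h.symm L) (M2_irrL h.irr L) (L ∪ {a, b, c})
  have h2 : cut (wL w L) (L ∪ {a, b, c}) = 0 := by
    rw [← cut_compl (M2_symL h.symm L), ← cut_empty (wL w L)]
    refine cut_supp (M2_suppL h hs) ?_
    rw [Finset.empty_inter, Finset.inter_comm, Finset.inter_compl]
  have h3 : ∑ x ∈ L ∪ {a, b, c}, ∑ y, wL w L x y =
      L.card * r + ((∑ y, wL w L a y) + (∑ y, wL w L b y) + ∑ y, wL w L c y) := by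
    rw [Finset.sum_union]
    · congr 1
      · rw [Finset.sum_congr rfl fun x hx => M2_degL h hs hx, Finset.sum_const, smul_eq_mul]
      · rw [Finset.sum_insert (by simp [hs.ab, hs.ac]), Finset.sum_pair hs.bc, add_assoc]
    · rw [Finset.disjoint_right]
      intro x hx
      simp only [Finset.mem_insert, Finset.mem_singleton] at hx
      rcases hx with rfl | rfl | rfl
      · exact hs.aL
      · exact hs.bL
      · exact hs.cL
  rw [h2, h3] at h1
  obtain ⟨k, hk⟩ := hL
  rw [Nat.even_iff]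
  have h4 : L.card * r = 2 * (k * r) := by rw [hk]; ring
  omega

/-- bound for `{b, c} ∪ Y` -/
private theorem M2_ii (h : RG w S r) (hec : EC w S r) (hs : Sep w S L R a b c) {Y : Finset V}
    (hY : Y ⊆ L) :
    r ≤ cut (wL w L) ({b, c} ∪ Y) + (∑ y, wR w L b y) + (∑ y, wR w L c y) := by
  obtain ⟨haS, hbS, hcS⟩ := M2_memS hs
  have hsub : {b, c} ∪ Y ⊆ S := by
    intro x hx
    rcases Finset.mem_union.1 hx with hx | hx
    · rcases Finset.mem_insert.1 hx with rfl | hx
      · exact hbS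
      · rw [Finset.mem_singleton.1 hx]
        exact hcS
    · rw [hs.un]
      exact Finset.mem_union_left _ (Finset.mem_union_left _ (hY hx))
  have hna : a ∉ {b, c} ∪ Y := by
    simp only [Finset.mem_union, Finset.mem_insert, Finset.mem_singleton, not_or]
    exact ⟨⟨hs.ab, hs.ac⟩, fun h1 => hs.aL (hY h1)⟩
  have h1 := hec _ hsub ⟨b, by simp⟩ (fun e => hna (by rw [e]; exact haS))
  rw [M2_cut w L, M2_cutR _ _ hY] at h1
  have h4 : cut (wR w L) {b, c} ≤ (∑ y, wR w L b y) + (∑ y, wR w L c y) := by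
    refine (cut_le_deg _ _).trans ?_
    rw [Finset.sum_pair hs.bc]
  omega

/-- `d_b ≤ cut ({b} ∪ Y)` -/
private theorem M2_one (h : RG w S r) (hec : EC w S r) (hs : Sep w S L R a b c) {Y : Finset V}
    (hY : Y ⊆ L) : ∑ y, wL w L b y ≤ cut (wL w L) ({b} ∪ Y) := by
  obtain ⟨haS, hbS, hcS⟩ := M2_memS hs
  have hsub : {b} ∪ Y ⊆ S := by
    intro x hx
    rcases Finset.mem_union.1 hx with hx | hx
    · rw [Finset.mem_singleton.1 hx]
      exact hbS
    · rw [hs.un]
      exact Finset.mem_union_left _ (Finset.mem_union_left _ (hY hx))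
  have hna : a ∉ {b} ∪ Y := by
    simp only [Finset.mem_union, Finset.mem_singleton, not_or]
    exact ⟨hs.ab, fun h1 => hs.aL (hY h1)⟩
  have h1 := hec _ hsub ⟨b, by simp⟩ (fun e => hna (by rw [e]; exact haS))
  have h2 := M2_deg (L := L) h hbS
  rw [M2_cut w L, M2_cutR _ _ hY, cut_singleton (M2_irrR h.irr L)] at h1
  omega

/-- `d_a + d_b ≤ c_a + c_b` -/
private theorem M2_iii (h : RG w S r) (hec : EC w S r) (hs : Sep w S L R a b c)
    {Y Z : Finset V} (hY : Y ⊆ L) (hZ : Z ⊆ L) :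
    (∑ y, wL w L a y) + ∑ y, wL w L b y ≤
      cut (wL w L) ({b, c} ∪ Y) + cut (wL w L) ({a, c} ∪ Z) := by
  have h1 := M2_one h hec hs (Finset.sdiff_subset.trans hY : Y \ Z ⊆ L)
  have h2 := M2_one h hec (M2_swap12 hs) (Finset.sdiff_subset.trans hZ : Z \ Y ⊆ L)
  have h3 := cut_submod (wL w L) ({b, c} ∪ Y) ({a, c} ∪ Z)ᶜ
  rw [cut_compl (M2_symL h.symm L)] at h3
  have e1 : ({b, c} ∪ Y) ∩ ({a, c} ∪ Z)ᶜ = {b} ∪ (Y \ Z) := by
    ext x
    simp only [Finset.mem_inter, Finset.mem_union, Finset.mem_insert, Finset.mem_singleton,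
      Finset.mem_compl, Finset.mem_sdiff, not_or]
    constructor
    · rintro ⟨(h4 | h4) | h4, ⟨h5, h6⟩, h7⟩
      · exact Or.inl h4
      · exact absurd h4 h6
      · exact Or.inr ⟨h4, h7⟩
    · rintro (h4 | ⟨h4, h5⟩)
      · rw [h4]
        exact ⟨Or.inl (Or.inl rfl), ⟨hs.ab.symm, hs.bc⟩, fun h8 => hs.bL (hZ h8)⟩
      · refine ⟨Or.inr h4, ⟨?_, ?_⟩, h5⟩
        · rintro rfl
          exact hs.aL (hY h4)
        · rintro rfl
          exact hs.cL (hY h4)
  have e2 : cut (wL w L) (({b, c} ∪ Y) ∪ ({a, c} ∪ Z)ᶜ) = cut (wL w L) ({a} ∪ (Z \ Y)) := by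
    rw [← cut_compl (M2_symL h.symm L), Finset.compl_union, compl_compl]
    congr 1
    ext x
    simp only [Finset.mem_inter, Finset.mem_union, Finset.mem_insert, Finset.mem_singleton,
      Finset.mem_compl, Finset.mem_sdiff, not_or]
    constructor
    · rintro ⟨⟨⟨h4, h5⟩, h6⟩, h7⟩
      rcases h7 with (h7 | h7) | h7
      · exact Or.inl h7
      · exact absurd h7 h5
      · exact Or.inr ⟨h7, h6⟩
    · rintro (h4 | ⟨h4, h5⟩)
      · rw [h4]
        exact ⟨⟨⟨hs.ab, hs.ac⟩, fun h8 => hs.aL (hY h8)⟩, Or.inl (Or.inl rfl)⟩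
      · refine ⟨⟨⟨?_, ?_⟩, h5⟩, Or.inr h4⟩
        · rintro rfl
          exact hs.bL (hZ h4)
        · rintro rfl
          exact hs.cL (hZ h4)
  rw [e1, e2] at h3
  omega

/-- the best `s₁` -/
private theorem M2_min (h : RG w S r) (hec : EC w S r) (hs : Sep w S L R a b c) :
    ∃ (U : ℕ) (Y₀ : Finset V), Y₀ ⊆ L ∧
      cut (wL w L) ({b, c} ∪ Y₀) + (∑ y, wR w L b y) + (∑ y, wR w L c y) ≤ 2 * U + r + 1 ∧
      ∀ Y ⊆ L, 2 * U + r ≤
        cut (wL w L) ({b, c} ∪ Y) + (∑ y, wR w L b y) + (∑ y, wR w L c y) := by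
  obtain ⟨Y₀, h1, h2⟩ := Finset.exists_min_image L.powerset
    (fun Y => cut (wL w L) ({b, c} ∪ Y)) ⟨∅, Finset.empty_mem_powerset L⟩
  rw [Finset.mem_powerset] at h1
  have h3 := M2_ii h hec hs h1
  refine ⟨(cut (wL w L) ({b, c} ∪ Y₀) + (∑ y, wR w L b y) + (∑ y, wR w L c y) - r) / 2, Y₀,
    h1, by omega, ?_⟩
  intro Y hY
  have h5 := h2 Y (Finset.mem_powerset.2 hY)
  omega

end

theorem sep_nums_EC {w : V → V → ℕ} {S L R : Finset V} {a b c : V} {r : ℕ} (h : RG w S r)
    (hec : EC w S r) (hr : 3 ≤ r) (hs : Sep w S L R a b c) (hL : Even L.card) (hL0 : L.Nonempty)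
    (hR : Odd R.card) :
    ∃ s₁ s₂ s₃ m : ℕ,
      2 * m + r = (∑ y, wR w L a y) + (∑ y, wR w L b y) + (∑ y, wR w L c y) ∧
      s₁ + s₂ + s₃ = m ∧ m ≤ (∑ y, wR w L a y) ∧ m ≤ (∑ y, wR w L b y) ∧ m ≤ (∑ y, wR w L c y) ∧
      (∀ Y ⊆ L, 2 * s₁ + r ≤
        cut (wL w L) ({b, c} ∪ Y) + (∑ y, wR w L b y) + (∑ y, wR w L c y)) ∧
      (∀ Y ⊆ L, 2 * s₂ + r ≤
        cut (wL w L) ({a, c} ∪ Y) + (∑ y, wR w L a y) + (∑ y, wR w L c y)) ∧
      (∀ Y ⊆ L, 2 * s₃ + r ≤
        cut (wL w L) ({a, b} ∪ Y) + (∑ y, wR w L a y) + (∑ y, wR w L b y)) := by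
  have hs2 := M2_swap12 hs
  have hs4 := M2_swap12 (M2_swap23 hs)
  have hs5 := M2_swap23 (M2_swap12 hs)
  obtain ⟨haS, hbS, hcS⟩ := M2_memS hs
  have da := M2_deg (L := L) h haS
  have db := M2_deg (L := L) h hbS
  have dc := M2_deg (L := L) h hcS
  have p0 := M2_0 h hs hR
  have pa := M2_i h hs hR
  have pb := M2_i h hs2 hR
  have pc := M2_i h hs4 hR
  have ev := M2_par h hs hL
  obtain ⟨U₁, Y₁, hY1, e1, f1⟩ := M2_min h hec hs
  obtain ⟨U₂, Y₂, hY2, e2, f2⟩ := M2_min h hec hs2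
  obtain ⟨U₃, Y₃, hY3, e3, f3⟩ := M2_min h hec hs4
  have q1 := M2_iii h hec hs hY1 hY2
  have q2 := M2_iii h hec (M2_swap23 hs) hY1 hY3
  have q3 := M2_iii h hec hs5 hY2 hY3
  rw [Finset.pair_comm c b] at q2
  rw [Finset.pair_comm c a, Finset.pair_comm b a] at q3
  obtain ⟨k, hk⟩ := ev
  refine ⟨min U₁ (r - k), min U₂ (r - k - min U₁ (r - k)),
    r - k - min U₁ (r - k) - min U₂ (r - k - min U₁ (r - k)), r - k, ?_⟩
  have hU : r - k ≤ U₁ + U₂ + U₃ := by omega
  refine ⟨by omega, by omega, by omega, by omega, by omega, ?_, ?_, ?_⟩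
  · intro Y hY
    have := f1 Y hY
    omega
  · intro Y hY
    have := f2 Y hY
    omega
  · intro Y hY
    have := f3 Y hY
    omega

end RG3
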