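import Pool.Agent.Lib.MP_78ca69_co.R3.M2
set_option autoImplicit false
set_option linter.unusedSectionVars false
set_option linter.unusedSimpArgs false

namespace RG3

open Finset

variable {V : Type*} [Fintype V] [DecidableEq V]

private theorem M3_split (w : V → V → ℕ) (L : Finset V) (x y : V) :
    w x y = wL w L x y + wR w L x y := by
  unfold wL wR
  by_cases h : x ∈ L ∨ y ∈ L
  · rw [if_pos h, if_pos h, add_zero]
  · rw [if_neg h, if_neg h, zero_add]

private theorem M3_cutG (w : V → V → ℕ) (L : Finset V) {z a b c : V} (ab : a ≠ b) (ac : a ≠ c)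
    (bc : b ≠ c) (za : z ≠ a) (zb : z ≠ b) (zc : z ≠ c) (s₁ s₂ s₃ t₁ t₂ t₃ : ℕ) (X : Finset V) :
    cut (G1 w L z a b c s₁ s₂ s₃ t₁ t₂ t₃) X = cut (wL w L) X
      + (if (b ∈ X ∧ c ∉ X) ∨ (c ∈ X ∧ b ∉ X) then s₁ else 0)
      + (if (a ∈ X ∧ c ∉ X) ∨ (c ∈ X ∧ a ∉ X) then s₂ else 0)
      + (if (a ∈ X ∧ b ∉ X) ∨ (b ∈ X ∧ a ∉ X) then s₃ else 0)
      + (if (z ∈ X ∧ a ∉ X) ∨ (a ∈ X ∧ z ∉ X) then t₁ else 0)
      + (if (z ∈ X ∧ b ∉ X) ∨ (b ∈ X ∧ z ∉ X) then t₂ else 0)
      + (if (z ∈ X ∧ c ∉ X) ∨ (c ∈ X ∧ z ∉ X) then t₃ else 0) := by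
  rw [← cut_ed bc, ← cut_ed ac, ← cut_ed ab, ← cut_ed za, ← cut_ed zb, ← cut_ed zc,
    ← cut_add, ← cut_add, ← cut_add, ← cut_add, ← cut_add, ← cut_add]
  rfl

private theorem M3_ed_irr {p q : V} (h : p ≠ q) (k : ℕ) (x : V) : ed p q k x x = 0 := by
  unfold ed
  rw [if_neg]
  rintro (⟨h1, h2⟩ | ⟨h1, h2⟩)
  · exact h (h1.symm.trans h2)
  · exact h (h2.symm.trans h1)

private theorem M3_ed_supp {p q : V} {k : ℕ} {x y : V} (h : ed p q k x y ≠ 0) :
    (x = p ∧ y = q) ∨ (x = q ∧ y = p) := by
  unfold ed at h
  by_contra hn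
  rw [if_neg hn] at h
  exact h rfl

/-- Row M3. The left side with the new vertex `z` is an `r`-edge-connected `r`-graph. Take the numbers of
`sep_nums_EC`, `t₁ = e_a - m + s₁` and so on (compare `sep_G1` in /team-store/r3_S1b.lean). For `EC` we may
suppose `z ∉ X`; if `X` contains none or one of `a,b,c` then `cut (G1 ..) X = cut w X`, if two of them use the
inequalities, if all three the new edges contribute `t₁ + t₂ + t₃ = r`. `RG.odd` follows from `EC`, since
`L ∪ {a,b,c,z}` has an even number of elements. -/
theorem sep_G1_EC {w : V → V → ℕ} {S L R : Finset V} {a b c z : V} {r : ℕ} (h : RG w S r)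
    (hec : EC w S r) (hr : 3 ≤ r) (hs : Sep w S L R a b c) (hL : Even L.card) (hL0 : L.Nonempty)
    (hR : Odd R.card) (hz : z ∈ R) :
    ∃ s₁ s₂ s₃ t₁ t₂ t₃ : ℕ, RG (G1 w L z a b c s₁ s₂ s₃ t₁ t₂ t₃) (L ∪ {a, b, c, z}) r ∧
      EC (G1 w L z a b c s₁ s₂ s₃ t₁ t₂ t₃) (L ∪ {a, b, c, z}) r := by
  obtain ⟨s₁, s₂, s₃, m, hm, hsm, ma, mb, mc, i1, i2, i3⟩ := sep_nums_EC h hec hr hs hL hL0 hR
  set ea := ∑ y, wR w L a y with hea
  set eb := ∑ y, wR w L b y with heb
  set ec := ∑ y, wR w L c y with hecc
  have ab := hs.ab
  have ac := hs.ac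
  have bc := hs.bc
  have za : z ≠ a := fun e => hs.aR (e ▸ hz)
  have zb : z ≠ b := fun e => hs.bR (e ▸ hz)
  have zc : z ≠ c := fun e => hs.cR (e ▸ hz)
  have zL : z ∉ L := fun e => (Finset.disjoint_left.mp hs.dLR e) hz
  have aL := hs.aL
  have bL := hs.bL
  have cL := hs.cL
  have aS : a ∈ S := by rw [hs.un]; simp
  have bS : b ∈ S := by rw [hs.un]; simp
  have cS : c ∈ S := by rw [hs.un]; simp
  have LS : L ⊆ S := by
    intro x hx
    rw [hs.un]
    simp [hx]
  have zS : z ∈ S := by rw [hs.un]; simp [hz]
  -- the numbers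
  obtain ⟨t₁, ht1⟩ : ∃ t, t + m = ea + s₁ := ⟨ea - m + s₁, by omega⟩
  obtain ⟨t₂, ht2⟩ : ∃ t, t + m = eb + s₂ := ⟨eb - m + s₂, by omega⟩
  obtain ⟨t₃, ht3⟩ : ∃ t, t + m = ec + s₃ := ⟨ec - m + s₃, by omega⟩
  refine ⟨s₁, s₂, s₃, t₁, t₂, t₃, ?_⟩
  have hcut := M3_cutG w L ab ac bc za zb zc s₁ s₂ s₃ t₁ t₂ t₃
  set g := G1 w L z a b c s₁ s₂ s₃ t₁ t₂ t₃ with hg
  -- basic facts on `wL`, `wR`
  have wLs : ∀ x y, wL w L x y = wL w L y x := by
    intro x y
    unfold wL
    rw [h.symm x y]
    by_cases hxy : x ∈ L ∨ y ∈ L
    · rw [if_pos hxy, if_pos hxy.symm]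
    · rw [if_neg hxy, if_neg (fun e => hxy e.symm)]
  have wLi : ∀ x, wL w L x x = 0 := by
    intro x
    unfold wL
    rw [h.irr x, ite_self]
  have wRi : ∀ x, wR w L x x = 0 := by
    intro x
    unfold wR
    rw [h.irr x, ite_self]
  have wRsupp : ∀ x y, wR w L x y ≠ 0 → x ∈ S \ L ∧ y ∈ S \ L := by
    intro x y hne
    unfold wR at hne
    by_cases hxy : x ∈ L ∨ y ∈ L
    · rw [if_pos hxy] at hne
      exact absurd rfl hne
    · rw [if_neg hxy] at hne
      rw [not_or] at hxy
      have h1 := h.supp x y hne
      rw [h.symm x y] at hne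
      have h2 := h.supp y x hne
      exact ⟨Finset.mem_sdiff.mpr ⟨h1, hxy.1⟩, Finset.mem_sdiff.mpr ⟨h2, hxy.2⟩⟩
  have wLsupp : ∀ x y, wL w L x y ≠ 0 → x ∈ L ∪ {a, b, c, z} := by
    intro x y hne
    unfold wL at hne
    by_cases hxy : x ∈ L ∨ y ∈ L
    · rw [if_pos hxy] at hne
      by_cases hx : x ∈ L
      · exact Finset.mem_union_left _ hx
      · have hy : y ∈ L := hxy.resolve_left hx
        have h1 := h.supp x y hne
        rw [hs.un] at h1
        simp only [Finset.mem_union, Finset.mem_insert, Finset.mem_singleton] at h1 ⊢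
        rcases h1 with (h1 | h1) | h1
        · exact absurd h1 hx
        · exfalso
          rw [h.symm x y] at hne
          exact hne (hs.no y hy x h1)
        · tauto
    · rw [if_neg hxy] at hne
      exact absurd rfl hne
  have csplit : ∀ X, cut w X = cut (wL w L) X + cut (wR w L) X := by
    intro X
    rw [← cut_add]
    exact cut_congr (M3_split w L) X
  -- symmetry and support of `g`
  have gs : ∀ x y, g x y = g y x := by
    intro x y
    rw [hg]
    unfold G1
    rw [wLs x y, ed_symm b c s₁ x y, ed_symm a c s₂ x y, ed_symm a b s₃ x y, ed_symm z a t₁ x y,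
      ed_symm z b t₂ x y, ed_symm z c t₃ x y]
  have gi : ∀ x, g x x = 0 := by
    intro x
    rw [hg]
    unfold G1
    rw [wLi, M3_ed_irr bc, M3_ed_irr ac, M3_ed_irr ab, M3_ed_irr za, M3_ed_irr zb,
      M3_ed_irr zc]
  have gsupp : ∀ x y, g x y ≠ 0 → x ∈ L ∪ {a, b, c, z} := by
    intro x y hne
    by_contra hx
    apply hne
    have hx' := hx
    simp only [Finset.mem_union, Finset.mem_insert, Finset.mem_singleton, not_or] at hx'
    obtain ⟨_, xa, xb, xc, xz⟩ := hx'
    have e0 : wL w L x y = 0 := by
      by_contra h0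
      exact hx (wLsupp x y h0)
    have e : ∀ (p q : V) (k : ℕ), x ≠ p → x ≠ q → ed p q k x y = 0 := by
      intro p q k hp hq
      by_contra h0
      rcases M3_ed_supp h0 with ⟨h1, _⟩ | ⟨h1, _⟩
      · exact hp h1
      · exact hq h1
    rw [hg]
    unfold G1
    rw [e0, e b c s₁ xb xc, e a c s₂ xa xc, e a b s₃ xa xb, e z a t₁ xz xa, e z b t₂ xz xb,
      e z c t₃ xz xc]
  -- the degrees in `w`
  have hda : ∀ x ∈ S, ∑ y, wL w L x y + ∑ y, wR w L x y = r := by
    intro x hx
    rw [← h.deg x hx, ← Finset.sum_add_distrib]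
    exact Finset.sum_congr rfl fun y _ => (M3_split w L x y).symm
  have da := hda a aS
  have db := hda b bS
  have dc := hda c cS
  rw [← hea] at da
  rw [← heb] at db
  rw [← hecc] at dc
  -- main inequality for `z ∉ X`
  have main : ∀ X ⊆ L ∪ {a, b, c, z}, X.Nonempty → z ∉ X → r ≤ cut g X := by
    intro X hX hne hzX
    have hXm : ∀ x ∈ X, x ∈ L ∨ x = a ∨ x = b ∨ x = c := by
      intro x hx
      have h1 := hX hx
      simp only [Finset.mem_union, Finset.mem_insert, Finset.mem_singleton] at h1
      rcases h1 with h1 | h1 | h1 | h1 | h1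
      · exact Or.inl h1
      · exact Or.inr (Or.inl h1)
      · exact Or.inr (Or.inr (Or.inl h1))
      · exact Or.inr (Or.inr (Or.inr h1))
      · exact absurd (h1 ▸ hx) hzX
    have hXS : X ⊆ S := by
      intro x hx
      rcases hXm x hx with h1 | h1 | h1 | h1
      · exact LS h1
      · rw [h1]; exact aS
      · rw [h1]; exact bS
      · rw [h1]; exact cS
    have hwX : r ≤ cut w X := hec X hXS hne (fun e => hzX (e ▸ zS))
    -- a set with two of the three vertices
    have two : ∀ p q t : V, (∀ x ∈ X, x ∈ L ∨ x = t ∨ x = p ∨ x = q) → p ≠ q → p ∉ L → q ∉ L →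
        p ∈ X → q ∈ X → t ∉ X → ∃ Y ⊆ L, {p, q} ∪ Y = X := by
      intro p q t hm' hpq hpL hqL hp hq ht
      refine ⟨X ∩ L, Finset.inter_subset_right, ?_⟩
      ext x
      simp only [Finset.mem_union, Finset.mem_insert, Finset.mem_singleton, Finset.mem_inter]
      constructor
      · rintro ((rfl | rfl) | h1)
        · exact hp
        · exact hq
        · exact h1.1
      · intro hx
        rcases hm' x hx with h1 | h1 | h1 | h1
        · exact Or.inr ⟨hx, h1⟩
        · exact absurd (h1 ▸ hx) ht
        · exact Or.inl (Or.inl h1)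
        · exact Or.inl (Or.inr h1)
    -- exactly one of the three vertices
    have one : ∀ p : V, p ∈ X → p ∈ S → p ∉ L → (∀ x ∈ X, x ∈ L ∨ x = p) →
        r ≤ cut (wL w L) X + ∑ y, wR w L p y := by
      intro p hp hpS hpL hm'
      have h1 := hwX
      rw [csplit] at h1
      have h2 : cut (wR w L) X = cut (wR w L) {p} := by
        refine cut_supp wRsupp ?_
        ext x
        simp only [Finset.mem_inter, Finset.mem_sdiff, Finset.mem_singleton]
        constructor
        · rintro ⟨hx, hxS, hxL⟩
          rcases hm' x hx with h3 | h3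
          · exact absurd h3 hxL
          · exact ⟨h3, hxS, hxL⟩
        · rintro ⟨rfl, hxS, hxL⟩
          exact ⟨hp, hxS, hxL⟩
      rw [h2, cut_singleton wRi] at h1
      exact h1
    rw [hcut]
    by_cases hA : a ∈ X <;> by_cases hB : b ∈ X <;> by_cases hC : c ∈ X
    · -- all three
      simp only [hA, hB, hC, hzX, not_true_eq_false, not_false_eq_true, and_true, and_false,
        or_false, or_true, if_true, if_false, false_and, true_and, or_self, add_zero]
      omega
    · -- a, b
      obtain ⟨Y, hY, e⟩ := two a b c (fun x hx => by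
        rcases hXm x hx with h1 | h1 | h1 | h1 <;> tauto) ab aL bL hA hB hC
      have h1 := i3 Y hY
      rw [e] at h1
      simp only [hA, hB, hC, hzX, not_true_eq_false, not_false_eq_true, and_true, and_false,
        or_false, or_true, if_true, if_false, false_and, true_and, or_self, add_zero]
      omega
    · -- a, c
      obtain ⟨Y, hY, e⟩ := two a c b (fun x hx => by
        rcases hXm x hx with h1 | h1 | h1 | h1 <;> tauto) ac aL cL hA hC hB
      have h1 := i2 Y hY
      rw [e] at h1
      simp only [hA, hB, hC, hzX, not_true_eq_false, not_false_eq_true, and_true, and_false,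
        or_false, or_true, if_true, if_false, false_and, true_and, or_self, add_zero]
      omega
    · -- a
      have h1 := one a hA aS aL (fun x hx => by
        rcases hXm x hx with h1 | h1 | h1 | h1
        · exact Or.inl h1
        · exact Or.inr h1
        · exact absurd (h1 ▸ hx) hB
        · exact absurd (h1 ▸ hx) hC)
      rw [← hea] at h1
      simp only [hA, hB, hC, hzX, not_true_eq_false, not_false_eq_true, and_true, and_false,
        or_false, or_true, if_true, if_false, false_and, true_and, or_self, add_zero]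
      omega
    · -- b, c
      obtain ⟨Y, hY, e⟩ := two b c a (fun x hx => by
        rcases hXm x hx with h1 | h1 | h1 | h1 <;> tauto) bc bL cL hB hC hA
      have h1 := i1 Y hY
      rw [e] at h1
      simp only [hA, hB, hC, hzX, not_true_eq_false, not_false_eq_true, and_true, and_false,
        or_false, or_true, if_true, if_false, false_and, true_and, or_self, add_zero]
      omega
    · -- b
      have h1 := one b hB bS bL (fun x hx => by
        rcases hXm x hx with h1 | h1 | h1 | h1
        · exact Or.inl h1
        · exact absurd (h1 ▸ hx) hA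
        · exact Or.inr h1
        · exact absurd (h1 ▸ hx) hC)
      rw [← heb] at h1
      simp only [hA, hB, hC, hzX, not_true_eq_false, not_false_eq_true, and_true, and_false,
        or_false, or_true, if_true, if_false, false_and, true_and, or_self, add_zero]
      omega
    · -- c
      have h1 := one c hC cS cL (fun x hx => by
        rcases hXm x hx with h1 | h1 | h1 | h1
        · exact Or.inl h1
        · exact absurd (h1 ▸ hx) hA
        · exact absurd (h1 ▸ hx) hB
        · exact Or.inr h1)
      rw [← hecc] at h1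
      simp only [hA, hB, hC, hzX, not_true_eq_false, not_false_eq_true, and_true, and_false,
        or_false, or_true, if_true, if_false, false_and, true_and, or_self, add_zero]
      omega
    · -- none
      have h1 := hwX
      rw [csplit] at h1
      have h2 : cut (wR w L) X = cut (wR w L) ∅ := by
        refine cut_supp wRsupp ?_
        ext x
        simp only [Finset.mem_inter, Finset.mem_sdiff, Finset.notMem_empty, false_and,
          iff_false, not_and, not_not]
        intro hx hxS
        rcases hXm x hx with h3 | h3 | h3 | h3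
        · exact h3
        · exact absurd (h3 ▸ hx) hA
        · exact absurd (h3 ▸ hx) hB
        · exact absurd (h3 ▸ hx) hC
      rw [h2, cut_empty] at h1
      simp only [hA, hB, hC, hzX, not_true_eq_false, not_false_eq_true, and_true, and_false,
        or_false, or_true, if_true, if_false, false_and, true_and, or_self, add_zero]
      omega
  have hTe : Even (L ∪ {a, b, c, z} : Finset V).card := by
    have e1 : Disjoint L ({a, b, c, z} : Finset V) := by
      rw [Finset.disjoint_left]
      intro x hx hx'
      simp only [Finset.mem_insert, Finset.mem_singleton] at hx'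
      rcases hx' with rfl | rfl | rfl | rfl
      · exact aL hx
      · exact bL hx
      · exact cL hx
      · exact zL hx
    rw [Finset.card_union_of_disjoint e1]
    have e2 : ({a, b, c, z} : Finset V).card = 4 := by
      rw [Finset.card_insert_of_notMem, Finset.card_insert_of_notMem, Finset.card_pair zc.symm]
      · simp [bc, zb.symm]
      · simp [ab, ac, za.symm]
    rw [e2]
    exact hL.add (by decide)
  have hEC : EC g (L ∪ {a, b, c, z}) r := by
    intro X hX hne hXT
    by_cases hzX : z ∈ X
    · have h1 := main ((L ∪ {a, b, c, z}) \ X) Finset.sdiff_subset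
        (Finset.sdiff_nonempty.mpr fun e => hXT (Finset.Subset.antisymm hX e)) (by simp [hzX])
      have h2 : cut g X = cut g ((L ∪ {a, b, c, z}) \ X) := by
        rw [← cut_compl gs X]
        refine cut_supp (T := L ∪ {a, b, c, z}) (fun x y hne => ⟨gsupp x y hne,
          gsupp y x (by rw [← gs x y]; exact hne)⟩) ?_
        ext x
        simp only [Finset.mem_inter, Finset.mem_compl, Finset.mem_sdiff]
        tauto
      rw [h2]
      exact h1
    · exact main X hX hne hzX
  refine ⟨⟨gs, gi, gsupp, ?_, ?_⟩, hEC⟩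
  · intro x hx
    rw [← cut_singleton gi x, hcut, cut_singleton wLi x]
    simp only [Finset.mem_singleton]
    simp only [Finset.mem_union, Finset.mem_insert, Finset.mem_singleton] at hx
    rcases hx with hx | rfl | rfl | rfl | rfl
    · have xa : a ≠ x := fun e => aL (e ▸ hx)
      have xb : b ≠ x := fun e => bL (e ▸ hx)
      have xc : c ≠ x := fun e => cL (e ▸ hx)
      have xz : z ≠ x := fun e => zL (e ▸ hx)
      have h1 := hda x (LS hx)
      have h2 : ∑ y, wR w L x y = 0 := by
        refine Finset.sum_eq_zero fun y _ => ?_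
        unfold wR
        rw [if_pos (Or.inl hx)]
      simp only [xa, xb, xc, xz, false_and, or_self, if_false, add_zero]
      omega
    · simp only [ab.symm, ac.symm, za, not_true_eq_false, not_false_eq_true, and_true, and_false,
        or_false, or_true, if_true, if_false, false_and, true_and, or_self, add_zero]
      omega
    · simp only [ab, bc.symm, zb, not_true_eq_false, not_false_eq_true, and_true, and_false,
        or_false, or_true, if_true, if_false, false_and, true_and, or_self, add_zero]
      omega
    · simp only [ac, bc, zc, not_true_eq_false, not_false_eq_true, and_true, and_false,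
        or_false, or_true, if_true, if_false, false_and, true_and, or_self, add_zero]
      omega
    · have h2 : ∑ y, wL w L x y = 0 := by
        refine Finset.sum_eq_zero fun y _ => ?_
        unfold wL
        by_cases hxy : x ∈ L ∨ y ∈ L
        · rw [if_pos hxy, h.symm x y]
          exact hs.no y (hxy.resolve_left zL) x hz
        · rw [if_neg hxy]
      simp only [za.symm, zb.symm, zc.symm, not_true_eq_false, not_false_eq_true, and_true,
        and_false, or_false, or_true, if_true, if_false, false_and, true_and, or_self, add_zero]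
      omega
  · intro X hX hodd
    refine hEC X hX (Finset.card_pos.mp hodd.pos) ?_
    rintro rfl
    exact (Nat.not_even_iff_odd.mpr hodd) hTe

end RG3
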