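import Pool.Agent.Lib.MP_78ca69_co.R3.Skel
set_option autoImplicit false
set_option linter.unusedSectionVars false

namespace RG3

open Finset

variable {V : Type*} [Fintype V] [DecidableEq V]

private theorem S2_swap {w : V → V → ℕ} {S L R : Finset V} {a b c : V} (h : Sep w S L R a b c) :
    Sep w S L R b a c where
  ab := h.ab.symm
  ac := h.bc
  bc := h.ac
  un := by rw [h.un, Finset.insert_comm a b {c}]
  dLR := h.dLR
  aL := h.bL
  bL := h.aL
  cL := h.cL
  aR := h.bR
  bR := h.aR
  cR := h.cR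
  no := h.no

private theorem S2_swap' {w : V → V → ℕ} {S L R : Finset V} {a b c : V} (h : Sep w S L R a b c) :
    Sep w S L R a c b where
  ab := h.ac
  ac := h.ab
  bc := h.bc.symm
  un := by rw [h.un, Finset.pair_comm b c]
  dLR := h.dLR
  aL := h.aL
  bL := h.cL
  cL := h.bL
  aR := h.aR
  bR := h.cR
  cR := h.bR
  no := h.no

/-- edges from `L` go to `L` or `a, b, c` -/
private theorem S2_out {w : V → V → ℕ} {S L R : Finset V} {a b c : V} {r : ℕ} (h : RG w S r)
    (hs : Sep w S L R a b c) {x y : V} (hx : x ∈ L) (hy : y ∉ L) (ha : y ≠ a) (hb : y ≠ b)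
    (hc : y ≠ c) : w x y = 0 := by
  by_contra hne
  have hyS : y ∈ S := h.supp y x (by rw [h.symm]; exact hne)
  rw [hs.un] at hyS
  simp only [Finset.mem_union, Finset.mem_insert, Finset.mem_singleton] at hyS
  rcases hyS with (h1 | h1) | h1 | h1 | h1
  · exact hy h1
  · exact hne (hs.no x hx y h1)
  · exact ha h1
  · exact hb h1
  · exact hc h1

/-- the sum over `L` of the edges to outside of a set `Z ⊇ L` -/
private theorem S2_sum {w : V → V → ℕ} {S L R : Finset V} {a b c : V} {r : ℕ} (h : RG w S r)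
    (hs : Sep w S L R a b c) (Z : Finset V) (hZ : L ⊆ Z) :
    ∑ x ∈ L, ∑ y ∈ Zᶜ, w x y = (if a ∈ Z then 0 else ∑ y ∈ L, w a y) +
      (if b ∈ Z then 0 else ∑ y ∈ L, w b y) + (if c ∈ Z then 0 else ∑ y ∈ L, w c y) := by
  have h1 : ∀ x ∈ L, ∑ y ∈ Zᶜ, w x y = (if a ∈ Z then 0 else w a x) +
      (if b ∈ Z then 0 else w b x) + (if c ∈ Z then 0 else w c x) := by
    intro x hx
    have h2 : ∑ y ∈ Zᶜ, w x y = ∑ y ∈ ({a, b, c} : Finset V), if y ∈ Z then 0 else w x y := by
      have h3 : ∑ y ∈ Zᶜ, w x y = ∑ y, if y ∈ Z then 0 else w x y := by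
        rw [← Finset.sum_subset (Finset.subset_univ Zᶜ)]
        · refine Finset.sum_congr rfl fun y hy => ?_
          rw [Finset.mem_compl] at hy
          rw [if_neg hy]
        · intro y _ hy
          rw [Finset.mem_compl, not_not] at hy
          rw [if_pos hy]
      rw [h3]
      symm
      refine Finset.sum_subset (Finset.subset_univ _) ?_
      intro y _ hy
      simp only [Finset.mem_insert, Finset.mem_singleton, not_or] at hy
      by_cases hyZ : y ∈ Z
      · rw [if_pos hyZ]
      · rw [if_neg hyZ]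
        exact S2_out h hs hx (fun h4 => hyZ (hZ h4)) hy.1 hy.2.1 hy.2.2
    rw [h2, Finset.sum_insert (by simp [hs.ab, hs.ac]), Finset.sum_insert (by simp [hs.bc]),
      Finset.sum_singleton, h.symm x a, h.symm x b, h.symm x c, add_assoc]
  rw [Finset.sum_congr rfl h1, Finset.sum_add_distrib, Finset.sum_add_distrib]
  congr 1
  · congr 1
    · by_cases ha : a ∈ Z
      · simp [ha]
      · simp [ha]
    · by_cases hb : b ∈ Z
      · simp [hb]
      · simp [hb]
  · by_cases hc : c ∈ Z
    · simp [hc]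
    · simp [hc]

private theorem S2_even {w : V → V → ℕ} {S L R : Finset V} {a b c : V} {r : ℕ} (h : RG w S r)
    (hs : Sep w S L R a b c) (hL : Even L.card) :
    (∑ y ∈ L, w a y + ∑ y ∈ L, w b y + ∑ y ∈ L, w c y) % 2 = 0 := by
  have h1 := cut_parity h.symm h.irr L
  have h2 : cut w L = ∑ y ∈ L, w a y + ∑ y ∈ L, w b y + ∑ y ∈ L, w c y := by
    unfold cut
    rw [S2_sum h hs L (Finset.Subset.refl L), if_neg hs.aL, if_neg hs.bL, if_neg hs.cL]
  have h3 : ∑ x ∈ L, ∑ y, w x y = L.card * r := by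
    rw [Finset.sum_congr rfl fun x hx => h.deg x (by rw [hs.un]; simp [hx]), Finset.sum_const,
      smul_eq_mul]
  rw [h2, h3] at h1
  rw [h1]
  obtain ⟨k, hk⟩ := hL
  rw [hk, ← two_mul, mul_assoc, Nat.mul_mod_right]

private theorem S2_tri {w : V → V → ℕ} {S L R : Finset V} {a b c : V} {r : ℕ} (h : RG w S r)
    (hs : Sep w S L R a b c) (hL : Even L.card) :
    ∑ y ∈ L, w a y ≤ ∑ y ∈ L, w b y + ∑ y ∈ L, w c y := by
  have haS : a ∈ S := by rw [hs.un]; simp
  have hsub : insert a L ⊆ S := by
    intro x hx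
    rcases Finset.mem_insert.1 hx with rfl | hx
    · exact haS
    · rw [hs.un]; simp [hx]
  have hodd : Odd (insert a L).card := by
    rw [Finset.card_insert_of_notMem hs.aL]
    exact hL.add_one
  have h1 := h.odd _ hsub hodd
  unfold cut at h1
  rw [Finset.sum_insert hs.aL, S2_sum h hs (insert a L) (Finset.subset_insert a L),
    if_pos (Finset.mem_insert_self a L),
    if_neg (show b ∉ insert a L by simp [hs.ab.symm, hs.bL]),
    if_neg (show c ∉ insert a L by simp [hs.ac.symm, hs.cL])] at h1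
  have h2 := Finset.sum_add_sum_compl (insert a L) (fun y => w a y)
  rw [Finset.sum_insert hs.aL, h.irr a, h.deg a haS] at h2
  omega

/-- Row S2. The right side of a 3-separation with new edges is an `r`-graph.
With `d_a = ∑ y ∈ L, w a y` etc. put `n₁ = (d_b + d_c - d_a) / 2` etc. `d_a + d_b + d_c` is even
(`cut_parity` for `wL w L` and `L ∪ {a,b,c}`, or `L`), `d_a ≤ d_b + d_c` follows from `odd` for the set
`insert a L`. For `odd` of `G2`: if `X` contains at least two of `a, b, c` use the complement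
`(R ∪ {a,b,c}) \ X` (`cut_supp`, `cut_compl`), and if `X` contains at most one of `a, b, c` then
`cut (G2 ..) X = cut w X` as `w = wL + wR`. -/
theorem sep_G2 {w : V → V → ℕ} {S L R : Finset V} {a b c : V} {r : ℕ} (h : RG w S r) (hr : 0 < r)
    (hs : Sep w S L R a b c) (hL : Even L.card) (hR : Odd R.card) :
    ∃ n₁ n₂ n₃ : ℕ, n₂ + n₃ = ∑ y ∈ L, w a y ∧ n₁ + n₃ = ∑ y ∈ L, w b y ∧
      n₁ + n₂ = ∑ y ∈ L, w c y ∧ RG (G2 w L a b c n₁ n₂ n₃) (R ∪ {a, b, c}) r := by
  have he := S2_even h hs hL
  have ht1 := S2_tri h hs hL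
  have ht2 := S2_tri h (S2_swap hs) hL
  have ht3 := S2_tri h (S2_swap (S2_swap' hs)) hL
  obtain ⟨n₁, n₂, n₃, e1, e2, e3⟩ : ∃ n₁ n₂ n₃ : ℕ, n₂ + n₃ = ∑ y ∈ L, w a y ∧
      n₁ + n₃ = ∑ y ∈ L, w b y ∧ n₁ + n₂ = ∑ y ∈ L, w c y := by
    refine ⟨(∑ y ∈ L, w b y + ∑ y ∈ L, w c y - ∑ y ∈ L, w a y) / 2,
      (∑ y ∈ L, w a y + ∑ y ∈ L, w c y - ∑ y ∈ L, w b y) / 2,
      (∑ y ∈ L, w a y + ∑ y ∈ L, w b y - ∑ y ∈ L, w c y) / 2, ?_, ?_, ?_⟩ <;> omega
  refine ⟨n₁, n₂, n₃, e1, e2, e3, ?_⟩
  have hTL : ∀ x ∈ R ∪ {a, b, c}, x ∉ L := by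
    intro x hx hxL
    simp only [Finset.mem_union, Finset.mem_insert, Finset.mem_singleton] at hx
    rcases hx with h1 | rfl | rfl | rfl
    · exact Finset.disjoint_left.1 hs.dLR hxL h1
    · exact hs.aL hxL
    · exact hs.bL hxL
    · exact hs.cL hxL
  have hTS : R ∪ {a, b, c} ⊆ S := by
    intro x hx
    rw [hs.un]
    simp only [Finset.mem_union, Finset.mem_insert, Finset.mem_singleton] at hx ⊢
    tauto
  have hsym : ∀ x y, G2 w L a b c n₁ n₂ n₃ x y = G2 w L a b c n₁ n₂ n₃ y x := by
    intro x y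
    unfold G2 wR
    rw [ed_symm b c, ed_symm a c, ed_symm a b, h.symm x y]
    simp only [or_comm]
  have hirr : ∀ x, G2 w L a b c n₁ n₂ n₃ x x = 0 := by
    intro x
    have h1 : ∀ p q : V, ∀ k, p ≠ q → ed p q k x x = 0 := by
      intro p q k hpq
      unfold ed
      rw [if_neg]
      rintro (⟨h1, h2⟩ | ⟨h1, h2⟩)
      · exact hpq (h1.symm.trans h2)
      · exact hpq (h2.symm.trans h1)
    unfold G2 wR
    rw [h1 b c n₁ hs.bc, h1 a c n₂ hs.ac, h1 a b n₃ hs.ab, h.irr x]
    simp
  have hsupp : ∀ x y, G2 w L a b c n₁ n₂ n₃ x y ≠ 0 → x ∈ R ∪ {a, b, c} := by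
    intro x y hne
    by_contra hx
    apply hne
    simp only [Finset.mem_union, Finset.mem_insert, Finset.mem_singleton, not_or] at hx
    have h1 : wR w L x y = 0 := by
      unfold wR
      split_ifs with h2
      · rfl
      · by_contra h3
        have h4 := h.supp x y h3
        rw [hs.un] at h4
        simp only [Finset.mem_union, Finset.mem_insert, Finset.mem_singleton] at h4
        tauto
    have h2 : ed b c n₁ x y = 0 := by unfold ed; rw [if_neg]; tauto
    have h3 : ed a c n₂ x y = 0 := by unfold ed; rw [if_neg]; tauto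
    have h4 : ed a b n₃ x y = 0 := by unfold ed; rw [if_neg]; tauto
    unfold G2
    rw [h1, h2, h3, h4]
  -- the sums over L
  have hdd : ∀ X : Finset V, X ⊆ R ∪ {a, b, c} → ∑ x ∈ X, ∑ y ∈ L, w x y =
      (if a ∈ X then ∑ y ∈ L, w a y else 0) + (if b ∈ X then ∑ y ∈ L, w b y else 0) +
        (if c ∈ X then ∑ y ∈ L, w c y else 0) := by
    intro X hX
    have h1 : ∑ x ∈ X, ∑ y ∈ L, w x y =
        ∑ x ∈ ({a, b, c} : Finset V), if x ∈ X then ∑ y ∈ L, w x y else 0 := by
      have h2 : ∑ x ∈ X, ∑ y ∈ L, w x y = ∑ x, if x ∈ X then ∑ y ∈ L, w x y else 0 := by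
        rw [Finset.sum_ite_mem, Finset.univ_inter]
      rw [h2]
      symm
      refine Finset.sum_subset (Finset.subset_univ _) ?_
      intro x _ hx
      simp only [Finset.mem_insert, Finset.mem_singleton, not_or] at hx
      by_cases hxX : x ∈ X
      · rw [if_pos hxX]
        refine Finset.sum_eq_zero fun y hy => ?_
        have hxR : x ∈ R := by
          have := hX hxX
          simp only [Finset.mem_union, Finset.mem_insert, Finset.mem_singleton] at this
          tauto
        rw [h.symm]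
        exact hs.no y hy x hxR
      · rw [if_neg hxX]
    rw [h1, Finset.sum_insert (by simp [hs.ab, hs.ac]), Finset.sum_insert (by simp [hs.bc]),
      Finset.sum_singleton, add_assoc]
  have hcutL : ∀ X : Finset V, X ⊆ R ∪ {a, b, c} → cut w X = cut (wR w L) X +
      ∑ x ∈ X, ∑ y ∈ L, w x y := by
    intro X hX
    unfold cut
    rw [← Finset.sum_add_distrib]
    refine Finset.sum_congr rfl fun x hx => ?_
    have hxL : x ∉ L := hTL x (hX hx)
    have h1 : ∑ y ∈ L, w x y = ∑ y ∈ Xᶜ, if y ∈ L then w x y else 0 := by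
      rw [Finset.sum_ite_mem, Finset.inter_eq_right.2]
      intro y hy
      rw [Finset.mem_compl]
      exact fun hyX => hTL y (hX hyX) hy
    rw [h1, ← Finset.sum_add_distrib]
    refine Finset.sum_congr rfl fun y _ => ?_
    unfold wR
    by_cases hyL : y ∈ L
    · rw [if_pos (Or.inr hyL), if_pos hyL, zero_add]
    · rw [if_neg (by tauto), if_neg hyL, add_zero]
  have hcutG : ∀ X : Finset V, cut (G2 w L a b c n₁ n₂ n₃) X = cut (wR w L) X +
      (if (b ∈ X ∧ c ∉ X) ∨ (c ∈ X ∧ b ∉ X) then n₁ else 0) +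
      (if (a ∈ X ∧ c ∉ X) ∨ (c ∈ X ∧ a ∉ X) then n₂ else 0) +
      (if (a ∈ X ∧ b ∉ X) ∨ (b ∈ X ∧ a ∉ X) then n₃ else 0) := by
    intro X
    rw [← cut_ed hs.bc n₁ X, ← cut_ed hs.ac n₂ X, ← cut_ed hs.ab n₃ X]
    unfold G2
    rw [cut_add (fun x y => wR w L x y + ed b c n₁ x y + ed a c n₂ x y),
      cut_add (fun x y => wR w L x y + ed b c n₁ x y), cut_add]
  have hfew : ∀ X : Finset V, X ⊆ R ∪ {a, b, c} → Odd X.card →
      ¬ (a ∈ X ∧ b ∈ X) → ¬ (a ∈ X ∧ c ∈ X) → ¬ (b ∈ X ∧ c ∈ X) →
      r ≤ cut (G2 w L a b c n₁ n₂ n₃) X := by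
    intro X hX hodd hab hac hbc
    have h1 := h.odd X (hX.trans hTS) hodd
    rw [hcutL X hX, hdd X hX] at h1
    rw [hcutG X]
    by_cases ha : a ∈ X
    · have hb : b ∉ X := fun hb => hab ⟨ha, hb⟩
      have hc : c ∉ X := fun hc => hac ⟨ha, hc⟩
      simp only [ha, hb, hc, if_true, if_false, true_and, false_and, and_true, and_false,
        not_true, not_false_iff, or_false, false_or] at h1 ⊢
      omega
    · by_cases hb : b ∈ X
      · have hc : c ∉ X := fun hc => hbc ⟨hb, hc⟩
        simp only [ha, hb, hc, if_true, if_false, true_and, false_and, and_true, and_false,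
          not_true, not_false_iff, or_false, false_or] at h1 ⊢
        omega
      · by_cases hc : c ∈ X
        · simp only [ha, hb, hc, if_true, if_false, true_and, false_and, and_true, and_false,
            not_true, not_false_iff, or_false, false_or] at h1 ⊢
          omega
        · simp only [ha, hb, hc, if_true, if_false, true_and, false_and, and_true, and_false,
            not_true, not_false_iff, or_false, false_or] at h1 ⊢
          omega
  refine ⟨hsym, hirr, hsupp, ?_, ?_⟩
  · intro x hx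
    have h1 : ∑ y, G2 w L a b c n₁ n₂ n₃ x y = cut (G2 w L a b c n₁ n₂ n₃) {x} :=
      (cut_singleton hirr x).symm
    have h2 := hcutL {x} (Finset.singleton_subset_iff.2 hx)
    rw [hdd {x} (Finset.singleton_subset_iff.2 hx), cut_singleton h.irr, h.deg x (hTS hx)] at h2
    rw [h1, hcutG]
    simp only [Finset.mem_singleton] at h2 ⊢
    by_cases ha : a = x
    · have hb : b ≠ x := fun h3 => hs.ab (ha.trans h3.symm)
      have hc : c ≠ x := fun h3 => hs.ac (ha.trans h3.symm)
      simp only [ha, hb, hc, if_true, if_false, true_and, false_and, and_true, and_false,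
        not_true, not_false_iff, or_false, false_or] at h2 ⊢
      rw [← ha] at h2 ⊢
      omega
    · by_cases hb : b = x
      · have hc : c ≠ x := fun h3 => hs.bc (hb.trans h3.symm)
        simp only [ha, hb, hc, if_true, if_false, true_and, false_and, and_true, and_false,
          not_true, not_false_iff, or_false, false_or] at h2 ⊢
        rw [← hb] at h2 ⊢
        omega
      · by_cases hc : c = x
        · simp only [ha, hb, hc, if_true, if_false, true_and, false_and, and_true, and_false,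
            not_true, not_false_iff, or_false, false_or] at h2 ⊢
          rw [← hc] at h2 ⊢
          omega
        · simp only [ha, hb, hc, if_true, if_false, true_and, false_and, and_true, and_false,
            not_true, not_false_iff, or_false, false_or] at h2 ⊢
          omega
  · intro X hX hodd
    by_cases htwo : (a ∈ X ∧ b ∈ X) ∨ (a ∈ X ∧ c ∈ X) ∨ (b ∈ X ∧ c ∈ X)
    · have hcomp : cut (G2 w L a b c n₁ n₂ n₃) X =
          cut (G2 w L a b c n₁ n₂ n₃) ((R ∪ {a, b, c}) \ X) := by
        rw [← cut_compl hsym X]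
        refine cut_supp (T := R ∪ {a, b, c}) (fun x y hne => ⟨hsupp x y hne, hsupp y x ?_⟩) ?_
        · rw [hsym]; exact hne
        · ext x
          simp only [Finset.mem_inter, Finset.mem_compl, Finset.mem_sdiff]
          tauto
      rw [hcomp]
      have hcard : (R ∪ {a, b, c}).card = R.card + 3 := by
        rw [Finset.card_union_of_disjoint, Finset.card_eq_three.2 ⟨a, b, c, hs.ab, hs.ac, hs.bc, rfl⟩]
        rw [Finset.disjoint_right]
        intro x hx
        simp only [Finset.mem_insert, Finset.mem_singleton] at hx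
        rcases hx with rfl | rfl | rfl
        · exact hs.aR
        · exact hs.bR
        · exact hs.cR
      have hodd' : Odd ((R ∪ {a, b, c}) \ X).card := by
        rw [Finset.card_sdiff_of_subset hX, hcard]
        obtain ⟨k, hk⟩ := hodd
        obtain ⟨l, hl⟩ := hR
        have hle : X.card ≤ R.card + 3 := hcard ▸ Finset.card_le_card hX
        refine ⟨(R.card + 3 - X.card) / 2, ?_⟩
        omega
      refine hfew _ Finset.sdiff_subset hodd' ?_ ?_ ?_ <;>
      · simp only [Finset.mem_sdiff]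
        tauto
    · push Not at htwo
      exact hfew X hX hodd (fun h1 => htwo.1 h1.1 h1.2) (fun h1 => htwo.2.1 h1.1 h1.2)
        (fun h1 => htwo.2.2 h1.1 h1.2)

end RG3
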