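import Pool.Agent.Lib.MP_78ca69_co.R3.B
import Pool.Agent.Lib.MP_78ca69_co.R3.S2
import Pool.Agent.Lib.MP_78ca69_co.R3.S1b
import Pool.Agent.Lib.MP_78ca69_co.R3.G
import Pool.Agent.Lib.MP_78ca69_co.R3.E1
import Pool.Agent.Lib.MP_78ca69_co.R3.E2
import Pool.Agent.Lib.MP_78ca69_co.R3.E3
import Pool.Agent.Lib.MP_78ca69_co.R3.E4

set_option autoImplicit false
set_option linter.unusedSectionVars false

namespace RG3

open Finset

section main

variable {V : Type*} [Fintype V] [DecidableEq V]

theorem RG.supp' {w : V → V → ℕ} {S : Finset V} {r : ℕ} (h : RG w S r) (x y : V)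
    (hxy : w x y ≠ 0) : x ∈ S ∧ y ∈ S :=
  ⟨h.supp x y hxy, h.supp y x (by rw [h.symm y x]; exact hxy)⟩

theorem RG.cut_self {w : V → V → ℕ} {S : Finset V} {r : ℕ} (h : RG w S r) : cut w S = 0 := by
  unfold cut
  refine Finset.sum_eq_zero fun x _ => Finset.sum_eq_zero fun y hy => ?_
  by_contra hne
  exact (Finset.mem_compl.1 hy) (h.supp' x y hne).2

theorem RG.even_card {w : V → V → ℕ} {S : Finset V} {r : ℕ} (h : RG w S r) (hr : 0 < r) :
    Even S.card := by
  by_contra hne
  have := h.odd S (Finset.Subset.refl S) (Nat.not_even_iff_odd.1 hne)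
  rw [h.cut_self] at this
  omega

theorem dec_zero {w : V → V → ℕ} {S : Finset V} (h : RG w S 0) : Dec w S 0 := by
  refine ⟨fun i => i.elim0, fun i => i.elim0, ?_⟩
  intro u hu v _
  have h1 := h.deg u hu
  have h2 : w u v ≤ ∑ y, w u y := Finset.single_le_sum (fun _ _ => Nat.zero_le _) (Finset.mem_univ v)
  simp only [Finset.univ_eq_empty, Finset.filter_empty, Finset.card_empty]
  omega

/-- `r`-graphs with an elimination structure of width at most 3 are sums of `r` perfect matchings. -/
theorem dec_of_EO : ∀ (n : ℕ) (w : V → V → ℕ) (S : Finset V) (r : ℕ), S.card = n → RG w S r →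
    EO w S → Dec w S r := by
  intro n
  induction n using Nat.strong_induction_on with
  | _ n ih =>
    intro w S r hn h hE
    rcases Nat.eq_zero_or_pos r with rfl | hr
    · exact dec_zero h
    by_cases h8 : S.card ≤ 8
    · exact small_dec h h8
    have hev := h.even_card hr
    have h10 : 10 ≤ S.card := by
      obtain ⟨k, hk⟩ := hev
      omega
    obtain ⟨σ, N0, hV0, hf0⟩ := hE
    obtain ⟨N, hV, hsub, hmax⟩ := exists_maximal hV0
    have hf : Fits w N S := by
      intro x hx y hy hxy
      rcases hf0 x hx y hy hxy with h1 | h1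
      · exact Or.inl (hsub y hy h1)
      · exact Or.inr (hsub x hx h1)
    obtain ⟨hZ, hZ2⟩ := maximal_small hV hmax
    obtain ⟨a, b, c, L, R, hs, hab, hac, hbc, hLe, hL2, hRo, hR3⟩ :=
      exists_sep hV hf hZ hZ2 h10 hev
    have hL0 : L.Nonempty := Finset.card_pos.1 (by omega)
    obtain ⟨z, hz⟩ : R.Nonempty := Finset.card_pos.1 (by omega)
    obtain ⟨n₁, n₂, n₃, e1, e2, e3, hG2⟩ := sep_G2 h hr hs hLe hRo
    obtain ⟨s₁, s₂, s₃, t₁, t₂, t₃, hG1⟩ := sep_G1 h hr hs hLe hL0 hRo hz
    have hE2 := EO_G2 hV hf hs hab hac hbc n₁ n₂ n₃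
    have hE1 := EO_G1 hV hf hs h.symm hab hac hbc hz s₁ s₂ s₃ t₁ t₂ t₃
    have hcS : S.card = L.card + R.card + 3 := by
      rw [hs.un, Finset.card_union_of_disjoint, Finset.card_union_of_disjoint hs.dLR,
        Finset.card_eq_three.2 ⟨a, b, c, hs.ab, hs.ac, hs.bc, rfl⟩]
      rw [Finset.disjoint_left]
      intro x hx hx'
      simp only [Finset.mem_insert, Finset.mem_singleton] at hx'
      rw [Finset.mem_union] at hx
      rcases hx' with rfl | rfl | rfl
      · exact hx.elim hs.aL hs.aR
      · exact hx.elim hs.bL hs.bR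
      · exact hx.elim hs.cL hs.cR
    have hc2 : (R ∪ {a, b, c}).card ≤ R.card + 3 := by
      refine (Finset.card_union_le _ _).trans ?_
      have := Finset.card_le_three (a := a) (b := b) (c := c)
      omega
    have hc1 : (L ∪ {a, b, c, z}).card ≤ L.card + 4 := by
      refine (Finset.card_union_le _ _).trans ?_
      have := Finset.card_le_four (a := a) (b := b) (c := c) (d := z)
      omega
    have D2 := ih _ (by omega) _ _ r rfl hG2 hE2
    have D1 := ih _ (by omega) _ _ r rfl hG1 hE1
    exact sep_glue h.symm h.irr hs hz e1 e2 e3 D2 D1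

end main

end RG3
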