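import Pool.Agent.Lib.MP_78ca69_co.R3.Skel
set_option autoImplicit false
set_option linter.unusedSectionVars false

namespace RG3

open Finset

variable {V : Type*} [Fintype V] [DecidableEq V]

/-- the support of a component -/
private noncomputable def PM_X {S : Finset V} {G : SimpleGraph {v // v ∈ S}} {U : Set {v // v ∈ S}}
    (c : ((⊤ : G.Subgraph).deleteVerts U).coe.ConnectedComponent) : Finset V :=
  (c.supp.toFinite.toFinset).image (fun x => x.1.1)

private theorem PM_mem_X {S : Finset V} {G : SimpleGraph {v // v ∈ S}} {U : Set {v // v ∈ S}}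
    (c : ((⊤ : G.Subgraph).deleteVerts U).coe.ConnectedComponent) (v : V) :
    v ∈ PM_X c ↔ ∃ x : ((⊤ : G.Subgraph).deleteVerts U).verts,
      x ∈ c.supp ∧ x.1.1 = v := by
  unfold PM_X
  rw [Finset.mem_image]
  simp only [Set.Finite.mem_toFinset]

private theorem PM_card_X {S : Finset V} {G : SimpleGraph {v // v ∈ S}} {U : Set {v // v ∈ S}}
    (c : ((⊤ : G.Subgraph).deleteVerts U).coe.ConnectedComponent) :
    (PM_X c).card = c.supp.ncard := by
  unfold PM_X
  rw [Finset.card_image_of_injective, ← Set.ncard_eq_toFinset_card]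
  intro x y hxy
  exact Subtype.ext (Subtype.ext hxy)

private theorem PM_sub {S : Finset V} {G : SimpleGraph {v // v ∈ S}} {U : Set {v // v ∈ S}}
    (c : ((⊤ : G.Subgraph).deleteVerts U).coe.ConnectedComponent) : PM_X c ⊆ S := by
  intro v hv
  obtain ⟨x, _, rfl⟩ := (PM_mem_X c v).1 hv
  exact x.1.2

private theorem PM_cut {w : V → V → ℕ} {S : Finset V} {r : ℕ} (h : RG w S r)
    {G : SimpleGraph {v // v ∈ S}} (hG : ∀ u v : {v // v ∈ S}, w (u : V) (v : V) ≠ 0 → G.Adj u v)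
    {U : Set {v // v ∈ S}} (c : ((⊤ : G.Subgraph).deleteVerts U).coe.ConnectedComponent) :
    cut w (PM_X c) ≤ ∑ x ∈ PM_X c, ∑ y ∈ (U.toFinite.toFinset).image Subtype.val, w y x := by
  unfold cut
  refine Finset.sum_le_sum fun x hx => ?_
  have h1 : ∑ y ∈ (PM_X c)ᶜ, w x y =
      ∑ y ∈ (PM_X c)ᶜ.filter (fun y => w x y ≠ 0), w x y := by
    rw [Finset.sum_filter_ne_zero]
  rw [h1]
  have h2 : ∑ y ∈ (PM_X c)ᶜ.filter (fun y => w x y ≠ 0), w x y ≤
      ∑ y ∈ (U.toFinite.toFinset).image Subtype.val, w x y := by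
    refine Finset.sum_le_sum_of_subset ?_
    intro y hy
    rw [Finset.mem_filter, Finset.mem_compl] at hy
    obtain ⟨hy1, hy2⟩ := hy
    have hyS : y ∈ S := h.supp y x (by rw [h.symm]; exact hy2)
    rw [Finset.mem_image]
    refine ⟨⟨y, hyS⟩, ?_, rfl⟩
    rw [Set.Finite.mem_toFinset]
    by_contra hyU
    apply hy1
    obtain ⟨x', hx', hxx⟩ := (PM_mem_X c x).1 hx
    have hmem : (⟨y, hyS⟩ : {v // v ∈ S}) ∈ ((⊤ : G.Subgraph).deleteVerts U).verts := by
      rw [SimpleGraph.Subgraph.deleteVerts_verts]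
      exact ⟨Set.mem_univ _, hyU⟩
    refine (PM_mem_X c y).2 ⟨⟨⟨y, hyS⟩, hmem⟩, ?_, rfl⟩
    rw [SimpleGraph.ConnectedComponent.mem_supp_iff] at hx' ⊢
    rw [← hx', SimpleGraph.ConnectedComponent.eq]
    apply SimpleGraph.Adj.reachable
    rw [SimpleGraph.Subgraph.coe_adj, SimpleGraph.Subgraph.deleteVerts_adj]
    have hx'm : x'.1 ∈ (⊤ : G.Subgraph).verts \ U := x'.2
    refine ⟨Set.mem_univ _, hyU, Set.mem_univ _, hx'm.2, ?_⟩
    rw [SimpleGraph.Subgraph.top_adj]
    apply hG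
    rw [h.symm]
    rw [← hxx] at hy2
    exact hy2
  refine h2.trans (le_of_eq ?_)
  exact Finset.sum_congr rfl fun y _ => h.symm x y

private theorem PM_viol {w : V → V → ℕ} {S : Finset V} {r : ℕ} (h : RG w S r) (hr : 0 < r)
    {G : SimpleGraph {v // v ∈ S}} (hG : ∀ u v : {v // v ∈ S}, w (u : V) (v : V) ≠ 0 → G.Adj u v)
    (U : Set {v // v ∈ S}) : ¬ G.IsTutteViolator U := by
  classical
  intro hU
  unfold SimpleGraph.IsTutteViolator at hU
  obtain ⟨O, hO⟩ : ∃ O : Finset (((⊤ : G.Subgraph).deleteVerts U).coe.ConnectedComponent),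
      ∀ c, c ∈ O ↔ c ∈ ((⊤ : G.Subgraph).deleteVerts U).coe.oddComponents :=
    ⟨(Set.toFinite _).toFinset, fun c => Set.Finite.mem_toFinset _⟩
  have hOc : ((⊤ : G.Subgraph).deleteVerts U).coe.oddComponents.ncard = O.card := by
    rw [← Set.ncard_coe_finset]
    congr 1
    ext c
    rw [Finset.mem_coe, hO]
  have hUc : U.ncard = ((U.toFinite.toFinset).image Subtype.val).card := by
    rw [Finset.card_image_of_injective _ Subtype.val_injective, ← Set.ncard_eq_toFinset_card]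
  have h1 : r * O.card ≤ ∑ c ∈ O, cut w (PM_X c) := by
    rw [mul_comm, ← smul_eq_mul, ← Finset.sum_const]
    refine Finset.sum_le_sum fun c hc => ?_
    apply h.odd _ (PM_sub c)
    rw [PM_card_X]
    exact (hO c).1 hc
  have hdisj : ∀ c ∈ O, ∀ c' ∈ O, c ≠ c' → Disjoint (PM_X c) (PM_X c') := by
    intro c _ c' _ hcc
    rw [Finset.disjoint_left]
    intro v hv hv'
    obtain ⟨x, hx, hxv⟩ := (PM_mem_X c v).1 hv
    obtain ⟨x', hx', hxv'⟩ := (PM_mem_X c' v).1 hv'
    have hxx : x = x' := Subtype.ext (Subtype.ext (hxv.trans hxv'.symm))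
    rw [SimpleGraph.ConnectedComponent.mem_supp_iff] at hx hx'
    apply hcc
    rw [← hx, ← hx', hxx]
  have h2 : ∑ c ∈ O, cut w (PM_X c) ≤
      ∑ y ∈ (U.toFinite.toFinset).image Subtype.val, ∑ x, w y x := by
    calc ∑ c ∈ O, cut w (PM_X c)
        ≤ ∑ c ∈ O, ∑ x ∈ PM_X c, ∑ y ∈ (U.toFinite.toFinset).image Subtype.val, w y x :=
          Finset.sum_le_sum fun c _ => PM_cut h hG c
      _ = ∑ x ∈ O.biUnion PM_X, ∑ y ∈ (U.toFinite.toFinset).image Subtype.val, w y x := by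
          rw [Finset.sum_biUnion]
          intro c hc c' hc' hne
          exact hdisj c hc c' hc' hne
      _ ≤ ∑ x, ∑ y ∈ (U.toFinite.toFinset).image Subtype.val, w y x :=
          Finset.sum_le_sum_of_subset (Finset.subset_univ _)
      _ = ∑ y ∈ (U.toFinite.toFinset).image Subtype.val, ∑ x, w y x := Finset.sum_comm
  have h3 : ∑ y ∈ (U.toFinite.toFinset).image Subtype.val, ∑ x, w y x =
      r * ((U.toFinite.toFinset).image Subtype.val).card := by
    rw [mul_comm, ← smul_eq_mul, ← Finset.sum_const]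
    refine Finset.sum_congr rfl fun y hy => ?_
    apply h.deg
    obtain ⟨u, _, rfl⟩ := Finset.mem_image.1 hy
    exact u.2
  have h4 : r * O.card ≤ r * ((U.toFinite.toFinset).image Subtype.val).card := by
    rw [← h3]
    exact h1.trans h2
  have h5 := Nat.le_of_mul_le_mul_left h4 hr
  rw [hOc, hUc] at hU
  omega

/-- Row PM. An `r`-graph with `r > 0` has a perfect matching. Proof: `SimpleGraph.tutte` for the
graph `G` on the subtype `{v // v ∈ S}` with `G.Adj u v ↔ w u v ≠ 0`. If `U` is a Tutte violator then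
every odd component `C` of `G - U` has `r ≤ cut w C`, and all edges of `cut w C` go to `U`, so
`r * #odd components ≤ ∑ u ∈ U, ∑ y, w u y = r * |U|`, a contradiction. -/
theorem exists_pm {w : V → V → ℕ} {S : Finset V} {r : ℕ} (h : RG w S r) (hr : 0 < r) :
    ∃ f : V → V, ∀ v ∈ S, f v ∈ S ∧ f (f v) = v ∧ f v ≠ v ∧ 0 < w v (f v) := by
  classical
  obtain ⟨G, hG⟩ : ∃ G : SimpleGraph {v // v ∈ S}, ∀ u v, G.Adj u v ↔ w (u : V) (v : V) ≠ 0 := by
    refine ⟨SimpleGraph.fromRel (fun u v => w (u : V) (v : V) ≠ 0), fun u v => ?_⟩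
    rw [SimpleGraph.fromRel_adj]
    constructor
    · rintro ⟨_, h1 | h1⟩
      · exact h1
      · rw [h.symm]; exact h1
    · intro h1
      refine ⟨?_, Or.inl h1⟩
      rintro rfl
      exact h1 (h.irr _)
  have hM : ∃ M : G.Subgraph, M.IsPerfectMatching := by
    rw [SimpleGraph.tutte]
    exact fun U => PM_viol h hr (fun u v huv => (hG u v).2 huv) U
  obtain ⟨M, hM1, hM2⟩ := hM
  have hex : ∀ v : {v // v ∈ S}, ∃ u : {v // v ∈ S}, M.Adj v u := by
    intro v
    obtain ⟨u, hu, _⟩ := hM1 (hM2 v)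
    exact ⟨u, hu⟩
  choose g hg using hex
  have hgg : ∀ v, g (g v) = v := by
    intro v
    obtain ⟨u, _, hu2⟩ := hM1 (hM2 (g v))
    rw [hu2 _ (hg (g v)), hu2 _ (hg v).symm]
  refine ⟨fun v => if hv : v ∈ S then (g ⟨v, hv⟩ : V) else v, fun v hv => ?_⟩
  have e1 : (if hv : v ∈ S then (g ⟨v, hv⟩ : V) else v) = (g ⟨v, hv⟩ : V) := dif_pos hv
  have hadj : G.Adj ⟨v, hv⟩ (g ⟨v, hv⟩) := M.adj_sub (hg _)
  simp only [e1]
  refine ⟨(g ⟨v, hv⟩).2, ?_, ?_, ?_⟩
  · rw [dif_pos (g ⟨v, hv⟩).2]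
    have : g (g ⟨v, hv⟩) = ⟨v, hv⟩ := hgg _
    exact congrArg Subtype.val this
  · intro h1
    exact hadj.ne (Subtype.ext h1.symm)
  · exact Nat.pos_of_ne_zero ((hG _ _).1 hadj)

end RG3
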