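import Pool.Agent.Lib.MP_78ca69_co.R3.B
import Pool.Agent.Lib.MP_78ca69_co.R3.S2
import Pool.Agent.Lib.MP_78ca69_co.R3.G
import Pool.Agent.Lib.MP_78ca69_co.R3.M1
import Pool.Agent.Lib.MP_78ca69_co.R3.M3

set_option autoImplicit false
set_option linter.unusedSectionVars false

namespace RG3

open Finset

variable {V : Type*} [Fintype V] [DecidableEq V]

/-- Reduction at a 3-separation, `r`-edge-connected case. -/
theorem ec_reduce {w : V → V → ℕ} {S L R : Finset V} {a b c : V} {r : ℕ}
    (h : RG w S r) (hec : EC w S r) (hr : 3 ≤ r) (hs : Sep w S L R a b c) (hLe : Even L.card)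
    (hL2 : 2 ≤ L.card) (hRo : Odd R.card) (hR3 : 3 ≤ R.card)
    (ih : ∀ (w' : V → V → ℕ) (S' : Finset V), S'.card < S.card → RG w' S' r → EC w' S' r →
      Dec w' S' r) : Dec w S r := by
  have hL0 : L.Nonempty := Finset.card_pos.1 (by omega)
  obtain ⟨z, hz⟩ : R.Nonempty := Finset.card_pos.1 (by omega)
  obtain ⟨n₁, n₂, n₃, e1, e2, e3, hG2⟩ := sep_G2 h (by omega) hs hLe hRo
  have hE2 := G2_EC h hec hs e1 e2 e3
  obtain ⟨s₁, s₂, s₃, t₁, t₂, t₃, hG1, hE1⟩ := sep_G1_EC h hec hr hs hLe hL0 hRo hz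
  have hcS : S.card = L.card + R.card + 3 := by
    rw [hs.un, Finset.card_union_of_disjoint, Finset.card_union_of_disjoint hs.dLR,
      Finset.card_eq_three.2 ⟨a, b, c, hs.ab, hs.ac, hs.bc, rfl⟩]
    rw [Finset.disjoint_left]
    intro x hx hx'
    simp only [Finset.mem_insert, Finset.mem_singleton] at hx'
    rw [Finset.mem_union] at hx
    rcases hx' with rfl | rfl | rfl
    · exact hx.elim hs.aL hs.aR
    · exact hx.elim hs.bL hs.bR
    · exact hx.elim hs.cL hs.cR
  have hc2 : (R ∪ {a, b, c}).card ≤ R.card + 3 := by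
    refine (Finset.card_union_le _ _).trans ?_
    have := Finset.card_le_three (a := a) (b := b) (c := c)
    omega
  have hc1 : (L ∪ {a, b, c, z}).card ≤ L.card + 4 := by
    refine (Finset.card_union_le _ _).trans ?_
    have := Finset.card_le_four (a := a) (b := b) (c := c) (d := z)
    omega
  have D2 := ih _ _ (by omega) hG2 hE2
  have D1 := ih _ _ (by omega) hG1 hE1
  exact sep_glue h.symm h.irr hs hz e1 e2 e3 D2 D1

private theorem Red_cut_self {w : V → V → ℕ} {S : Finset V} {r : ℕ} (h : RG w S r) :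
    cut w S = 0 := by
  unfold cut
  refine Finset.sum_eq_zero fun x _ => Finset.sum_eq_zero fun y hy => ?_
  by_contra hne
  rw [h.symm x y] at hne
  exact (Finset.mem_compl.1 hy) (h.supp y x hne)

private theorem Red_even {w : V → V → ℕ} {S : Finset V} {r : ℕ} (h : RG w S r) (hr : 0 < r) :
    Even S.card := by
  by_contra hne
  have := h.odd S (Finset.Subset.refl _) (Nat.not_even_iff_odd.1 hne)
  rw [Red_cut_self h] at this
  omega

private theorem Red_case {w : V → V → ℕ} {S L R : Finset V} {r : ℕ}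
    (h : RG w S r) (hec : EC w S r) (hr : 3 ≤ r) (hLS : L ⊆ S) (hRS : R ⊆ S)
    (hLR : Disjoint L R) (hcard : L.card + R.card + 3 = S.card)
    (hno : ∀ x ∈ L, ∀ y ∈ R, w x y = 0) (hLe : Even L.card) (hL2 : 2 ≤ L.card)
    (hRo : Odd R.card) (hR3 : 3 ≤ R.card)
    (ih : ∀ (w' : V → V → ℕ) (S' : Finset V), S'.card < S.card → RG w' S' r → EC w' S' r →
      Dec w' S' r) : Dec w S r := by
  have hU : L ∪ R ⊆ S := Finset.union_subset hLS hRS
  have hc : (S \ (L ∪ R)).card = 3 := by
    rw [Finset.card_sdiff_of_subset hU, Finset.card_union_of_disjoint hLR]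
    omega
  obtain ⟨a, b, c, hab, hac, hbc, habc⟩ := Finset.card_eq_three.1 hc
  have hmem : ∀ x, x ∈ ({a, b, c} : Finset V) → x ∈ S ∧ x ∉ L ∧ x ∉ R := by
    intro x hx
    rw [← habc, Finset.mem_sdiff, Finset.mem_union] at hx
    tauto
  have ha := hmem a (by simp)
  have hb := hmem b (by simp)
  have hc' := hmem c (by simp)
  refine ec_reduce h hec hr (L := L) (R := R) (a := a) (b := b) (c := c)
    ⟨hab, hac, hbc, ?_, hLR, ha.2.1, hb.2.1, hc'.2.1, ha.2.2, hb.2.2, hc'.2.2, hno⟩
    hLe hL2 hRo hR3 ih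
  rw [← habc, Finset.union_sdiff_of_subset hU]

/-- Reduction at a separation of order at most 3, `r`-edge-connected case. -/
theorem ec_reduce' {w : V → V → ℕ} {S A B C : Finset V} {r : ℕ}
    (h : RG w S r) (hec : EC w S r) (hr : 3 ≤ r) (hS : S = A ∪ B ∪ C) (hAB : Disjoint A B)
    (hAC : Disjoint A C) (hBC : Disjoint B C) (hB : B.card ≤ 3) (hA : 2 ≤ A.card)
    (hC : 2 ≤ C.card) (hno : ∀ x ∈ A, ∀ y ∈ C, w x y = 0)
    (ih : ∀ (w' : V → V → ℕ) (S' : Finset V), S'.card < S.card → RG w' S' r → EC w' S' r →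
      Dec w' S' r) : Dec w S r := by
  rcases Nat.lt_or_ge 8 S.card with h8 | h8
  · have hev := Red_even h (by omega)
    have hcS : S.card = A.card + B.card + C.card := by
      rw [hS, Finset.card_union_of_disjoint, Finset.card_union_of_disjoint hAB]
      exact Finset.disjoint_union_left.2 ⟨hAC, hBC⟩
    have hAS : A ⊆ S := by
      rw [hS]
      exact (Finset.subset_union_left).trans Finset.subset_union_left
    have hCS : C ⊆ S := by
      rw [hS]
      exact Finset.subset_union_right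
    obtain ⟨a', c', ha2, haA, hc2, hcC, hsum⟩ : ∃ a' c' : ℕ, 2 ≤ a' ∧ a' ≤ A.card ∧ 2 ≤ c' ∧
        c' ≤ C.card ∧ a' + c' + 3 = S.card := by
      rcases Nat.lt_or_ge (A.card + B.card) 5 with h5 | h5
      · exact ⟨2, S.card - 5, le_rfl, hA, by omega, by omega, by omega⟩
      · exact ⟨A.card + B.card - 3, C.card, by omega, by omega, hC, le_rfl, by omega⟩
    obtain ⟨A', hA'A, hA'c⟩ := Finset.exists_subset_card_eq haA
    obtain ⟨C', hC'C, hC'c⟩ := Finset.exists_subset_card_eq hcC
    have hdis : Disjoint A' C' := Finset.disjoint_of_subset_left hA'A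
      (Finset.disjoint_of_subset_right hC'C hAC)
    have hno' : ∀ x ∈ A', ∀ y ∈ C', w x y = 0 := fun x hx y hy => hno x (hA'A hx) y (hC'C hy)
    obtain ⟨e, he⟩ := hev
    rcases Nat.even_or_odd a' with hae | hao
    · obtain ⟨a1, ha1⟩ := hae
      refine Red_case h hec hr (hA'A.trans hAS) (hC'C.trans hCS) hdis (by omega) hno' ?_ (by omega)
        ?_ (by omega) ih
      · exact ⟨a1, by omega⟩
      · exact ⟨e - a1 - 2, by omega⟩
    · obtain ⟨a1, ha1⟩ := hao
      refine Red_case h hec hr (hC'C.trans hCS) (hA'A.trans hAS) hdis.symm (by omega) ?_ ?_ (by omega)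
        ?_ (by omega) ih
      · intro x hx y hy
        rw [h.symm x y]
        exact hno' y hy x hx
      · exact ⟨e - a1 - 2, by omega⟩
      · exact ⟨a1, by omega⟩
  · exact small_dec h h8

end RG3
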