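import Pool.Agent.Lib.MP_78ca69_co.R3.Skel
set_option autoImplicit false
set_option linter.unusedSectionVars false

namespace RG3

open Finset

variable {V : Type*} [Fintype V] [DecidableEq V]

private theorem S1a_split (w : V → V → ℕ) (L : Finset V) (x y : V) :
    w x y = wL w L x y + wR w L x y := by
  unfold wL wR
  by_cases h : x ∈ L ∨ y ∈ L
  · rw [if_pos h, if_pos h, add_zero]
  · rw [if_neg h, if_neg h, zero_add]

private theorem S1a_cut (w : V → V → ℕ) (L X : Finset V) :
    cut w X = cut (wL w L) X + cut (wR w L) X := by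
  rw [← cut_add]
  exact cut_congr (S1a_split w L) X

private theorem S1a_symL {w : V → V → ℕ} (hw : ∀ x y, w x y = w y x) (L : Finset V) (x y : V) :
    wL w L x y = wL w L y x := by
  unfold wL
  rw [hw x y]
  by_cases h : x ∈ L ∨ y ∈ L
  · rw [if_pos h, if_pos h.symm]
  · rw [if_neg h, if_neg fun h' => h h'.symm]

private theorem S1a_symR {w : V → V → ℕ} (hw : ∀ x y, w x y = w y x) (L : Finset V) (x y : V) :
    wR w L x y = wR w L y x := by
  unfold wR
  rw [hw x y]
  by_cases h : x ∈ L ∨ y ∈ L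
  · rw [if_pos h, if_pos h.symm]
  · rw [if_neg h, if_neg fun h' => h h'.symm]

private theorem S1a_irrL {w : V → V → ℕ} (hw : ∀ x, w x x = 0) (L : Finset V) (x : V) :
    wL w L x x = 0 := by
  unfold wL
  rw [hw x, ite_self]

private theorem S1a_irrR {w : V → V → ℕ} (hw : ∀ x, w x x = 0) (L : Finset V) (x : V) :
    wR w L x x = 0 := by
  unfold wR
  rw [hw x, ite_self]

section
variable {w : V → V → ℕ} {S L R : Finset V} {a b c : V} {r : ℕ}

private theorem S1a_suppL (h : RG w S r) (hs : Sep w S L R a b c) (x y : V)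
    (hne : wL w L x y ≠ 0) : x ∈ L ∪ {a, b, c} ∧ y ∈ L ∪ {a, b, c} := by
  have key : ∀ x y, x ∈ L → w x y ≠ 0 → y ∈ L ∪ {a, b, c} := by
    intro x y hx hxy
    have hy : y ∈ S := h.supp y x (by rw [h.symm]; exact hxy)
    rw [hs.un] at hy
    rcases Finset.mem_union.1 hy with hy | hy
    · rcases Finset.mem_union.1 hy with hy | hy
      · exact Finset.mem_union_left _ hy
      · exact absurd (hs.no x hx y hy) hxy
    · exact Finset.mem_union_right _ hy
  unfold wL at hne
  by_cases hl : x ∈ L ∨ y ∈ L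
  · rw [if_pos hl] at hne
    rcases hl with hl | hl
    · exact ⟨Finset.mem_union_left _ hl, key x y hl hne⟩
    · exact ⟨key y x hl (by rw [h.symm]; exact hne), Finset.mem_union_left _ hl⟩
  · rw [if_neg hl] at hne
    exact absurd rfl hne

private theorem S1a_suppR (h : RG w S r) (hs : Sep w S L R a b c) (x y : V)
    (hne : wR w L x y ≠ 0) : x ∈ R ∪ {a, b, c} ∧ y ∈ R ∪ {a, b, c} := by
  have key : ∀ x, x ∉ L → x ∈ S → x ∈ R ∪ {a, b, c} := by
    intro x hx hxS
    rw [hs.un] at hxS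
    rcases Finset.mem_union.1 hxS with hy | hy
    · rcases Finset.mem_union.1 hy with hy | hy
      · exact absurd hy hx
      · exact Finset.mem_union_left _ hy
    · exact Finset.mem_union_right _ hy
  unfold wR at hne
  by_cases hl : x ∈ L ∨ y ∈ L
  · rw [if_pos hl] at hne
    exact absurd rfl hne
  · rw [if_neg hl] at hne
    push Not at hl
    exact ⟨key x hl.1 (h.supp x y hne), key y hl.2 (h.supp y x (by rw [h.symm]; exact hne))⟩

private theorem S1a_suppR' (x y : V) (hne : wR w L x y ≠ 0) : x ∈ Lᶜ ∧ y ∈ Lᶜ := by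
  unfold wR at hne
  by_cases hl : x ∈ L ∨ y ∈ L
  · rw [if_pos hl] at hne
    exact absurd rfl hne
  · push Not at hl
    exact ⟨Finset.mem_compl.2 hl.1, Finset.mem_compl.2 hl.2⟩

private theorem S1a_cutR (P Y : Finset V) (hY : Y ⊆ L) :
    cut (wR w L) (P ∪ Y) = cut (wR w L) P := by
  refine cut_supp S1a_suppR' ?_
  ext x
  simp only [Finset.mem_inter, Finset.mem_union, Finset.mem_compl]
  constructor
  · rintro ⟨h1 | h1, h2⟩
    · exact ⟨h1, h2⟩
    · exact absurd (hY h1) h2
  · rintro ⟨h1, h2⟩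
    exact ⟨Or.inl h1, h2⟩

private theorem S1a_deg (h : RG w S r) {x : V} (hx : x ∈ S) :
    (∑ y, wL w L x y) + (∑ y, wR w L x y) = r := by
  rw [← Finset.sum_add_distrib, ← h.deg x hx]
  exact Finset.sum_congr rfl fun y _ => (S1a_split w L x y).symm

private theorem S1a_degL (h : RG w S r) (hs : Sep w S L R a b c) {x : V} (hx : x ∈ L) :
    ∑ y, wL w L x y = r := by
  have hxS : x ∈ S := by
    rw [hs.un]
    exact Finset.mem_union_left _ (Finset.mem_union_left _ hx)
  rw [← h.deg x hxS]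
  refine Finset.sum_congr rfl fun y _ => ?_
  unfold wL
  rw [if_pos (Or.inl hx)]

private theorem S1a_swap12 (hs : Sep w S L R a b c) : Sep w S L R b a c where
  ab := hs.ab.symm
  ac := hs.bc
  bc := hs.ac
  un := by
    rw [hs.un]
    congr 1
    exact Finset.insert_comm _ _ _
  dLR := hs.dLR
  aL := hs.bL
  bL := hs.aL
  cL := hs.cL
  aR := hs.bR
  bR := hs.aR
  cR := hs.cR
  no := hs.no

private theorem S1a_swap23 (hs : Sep w S L R a b c) : Sep w S L R a c b where
  ab := hs.ac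
  ac := hs.ab
  bc := hs.bc.symm
  un := by
    rw [hs.un]
    congr 2
    exact Finset.pair_comm _ _
  dLR := hs.dLR
  aL := hs.aL
  bL := hs.cL
  cL := hs.bL
  aR := hs.aR
  bR := hs.cR
  cR := hs.bR
  no := hs.no

private theorem S1a_memS (hs : Sep w S L R a b c) : a ∈ S ∧ b ∈ S ∧ c ∈ S := by
  rw [hs.un]
  refine ⟨?_, ?_, ?_⟩ <;> simp

/-- `m ≤ e_a` -/
private theorem S1a_i (h : RG w S r) (hs : Sep w S L R a b c) (hR : Odd R.card) :
    r ≤ (∑ y, wL w L b y) + (∑ y, wL w L c y) + ∑ y, wR w L a y := by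
  have hcard : Odd (R ∪ {b, c}).card := by
    rw [Finset.card_union_of_disjoint, Finset.card_pair hs.bc]
    · exact hR.add_even (by decide)
    · rw [Finset.disjoint_right]
      intro x hx
      rcases Finset.mem_insert.1 hx with rfl | hx
      · exact hs.bR
      · rw [Finset.mem_singleton.1 hx]
        exact hs.cR
  have hsub : R ∪ {b, c} ⊆ S := by
    intro x hx
    obtain ⟨-, h2, h3⟩ := S1a_memS hs
    rcases Finset.mem_union.1 hx with hx | hx
    · rw [hs.un]
      exact Finset.mem_union_left _ (Finset.mem_union_right _ hx)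
    · rcases Finset.mem_insert.1 hx with rfl | hx
      · exact h2
      · rw [Finset.mem_singleton.1 hx]
        exact h3
  have h1 := h.odd _ hsub hcard
  rw [S1a_cut w L] at h1
  have h2 : cut (wL w L) (R ∪ {b, c}) = cut (wL w L) {b, c} := by
    refine cut_supp (S1a_suppL h hs) ?_
    ext x
    simp only [Finset.mem_inter, Finset.mem_union, Finset.mem_insert, Finset.mem_singleton]
    constructor
    · rintro ⟨u1 | u1, u2⟩
      · exfalso
        rcases u2 with u2 | u2 | u2 | u2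
        · exact Finset.disjoint_left.1 hs.dLR u2 u1
        · rw [u2] at u1
          exact hs.aR u1
        · rw [u2] at u1
          exact hs.bR u1
        · rw [u2] at u1
          exact hs.cR u1
      · exact ⟨u1, u2⟩
    · rintro ⟨u1, u2⟩
      exact ⟨Or.inr u1, u2⟩
  have h3 : cut (wR w L) (R ∪ {b, c}) = ∑ y, wR w L a y := by
    rw [← cut_compl (S1a_symR h.symm L), ← cut_singleton (S1a_irrR h.irr L)]
    refine cut_supp (S1a_suppR h hs) ?_
    ext x
    simp only [Finset.mem_inter, Finset.mem_union, Finset.mem_insert, Finset.mem_singleton,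
      Finset.mem_compl, not_or]
    constructor
    · rintro ⟨⟨h1, h2, h3⟩, h4 | h4 | h4 | h4⟩
      · exact absurd h4 h1
      · exact ⟨h4, Or.inr (Or.inl h4)⟩
      · exact absurd h4 h2
      · exact absurd h4 h3
    · rintro ⟨rfl, h2⟩
      exact ⟨⟨hs.aR, hs.ab, hs.ac⟩, h2⟩
  have h4 : cut (wL w L) {b, c} ≤ (∑ y, wL w L b y) + (∑ y, wL w L c y) := by
    refine (cut_le_deg _ _).trans ?_
    rw [Finset.sum_pair hs.bc]
  omega

/-- `0 ≤ m` -/
private theorem S1a_0 (h : RG w S r) (hs : Sep w S L R a b c) (hR : Odd R.card) :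
    r ≤ (∑ y, wR w L a y) + (∑ y, wR w L b y) + ∑ y, wR w L c y := by
  have hsub : R ⊆ S := by
    intro x hx
    rw [hs.un]
    exact Finset.mem_union_left _ (Finset.mem_union_right _ hx)
  have h1 := h.odd _ hsub hR
  rw [S1a_cut w L] at h1
  have h2 : cut (wL w L) R = 0 := by
    rw [← cut_empty (wL w L)]
    refine cut_supp (S1a_suppL h hs) ?_
    ext x
    simp only [Finset.mem_inter, Finset.mem_union, Finset.mem_insert, Finset.mem_singleton,
      Finset.notMem_empty, false_and, iff_false, not_and]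
    rintro h1 (h2 | rfl | rfl | rfl)
    · exact Finset.disjoint_left.1 hs.dLR h2 h1
    · exact hs.aR h1
    · exact hs.bR h1
    · exact hs.cR h1
  have h3 : cut (wR w L) R ≤ (∑ y, wR w L a y) + (∑ y, wR w L b y) + ∑ y, wR w L c y := by
    have h5 : cut (wR w L) R = cut (wR w L) {a, b, c} := by
      rw [← cut_compl (S1a_symR h.symm L)]
      refine cut_supp (S1a_suppR h hs) ?_
      ext x
      simp only [Finset.mem_inter, Finset.mem_union, Finset.mem_insert, Finset.mem_singleton,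
        Finset.mem_compl]
      constructor
      · rintro ⟨h1, h4 | h4⟩
        · exact absurd h4 h1
        · exact ⟨h4, Or.inr h4⟩
      · rintro ⟨h1, h2⟩
        refine ⟨?_, h2⟩
        rcases h1 with rfl | rfl | rfl
        · exact hs.aR
        · exact hs.bR
        · exact hs.cR
    rw [h5]
    refine (cut_le_deg _ _).trans ?_
    rw [Finset.sum_insert (by simp [hs.ab, hs.ac]), Finset.sum_pair hs.bc, add_assoc]
  omega

private theorem S1a_par (h : RG w S r) (hs : Sep w S L R a b c) (hL : Even L.card) :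
    Even ((∑ y, wL w L a y) + (∑ y, wL w L b y) + ∑ y, wL w L c y) := by
  have h1 := cut_parity (S1a_symL h.symm L) (S1a_irrL h.irr L) (L ∪ {a, b, c})
  have h2 : cut (wL w L) (L ∪ {a, b, c}) = 0 := by
    rw [← cut_compl (S1a_symL h.symm L), ← cut_empty (wL w L)]
    refine cut_supp (S1a_suppL h hs) ?_
    rw [Finset.empty_inter, Finset.inter_comm, Finset.inter_compl]
  have h3 : ∑ x ∈ L ∪ {a, b, c}, ∑ y, wL w L x y =
      L.card * r + ((∑ y, wL w L a y) + (∑ y, wL w L b y) + ∑ y, wL w L c y) := by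
    rw [Finset.sum_union]
    · congr 1
      · rw [Finset.sum_congr rfl fun x hx => S1a_degL h hs hx, Finset.sum_const, smul_eq_mul]
      · rw [Finset.sum_insert (by simp [hs.ab, hs.ac]), Finset.sum_pair hs.bc, add_assoc]
    · rw [Finset.disjoint_right]
      intro x hx
      simp only [Finset.mem_insert, Finset.mem_singleton] at hx
      rcases hx with rfl | rfl | rfl
      · exact hs.aL
      · exact hs.bL
      · exact hs.cL
  rw [h2, h3] at h1
  obtain ⟨k, hk⟩ := hL
  rw [Nat.even_iff]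
  have h4 : L.card * r = 2 * (k * r) := by rw [hk]; ring
  omega

private theorem S1a_disj (hs : Sep w S L R a b c) {Y : Finset V} (hY : Y ⊆ L) :
    Disjoint ({b, c} : Finset V) Y := by
  rw [Finset.disjoint_left]
  intro x hx hxY
  rcases Finset.mem_insert.1 hx with rfl | hx
  · exact hs.bL (hY hxY)
  · rw [Finset.mem_singleton.1 hx] at hxY
    exact hs.cL (hY hxY)

/-- bound and parity for `{b, c} ∪ Y` -/
private theorem S1a_ii (h : RG w S r) (hs : Sep w S L R a b c) {Y : Finset V} (hY : Y ⊆ L)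
    (ho : Odd Y.card) :
    r ≤ cut (wL w L) ({b, c} ∪ Y) + (∑ y, wR w L b y) + (∑ y, wR w L c y) ∧
      (cut (wL w L) ({b, c} ∪ Y) + (∑ y, wR w L b y) + (∑ y, wR w L c y)) % 2 = r % 2 := by
  obtain ⟨haS, hbS, hcS⟩ := S1a_memS hs
  have hdb := S1a_deg (L := L) h hbS
  have hdc := S1a_deg (L := L) h hcS
  constructor
  · have hcard : Odd ({b, c} ∪ Y).card := by
      rw [Finset.card_union_of_disjoint (S1a_disj hs hY), Finset.card_pair hs.bc]
      exact Even.add_odd (by decide) ho
    have hsub : {b, c} ∪ Y ⊆ S := by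
      intro x hx
      rcases Finset.mem_union.1 hx with hx | hx
      · rcases Finset.mem_insert.1 hx with rfl | hx
        · exact hbS
        · rw [Finset.mem_singleton.1 hx]
          exact hcS
      · rw [hs.un]
        exact Finset.mem_union_left _ (Finset.mem_union_left _ (hY hx))
    have h1 := h.odd _ hsub hcard
    rw [S1a_cut w L, S1a_cutR _ _ hY] at h1
    have h4 : cut (wR w L) {b, c} ≤ (∑ y, wR w L b y) + (∑ y, wR w L c y) := by
      refine (cut_le_deg _ _).trans ?_
      rw [Finset.sum_pair hs.bc]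
    omega
  · have h1 := cut_parity (S1a_symL h.symm L) (S1a_irrL h.irr L) ({b, c} ∪ Y)
    have h3 : ∑ x ∈ {b, c} ∪ Y, ∑ y, wL w L x y =
        (∑ y, wL w L b y) + (∑ y, wL w L c y) + Y.card * r := by
      rw [Finset.sum_union (S1a_disj hs hY), Finset.sum_pair hs.bc]
      congr 1
      rw [Finset.sum_congr rfl fun x hx => S1a_degL h hs (hY hx), Finset.sum_const, smul_eq_mul]
    rw [h3] at h1
    obtain ⟨k, hk⟩ := ho
    have h4 : Y.card * r = 2 * (k * r) + r := by rw [hk]; ring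
    omega

/-- `d_c ≤ c_a + c_b` -/
private theorem S1a_iii (h : RG w S r) (hs : Sep w S L R a b c) (hL : Even L.card)
    {Y Z : Finset V} (hY : Y ⊆ L) (hoY : Odd Y.card) (hZ : Z ⊆ L) (hoZ : Odd Z.card) :
    ∑ y, wL w L c y ≤ cut (wL w L) ({b, c} ∪ Y) + cut (wL w L) ({a, c} ∪ Z) := by
  obtain ⟨haS, hbS, hcS⟩ := S1a_memS hs
  have hdc := S1a_deg (L := L) h hcS
  refine le_trans ?_ (cut_submod _ _ _)
  have e1 : ({b, c} ∪ Y) ∩ ({a, c} ∪ Z) = {c} ∪ (Y ∩ Z) := by
    ext x
    simp only [Finset.mem_inter, Finset.mem_union, Finset.mem_insert, Finset.mem_singleton]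
    constructor
    · rintro ⟨(rfl | rfl) | h1, (rfl | h2) | h2⟩
      · exact absurd rfl hs.ab
      · exact absurd h2 hs.bc
      · exact absurd (hZ h2) hs.bL
      · exact absurd rfl hs.ac
      · exact Or.inl rfl
      · exact Or.inl rfl
      · exact absurd (hY h1) hs.aL
      · exact Or.inl h2
      · exact Or.inr ⟨h1, h2⟩
    · rintro (rfl | ⟨h1, h2⟩)
      · exact ⟨Or.inl (Or.inr rfl), Or.inl (Or.inr rfl)⟩
      · exact ⟨Or.inr h1, Or.inr h2⟩
  rw [e1]
  have hpar := Finset.card_union_add_card_inter Y Z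
  obtain ⟨k, hk⟩ := hoY
  obtain ⟨l, hl⟩ := hoZ
  obtain ⟨p, hp⟩ := hL
  rcases Nat.even_or_odd (Y ∩ Z).card with he | ho
  · -- `{c} ∪ (Y ∩ Z)` is odd
    have hdis : Disjoint ({c} : Finset V) (Y ∩ Z) := by
      rw [Finset.disjoint_left]
      intro x hx hx2
      rw [Finset.mem_singleton.1 hx] at hx2
      exact hs.cL (hY (Finset.mem_inter.1 hx2).1)
    have hcard : Odd ({c} ∪ (Y ∩ Z)).card := by
      rw [Finset.card_union_of_disjoint hdis, Finset.card_singleton]
      exact Odd.add_even (by decide) he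
    have hsub : {c} ∪ (Y ∩ Z) ⊆ S := by
      intro x hx
      rcases Finset.mem_union.1 hx with hx | hx
      · rw [Finset.mem_singleton.1 hx]
        exact hcS
      · rw [hs.un]
        exact Finset.mem_union_left _ (Finset.mem_union_left _ (hY (Finset.mem_inter.1 hx).1))
    have h1 := h.odd _ hsub hcard
    rw [S1a_cut w L, S1a_cutR _ _ (Finset.inter_subset_left.trans hY),
      cut_singleton (S1a_irrR h.irr L)] at h1
    omega
  · -- `L \ (Y ∪ Z)` is odd
    obtain ⟨q, hq⟩ := ho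
    have hsubL : Y ∪ Z ⊆ L := Finset.union_subset hY hZ
    have hc2 := Finset.card_sdiff_add_card_eq_card hsubL
    have hcard : Odd (L \ (Y ∪ Z)).card := by
      rw [Nat.odd_iff]
      omega
    have hsub : L \ (Y ∪ Z) ⊆ S := by
      intro x hx
      rw [hs.un]
      exact Finset.mem_union_left _ (Finset.mem_union_left _ (Finset.mem_sdiff.1 hx).1)
    have h1 := h.odd _ hsub hcard
    have h2 : cut (wR w L) (L \ (Y ∪ Z)) = 0 := by
      have := S1a_cutR (w := w) (L := L) ∅ (L \ (Y ∪ Z)) Finset.sdiff_subset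
      rw [Finset.empty_union, cut_empty] at this
      exact this
    have h3 : cut (wL w L) (L \ (Y ∪ Z)) = cut (wL w L) ({b, c} ∪ Y ∪ ({a, c} ∪ Z)) := by
      rw [← cut_compl (S1a_symL h.symm L)]
      refine cut_supp (S1a_suppL h hs) ?_
      ext x
      simp only [Finset.mem_inter, Finset.mem_union, Finset.mem_insert, Finset.mem_singleton,
        Finset.mem_compl, Finset.mem_sdiff]
      constructor
      · rintro ⟨h1, h2⟩
        refine ⟨?_, h2⟩
        rcases h2 with h2 | h2 | h2 | h2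
        · tauto
        · exact Or.inr (Or.inl (Or.inl h2))
        · exact Or.inl (Or.inl (Or.inl h2))
        · exact Or.inl (Or.inl (Or.inr h2))
      · rintro ⟨h1, h2⟩
        refine ⟨?_, h2⟩
        rintro ⟨h3, h4⟩
        rcases h1 with ((rfl | rfl) | h1) | ((rfl | rfl) | h1)
        · exact hs.bL h3
        · exact hs.cL h3
        · exact h4 (Or.inl h1)
        · exact hs.aL h3
        · exact hs.cL h3
        · exact h4 (Or.inr h1)
    rw [S1a_cut w L, h2, h3] at h1
    omega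

/-- the best `s₁` -/
private theorem S1a_min (h : RG w S r) (hs : Sep w S L R a b c) (hL0 : L.Nonempty) :
    ∃ (U : ℕ) (Y₀ : Finset V), Y₀ ⊆ L ∧ Odd Y₀.card ∧
      2 * U + r = cut (wL w L) ({b, c} ∪ Y₀) + (∑ y, wR w L b y) + (∑ y, wR w L c y) ∧
      ∀ Y ⊆ L, Odd Y.card → 2 * U + r ≤
        cut (wL w L) ({b, c} ∪ Y) + (∑ y, wR w L b y) + (∑ y, wR w L c y) := by
  obtain ⟨v, hv⟩ := hL0
  obtain ⟨Y₀, h1, h2⟩ := Finset.exists_min_image (L.powerset.filter fun Y => Odd Y.card)
    (fun Y => cut (wL w L) ({b, c} ∪ Y)) ⟨{v}, by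
      rw [Finset.mem_filter, Finset.mem_powerset, Finset.singleton_subset_iff,
        Finset.card_singleton]
      exact ⟨hv, by decide⟩⟩
  rw [Finset.mem_filter, Finset.mem_powerset] at h1
  obtain ⟨h3, h4⟩ := S1a_ii h hs h1.1 h1.2
  refine ⟨(cut (wL w L) ({b, c} ∪ Y₀) + (∑ y, wR w L b y) + (∑ y, wR w L c y) - r) / 2, Y₀,
    h1.1, h1.2, by omega, ?_⟩
  intro Y hY ho
  have h5 := h2 Y (by
    rw [Finset.mem_filter, Finset.mem_powerset]
    exact ⟨hY, ho⟩)
  omega

end

theorem sep_nums {w : V → V → ℕ} {S L R : Finset V} {a b c : V} {r : ℕ} (h : RG w S r) (hr : 0 < r)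
    (hs : Sep w S L R a b c) (hL : Even L.card) (hL0 : L.Nonempty) (hR : Odd R.card) :
    ∃ s₁ s₂ s₃ m : ℕ,
      2 * m + r = (∑ y, wR w L a y) + (∑ y, wR w L b y) + (∑ y, wR w L c y) ∧
      s₁ + s₂ + s₃ = m ∧ m ≤ (∑ y, wR w L a y) ∧ m ≤ (∑ y, wR w L b y) ∧ m ≤ (∑ y, wR w L c y) ∧
      (∀ Y ⊆ L, Odd Y.card → 2 * s₁ + r ≤
        cut (wL w L) ({b, c} ∪ Y) + (∑ y, wR w L b y) + (∑ y, wR w L c y)) ∧
      (∀ Y ⊆ L, Odd Y.card → 2 * s₂ + r ≤
        cut (wL w L) ({a, c} ∪ Y) + (∑ y, wR w L a y) + (∑ y, wR w L c y)) ∧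
      (∀ Y ⊆ L, Odd Y.card → 2 * s₃ + r ≤
        cut (wL w L) ({a, b} ∪ Y) + (∑ y, wR w L a y) + (∑ y, wR w L b y)) := by
  have hs2 := S1a_swap12 hs
  have hs3 := S1a_swap23 (S1a_swap12 (S1a_swap23 hs))
  have hs4 := S1a_swap12 (S1a_swap23 hs)
  have hs5 := S1a_swap23 (S1a_swap12 hs)
  obtain ⟨haS, hbS, hcS⟩ := S1a_memS hs
  have da := S1a_deg (L := L) h haS
  have db := S1a_deg (L := L) h hbS
  have dc := S1a_deg (L := L) h hcS
  have p0 := S1a_0 h hs hR
  have pa := S1a_i h hs hR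
  have pb := S1a_i h hs2 hR
  have pc := S1a_i h hs4 hR
  have ev := S1a_par h hs hL
  obtain ⟨U₁, Y₁, hY1, ho1, e1, f1⟩ := S1a_min h hs hL0
  obtain ⟨U₂, Y₂, hY2, ho2, e2, f2⟩ := S1a_min h hs2 hL0
  obtain ⟨U₃, Y₃, hY3, ho3, e3, f3⟩ := S1a_min h hs4 hL0
  have q1 := S1a_iii h hs hL hY1 ho1 hY2 ho2
  have q2 := S1a_iii h (S1a_swap23 hs) hL hY1 ho1 hY3 ho3
  have q3 := S1a_iii h hs5 hL hY2 ho2 hY3 ho3
  rw [Finset.pair_comm c b] at q2
  rw [Finset.pair_comm c a, Finset.pair_comm b a] at q3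
  obtain ⟨k, hk⟩ := ev
  refine ⟨min U₁ (r - k), min U₂ (r - k - min U₁ (r - k)),
    r - k - min U₁ (r - k) - min U₂ (r - k - min U₁ (r - k)), r - k, ?_⟩
  have hU : r - k ≤ U₁ + U₂ + U₃ := by omega
  refine ⟨by omega, by omega, by omega, by omega, by omega, ?_, ?_, ?_⟩
  · intro Y hY ho
    have := f1 Y hY ho
    omega
  · intro Y hY ho
    have := f2 Y hY ho
    omega
  · intro Y hY ho
    have := f3 Y hY ho
    omega

end RG3
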