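import Mathlib

/-!
r-graphs of tree-width at most 3 are r-edge-colourable.

A multigraph on (a subset `S` of) a finite type `V` is given by its multiplicities `w x y`.
-/

set_option autoImplicit false
set_option linter.unusedSectionVars false

namespace RG3

open Finset

section defs

variable {V : Type*} [Fintype V] [DecidableEq V]

/-- number of edges leaving `X` -/
def cut (w : V → V → ℕ) (X : Finset V) : ℕ := ∑ x ∈ X, ∑ y ∈ Xᶜ, w x y

/-- `w` is an `r`-graph with vertex set `S`. -/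
structure RG (w : V → V → ℕ) (S : Finset V) (r : ℕ) : Prop where
  symm : ∀ x y, w x y = w y x
  irr : ∀ x, w x x = 0
  supp : ∀ x y, w x y ≠ 0 → x ∈ S
  deg : ∀ x ∈ S, ∑ y, w x y = r
  odd : ∀ X ⊆ S, Odd X.card → r ≤ cut w X

/-- `w` on `S` is the sum of `r` perfect matchings of `S`. -/
def Dec (w : V → V → ℕ) (S : Finset V) (r : ℕ) : Prop :=
  ∃ f : Fin r → V → V, (∀ i, ∀ v ∈ S, f i v ∈ S ∧ f i (f i v) = v ∧ f i v ≠ v) ∧
    ∀ u ∈ S, ∀ v ∈ S, w u v = (univ.filter fun i => f i u = v).card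

/-- contraction of the complement of `X` to the vertex `z` -/
def contr (w : V → V → ℕ) (X : Finset V) (z : V) : V → V → ℕ := fun x y =>
  if x ∈ X ∧ y ∈ X then w x y
  else if x ∈ X ∧ y = z then ∑ u ∈ Xᶜ, w x u
  else if x = z ∧ y ∈ X then ∑ u ∈ Xᶜ, w y u
  else 0

/-- `k` parallel edges between `p` and `q` -/
def ed (p q : V) (k : ℕ) : V → V → ℕ := fun x y =>
  if (x = p ∧ y = q) ∨ (x = q ∧ y = p) then k else 0

/-- the edges of `w` with an end in `L` -/
def wL (w : V → V → ℕ) (L : Finset V) : V → V → ℕ := fun x y => if x ∈ L ∨ y ∈ L then w x y else 0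

/-- the edges of `w` with no end in `L` -/
def wR (w : V → V → ℕ) (L : Finset V) : V → V → ℕ := fun x y => if x ∈ L ∨ y ∈ L then 0 else w x y

/-- the left side `L ∪ {a,b,c}` with a new vertex `z` and new edges -/
def G1 (w : V → V → ℕ) (L : Finset V) (z a b c : V) (s₁ s₂ s₃ t₁ t₂ t₃ : ℕ) : V → V → ℕ :=
  fun x y => wL w L x y + ed b c s₁ x y + ed a c s₂ x y + ed a b s₃ x y
    + ed z a t₁ x y + ed z b t₂ x y + ed z c t₃ x y

/-- the right side `R ∪ {a,b,c}` with new edges -/
def G2 (w : V → V → ℕ) (L : Finset V) (a b c : V) (n₁ n₂ n₃ : ℕ) : V → V → ℕ :=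
  fun x y => wR w L x y + ed b c n₁ x y + ed a c n₂ x y + ed a b n₃ x y

/-- `S` is the disjoint union of `L`, `R`, `{a,b,c}` with `a,b,c` distinct and no edge between
`L` and `R`. -/
structure Sep (w : V → V → ℕ) (S L R : Finset V) (a b c : V) : Prop where
  ab : a ≠ b
  ac : a ≠ c
  bc : b ≠ c
  un : S = L ∪ R ∪ {a, b, c}
  dLR : Disjoint L R
  aL : a ∉ L
  bL : b ∉ L
  cL : c ∉ L
  aR : a ∉ R
  bR : b ∉ R
  cR : c ∉ R
  no : ∀ x ∈ L, ∀ y ∈ R, w x y = 0

/-- perfect elimination structure of width at most 3: `N v` are the later neighbours of `v`. -/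
structure Valid (σ : V → ℕ) (N : V → Finset V) (S : Finset V) : Prop where
  inj : ∀ u ∈ S, ∀ v ∈ S, σ u = σ v → u = v
  sub : ∀ v ∈ S, N v ⊆ S
  card : ∀ v ∈ S, (N v).card ≤ 3
  lt : ∀ v ∈ S, ∀ u ∈ N v, σ v < σ u
  clq : ∀ v ∈ S, ∀ a ∈ N v, ∀ b ∈ N v, a ≠ b → a ∈ N b ∨ b ∈ N a

/-- all edges of `w` on `S` are edges of the elimination structure -/
def Fits (w : V → V → ℕ) (N : V → Finset V) (S : Finset V) : Prop :=
  ∀ x ∈ S, ∀ y ∈ S, w x y ≠ 0 → x ∈ N y ∨ y ∈ N x

def EO (w : V → V → ℕ) (S : Finset V) : Prop :=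
  ∃ (σ : V → ℕ) (N : V → Finset V), Valid σ N S ∧ Fits w N S

end defs

section basic

variable {V : Type*} [Fintype V] [DecidableEq V]

theorem cut_add (w₁ w₂ : V → V → ℕ) (X : Finset V) :
    cut (fun x y => w₁ x y + w₂ x y) X = cut w₁ X + cut w₂ X := by
  simp only [cut, Finset.sum_add_distrib]

theorem cut_congr {w w' : V → V → ℕ} (h : ∀ x y, w x y = w' x y) (X : Finset V) :
    cut w X = cut w' X := by
  have : w = w' := by funext x y; exact h x y
  rw [this]

theorem cut_compl {w : V → V → ℕ} (symm : ∀ x y, w x y = w y x) (X : Finset V) :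
    cut w Xᶜ = cut w X := by
  unfold cut
  rw [compl_compl, Finset.sum_comm]
  refine Finset.sum_congr rfl fun x _ => Finset.sum_congr rfl fun y _ => symm y x

/-- only the part of `X` in the support matters -/
theorem cut_supp {w : V → V → ℕ} {T : Finset V} (h : ∀ x y, w x y ≠ 0 → x ∈ T ∧ y ∈ T)
    {X Y : Finset V} (hXY : X ∩ T = Y ∩ T) : cut w X = cut w Y := by
  have key : ∀ Z : Finset V, cut w Z = ∑ x ∈ Z ∩ T, ∑ y ∈ T \ (Z ∩ T), w x y := by
    intro Z
    unfold cut
    have h1 : ∑ x ∈ Z ∩ T, ∑ y ∈ Zᶜ, w x y = ∑ x ∈ Z, ∑ y ∈ Zᶜ, w x y := by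
      refine Finset.sum_subset Finset.inter_subset_left ?_
      intro x hx hx'
      refine Finset.sum_eq_zero fun y _ => ?_
      by_contra hne
      exact hx' (Finset.mem_inter.2 ⟨hx, (h x y hne).1⟩)
    rw [← h1]
    refine Finset.sum_congr rfl fun x _ => ?_
    symm
    refine Finset.sum_subset ?_ ?_
    · intro y hy
      simp only [Finset.mem_sdiff, Finset.mem_inter, Finset.mem_compl] at hy ⊢
      tauto
    · intro y hy hy'
      by_contra hne
      have := (h x y hne).2
      simp only [Finset.mem_sdiff, Finset.mem_inter, Finset.mem_compl] at hy hy'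
      tauto
  rw [key X, key Y, hXY]

theorem cut_le_deg (w : V → V → ℕ) (X : Finset V) : cut w X ≤ ∑ x ∈ X, ∑ y, w x y := by
  unfold cut
  exact Finset.sum_le_sum fun x _ =>
    Finset.sum_le_sum_of_subset (Finset.subset_univ _)

theorem cut_singleton {w : V → V → ℕ} (irr : ∀ x, w x x = 0) (x : V) :
    cut w {x} = ∑ y, w x y := by
  unfold cut
  rw [Finset.sum_singleton]
  have := Finset.sum_add_sum_compl ({x} : Finset V) (fun y => w x y)
  rw [Finset.sum_singleton, irr x, zero_add] at this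
  exact this

theorem cut_empty (w : V → V → ℕ) : cut w ∅ = 0 := by simp [cut]

/-- submodularity -/
theorem cut_submod (w : V → V → ℕ) (X Y : Finset V) :
    cut w (X ∩ Y) + cut w (X ∪ Y) ≤ cut w X + cut w Y := by
  have key : ∀ Z : Finset V, cut w Z = ∑ x, ∑ y, if x ∈ Z ∧ y ∉ Z then w x y else 0 := by
    intro Z
    unfold cut
    rw [← Finset.sum_filter_add_sum_filter_not (s := (Finset.univ : Finset V)) (p := fun x => x ∈ Z)]
    have h2 : ∑ x ∈ Finset.univ.filter (fun x => ¬ x ∈ Z), ∑ y,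
        (if x ∈ Z ∧ y ∉ Z then w x y else 0) = 0 := by
      refine Finset.sum_eq_zero fun x hx => Finset.sum_eq_zero fun y _ => ?_
      rw [Finset.mem_filter] at hx
      simp [hx.2]
    rw [h2, add_zero]
    have h3 : Finset.univ.filter (fun x => x ∈ Z) = Z := by ext x; simp
    rw [h3]
    refine Finset.sum_congr rfl fun x hx => ?_
    rw [← Finset.sum_filter]
    refine Finset.sum_congr ?_ fun _ _ => rfl
    ext y
    simp [hx]
  rw [key, key, key, key, ← Finset.sum_add_distrib, ← Finset.sum_add_distrib]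
  refine Finset.sum_le_sum fun x _ => ?_
  rw [← Finset.sum_add_distrib, ← Finset.sum_add_distrib]
  refine Finset.sum_le_sum fun y _ => ?_
  simp only [Finset.mem_inter, Finset.mem_union]
  by_cases h1 : x ∈ X <;> by_cases h2 : x ∈ Y <;> by_cases h3 : y ∈ X <;> by_cases h4 : y ∈ Y <;>
    simp [h1, h2, h3, h4]

/-- inner degree sum is even -/
theorem even_inner {w : V → V → ℕ} (symm : ∀ x y, w x y = w y x) (irr : ∀ x, w x x = 0)
    (X : Finset V) : Even (∑ x ∈ X, ∑ y ∈ X, w x y) := by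
  induction X using Finset.induction_on with
  | empty => simp
  | @insert a X ha ih =>
    rw [Finset.sum_insert ha, Finset.sum_insert ha, irr a, zero_add]
    have : ∑ x ∈ X, ∑ y ∈ insert a X, w x y = ∑ x ∈ X, w a x + ∑ x ∈ X, ∑ y ∈ X, w x y := by
      rw [← Finset.sum_add_distrib]
      refine Finset.sum_congr rfl fun x _ => ?_
      rw [Finset.sum_insert ha, symm x a]
    rw [this, ← add_assoc]
    exact (Even.add ⟨_, rfl⟩ ih)

theorem cut_parity {w : V → V → ℕ} (symm : ∀ x y, w x y = w y x) (irr : ∀ x, w x x = 0)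
    (X : Finset V) : cut w X % 2 = (∑ x ∈ X, ∑ y, w x y) % 2 := by
  have h := even_inner symm irr X
  have h2 : ∑ x ∈ X, ∑ y, w x y = ∑ x ∈ X, ∑ y ∈ X, w x y + cut w X := by
    unfold cut
    rw [← Finset.sum_add_distrib]
    exact Finset.sum_congr rfl fun x _ => (Finset.sum_add_sum_compl X _).symm
  rw [h2]
  obtain ⟨k, hk⟩ := h
  omega

theorem ed_symm (p q : V) (k : ℕ) (x y : V) : ed p q k x y = ed p q k y x := by
  unfold ed
  by_cases h : (x = p ∧ y = q) ∨ (x = q ∧ y = p)
  · have h' : (y = p ∧ x = q) ∨ (y = q ∧ x = p) := by tauto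
    rw [if_pos h, if_pos h']
  · have h' : ¬ ((y = p ∧ x = q) ∨ (y = q ∧ x = p)) := by tauto
    rw [if_neg h, if_neg h']

theorem cut_ed {p q : V} (hpq : p ≠ q) (k : ℕ) (X : Finset V) :
    cut (ed p q k) X = if (p ∈ X ∧ q ∉ X) ∨ (q ∈ X ∧ p ∉ X) then k else 0 := by
  have hs : ∀ x y, ed p q k x y ≠ 0 → x ∈ ({p, q} : Finset V) ∧ y ∈ ({p, q} : Finset V) := by
    intro x y h
    unfold ed at h
    by_cases h1 : (x = p ∧ y = q) ∨ (x = q ∧ y = p)
    · simp only [Finset.mem_insert, Finset.mem_singleton]; tauto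
    · rw [if_neg h1] at h; exact absurd rfl h
  have irr : ∀ x, ed p q k x x = 0 := by
    intro x; unfold ed; rw [if_neg]; rintro (⟨h1, h2⟩ | ⟨h1, h2⟩)
    · exact hpq (h1.symm.trans h2)
    · exact hpq (h2.symm.trans h1)
  have sp : ∑ y, ed p q k p y = k := by
    rw [Finset.sum_eq_single q]
    · unfold ed; simp
    · intro y _ hy; unfold ed; rw [if_neg]; rintro (⟨_, h2⟩ | ⟨h1, _⟩)
      · exact hy h2
      · exact hpq h1
    · intro h; exact absurd (Finset.mem_univ _) h
  have sq : ∑ y, ed p q k q y = k := by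
    rw [Finset.sum_eq_single p]
    · unfold ed; simp
    · intro y _ hy; unfold ed; rw [if_neg]; rintro (⟨h1, _⟩ | ⟨_, h2⟩)
      · exact hpq h1.symm
      · exact hy h2
    · intro h; exact absurd (Finset.mem_univ _) h
  by_cases hp : p ∈ X <;> by_cases hq : q ∈ X
  · have hh : X ∩ {p, q} = Finset.univ ∩ {p, q} := by
      ext x
      simp only [Finset.mem_inter, Finset.mem_insert, Finset.mem_singleton, Finset.mem_univ,
        true_and]
      constructor
      · exact fun h => h.2
      · rintro (rfl | rfl)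
        · exact ⟨hp, Or.inl rfl⟩
        · exact ⟨hq, Or.inr rfl⟩
    rw [if_neg (by tauto), cut_supp hs hh]
    unfold cut; simp
  · have hh : X ∩ {p, q} = {p} ∩ {p, q} := by
      ext x
      simp only [Finset.mem_inter, Finset.mem_insert, Finset.mem_singleton]
      constructor
      · rintro ⟨h1, rfl | rfl⟩
        · exact ⟨rfl, Or.inl rfl⟩
        · exact absurd h1 hq
      · rintro ⟨rfl, _⟩; exact ⟨hp, Or.inl rfl⟩
    rw [if_pos (by tauto), cut_supp hs hh, cut_singleton irr, sp]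
  · have hh : X ∩ {p, q} = {q} ∩ {p, q} := by
      ext x
      simp only [Finset.mem_inter, Finset.mem_insert, Finset.mem_singleton]
      constructor
      · rintro ⟨h1, rfl | rfl⟩
        · exact absurd h1 hp
        · exact ⟨rfl, Or.inr rfl⟩
      · rintro ⟨rfl, _⟩; exact ⟨hq, Or.inr rfl⟩
    rw [if_pos (by tauto), cut_supp hs hh, cut_singleton irr, sq]
  · have hh : X ∩ {p, q} = ∅ ∩ {p, q} := by
      ext x
      simp only [Finset.mem_inter, Finset.mem_insert, Finset.mem_singleton]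
      constructor
      · rintro ⟨h1, rfl | rfl⟩
        · exact absurd h1 hp
        · exact absurd h1 hq
      · rintro ⟨h1, _⟩; exact absurd h1 (Finset.notMem_empty x)
    rw [if_neg (by tauto), cut_supp hs hh, cut_empty]

end basic

end RG3
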