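import Pool.Agent.Lib.MP_78ca69_co.R3.Skel
set_option autoImplicit false
set_option linter.unusedSectionVars false
namespace RG3
open Finset
variable {V : Type*} [Fintype V] [DecidableEq V]

/-- a vertex on a walk is at distance at most the length of the walk from its start, and if the
distance equals the length then it is the end -/
private theorem T1_aux1 {ι : Type*} (T : SimpleGraph ι) {u v i : ι} (w : T.Walk u v)
    (hi : i ∈ w.support) : T.dist u i ≤ w.length ∧ (T.dist u i = w.length → i = v) := by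
  classical
  have h1 : T.dist u i ≤ (w.takeUntil i hi).length := SimpleGraph.dist_le _
  have h2 : (w.takeUntil i hi).length + (w.dropUntil i hi).length = w.length := by
    conv_rhs => rw [← w.take_spec hi]
    rw [SimpleGraph.Walk.length_append]
  refine ⟨by omega, fun h => ?_⟩
  exact SimpleGraph.Walk.eq_of_length_eq_zero (p := w.dropUntil i hi) (by omega)

private theorem T1_aux2 {ι : Type*} (T : SimpleGraph ι) {u v i q : ι} (w : T.Walk u v)
    (hi : i ∉ w.support) : (T.deleteEdges {s(i, q)}).Reachable u v := by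
  rw [SimpleGraph.reachable_deleteEdges_iff_exists_walk]
  exact ⟨w, fun h => hi (w.fst_mem_support_of_mem_edges h)⟩

private theorem T1_aux3 {ι : Type*} (T : SimpleGraph ι) {u v i q : ι} (w : T.Walk u v)
    (hq : q ∉ w.support) : (T.deleteEdges {s(i, q)}).Reachable u v := by
  rw [SimpleGraph.reachable_deleteEdges_iff_exists_walk]
  exact ⟨w, fun h => hq (w.snd_mem_support_of_mem_edges h)⟩

private theorem T1_aux4 {ι : Type*} (T : SimpleGraph ι) (A : Set ι) {u v : A}
    (w : (T.induce A).Walk u v) : ∃ w' : T.Walk u.1 v.1, ∀ x ∈ w'.support, x ∈ A := by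
  induction w with
  | nil => exact ⟨SimpleGraph.Walk.nil, fun x hx => by
      rw [SimpleGraph.Walk.support_nil, List.mem_singleton] at hx
      rw [hx]; exact Subtype.mem _⟩
  | @cons a b c h w ih =>
    obtain ⟨w', hw'⟩ := ih
    have h' : T.Adj a.1 b.1 := h
    refine ⟨SimpleGraph.Walk.cons h' w', fun x hx => ?_⟩
    rw [SimpleGraph.Walk.support_cons, List.mem_cons] at hx
    rcases hx with hx | hx
    · rw [hx]; exact a.2
    · exact hw' x hx

theorem tree_par {ι : Type*} (T : SimpleGraph ι) (hT : T.IsTree) :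
    ∃ (dep : ι → ℕ) (par : ι → ι), ∀ A : Set ι, (T.induce A).Connected → ∀ p ∈ A,
      (∀ j ∈ A, dep p ≤ dep j) → ∀ i ∈ A, i ≠ p → par i ∈ A ∧ dep (par i) < dep i := by
  classical
  obtain ⟨ρ⟩ := hT.connected.nonempty
  have hex : ∀ i : ι, ∃ q : ι, i ≠ ρ → T.Adj i q ∧ T.dist ρ q < T.dist ρ i := by
    intro i
    by_cases hi : i = ρ
    · exact ⟨i, fun h => absurd hi h⟩
    · obtain ⟨w, hw⟩ := (hT.connected i ρ).exists_walk_length_eq_dist
      cases w with
      | nil => exact absurd rfl hi
      | @cons _ q _ h w' =>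
        refine ⟨q, fun _ => ⟨h, ?_⟩⟩
        have h1 : T.dist q ρ ≤ w'.length := SimpleGraph.dist_le _
        rw [SimpleGraph.Walk.length_cons] at hw
        rw [SimpleGraph.dist_comm (u := ρ) (v := q), SimpleGraph.dist_comm (u := ρ) (v := i)]
        omega
  choose par hpar using hex
  refine ⟨fun i => T.dist ρ i, par, ?_⟩
  intro A hA p hp hmin0 i hi hip
  have hmin : ∀ j ∈ A, T.dist ρ p ≤ T.dist ρ j := hmin0
  have hiρ : i ≠ ρ := by
    intro h
    have h1 := hmin i hi
    rw [h, SimpleGraph.dist_self, Nat.le_zero] at h1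
    have h2 : p = ρ := by
      have h3 := ((hT.connected ρ p).dist_eq_zero_iff).1 h1
      exact h3.symm
    exact hip (h.trans h2.symm)
  obtain ⟨hadj, hlt⟩ := hpar i hiρ
  refine ⟨?_, hlt⟩
  by_contra hq
  have hbr : ¬ (T.deleteEdges {s(i, par i)}).Reachable i (par i) :=
    SimpleGraph.isBridge_iff.1 ((SimpleGraph.isAcyclic_iff_forall_adj_isBridge.1 hT.isAcyclic) hadj)
  apply hbr
  -- from `i` to `p` inside `A`
  have r1 : (T.deleteEdges {s(i, par i)}).Reachable i p := by
    obtain ⟨w⟩ := hA.preconnected ⟨i, hi⟩ ⟨p, hp⟩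
    obtain ⟨w', hw'⟩ := T1_aux4 T A w
    exact T1_aux3 T w' (fun h => hq (hw' _ h))
  -- from `ρ` to `p`
  have r2 : (T.deleteEdges {s(i, par i)}).Reachable ρ p := by
    obtain ⟨w, hw⟩ := (hT.connected ρ p).exists_walk_length_eq_dist
    refine T1_aux2 T w (fun h => ?_)
    obtain ⟨h1, h2⟩ := T1_aux1 T w h
    have h3 : T.dist ρ p ≤ T.dist ρ i := hmin i hi
    exact hip (h2 (by omega))
  -- from `ρ` to `par i`
  have r3 : (T.deleteEdges {s(i, par i)}).Reachable ρ (par i) := by
    obtain ⟨w, hw⟩ := (hT.connected ρ (par i)).exists_walk_length_eq_dist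
    refine T1_aux2 T w (fun h => ?_)
    obtain ⟨h1, -⟩ := T1_aux1 T w h
    omega
  exact (r1.trans r2.symm).trans r3

end RG3
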