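import Pool.Agent.Lib.MP_78ca69_co.R3.Skel
set_option autoImplicit false
set_option linter.unusedSectionVars false

namespace RG3

open Finset

section edges

/-- multiplicities of a multigraph -/
def mult {V E : Type*} [DecidableEq V] [Fintype E] (ends : E → Sym2 V) : V → V → ℕ :=
  fun x y => (univ.filter fun e => ends e = s(x, y)).card

private theorem X1_deg {V : Type*} [Fintype V] [DecidableEq V] (z : Sym2 V) (hz : ¬ z.IsDiag) (v : V) :
    ∑ y, (if z = s(v, y) then 1 else 0) = if v ∈ z then 1 else 0 := by
  induction z using Sym2.ind with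
  | _ a b =>
    rw [Sym2.mk_isDiag_iff] at hz
    by_cases hv : v ∈ s(a, b)
    · rw [if_pos hv]
      rw [Sym2.mem_iff] at hv
      rcases hv with rfl | rfl
      · rw [Finset.sum_eq_single b]
        · simp
        · intro y _ hy
          rw [if_neg]
          rw [Sym2.eq_iff]
          rintro (⟨-, h⟩ | ⟨-, h⟩)
          · exact hy h.symm
          · exact hz h.symm
        · intro h
          exact absurd (Finset.mem_univ _) h
      · rw [Finset.sum_eq_single a]
        · rw [if_pos Sym2.eq_swap]
        · intro y _ hy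
          rw [if_neg]
          rw [Sym2.eq_iff]
          rintro (⟨h, -⟩ | ⟨h, -⟩)
          · exact hz h
          · exact hy h.symm
        · intro h
          exact absurd (Finset.mem_univ _) h
    · rw [if_neg hv]
      refine Finset.sum_eq_zero fun y _ => ?_
      rw [if_neg]
      intro h
      apply hv
      rw [h]
      exact Sym2.mem_mk_left v y

private theorem X1_cut {V : Type*} [Fintype V] [DecidableEq V] (z : Sym2 V) (X : Finset V) :
    ∑ x ∈ X, ∑ y ∈ Xᶜ, (if z = s(x, y) then 1 else 0) =
      if (∃ u ∈ X, ∃ v ∉ X, z = s(u, v)) then 1 else 0 := by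
  by_cases h : ∃ u ∈ X, ∃ v ∉ X, z = s(u, v)
  · rw [if_pos h]
    obtain ⟨u, hu, v, hv, rfl⟩ := h
    rw [Finset.sum_eq_single u]
    · rw [Finset.sum_eq_single v]
      · simp
      · intro y hy hyv
        rw [if_neg]
        rw [Sym2.eq_iff]
        rintro (⟨-, h⟩ | ⟨h, -⟩)
        · exact hyv h.symm
        · rw [Finset.mem_compl] at hy
          exact hy (h ▸ hu)
      · intro h
        exact absurd (Finset.mem_compl.2 hv) h
    · intro x hx hxu
      refine Finset.sum_eq_zero fun y hy => ?_
      rw [if_neg]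
      rw [Sym2.eq_iff]
      rintro (⟨h, -⟩ | ⟨-, h⟩)
      · exact hxu h.symm
      · exact hv (h ▸ hx)
    · intro h
      exact absurd hu h
  · rw [if_neg h]
    refine Finset.sum_eq_zero fun x hx => Finset.sum_eq_zero fun y hy => ?_
    rw [if_neg]
    intro h2
    exact h ⟨x, hx, y, Finset.mem_compl.1 hy, h2⟩

/-- Row X1. -/
theorem mult_deg {V E : Type*} [Fintype V] [DecidableEq V] [Fintype E] (ends : E → Sym2 V)
    (hl : ∀ e, ¬ (ends e).IsDiag) (v : V) :
    ∑ y, mult ends v y = (univ.filter fun e => v ∈ ends e).card := by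
  unfold mult
  simp only [Finset.card_filter]
  rw [Finset.sum_comm]
  refine Finset.sum_congr rfl fun e _ => ?_
  exact X1_deg (ends e) (hl e) v

/-- Row X1. -/
theorem mult_cut {V E : Type*} [Fintype V] [DecidableEq V] [Fintype E] (ends : E → Sym2 V)
    (hl : ∀ e, ¬ (ends e).IsDiag) (X : Finset V) :
    cut (mult ends) X = (univ.filter fun e => ∃ u ∈ X, ∃ v ∉ X, ends e = s(u, v)).card := by
  unfold mult cut
  simp only [Finset.card_filter]
  have h1 : ∀ x ∈ X, ∑ y ∈ Xᶜ, ∑ e, (if ends e = s(x, y) then 1 else 0) =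
      ∑ e, ∑ y ∈ Xᶜ, (if ends e = s(x, y) then 1 else 0) := fun x _ => Finset.sum_comm
  rw [Finset.sum_congr rfl h1, Finset.sum_comm]
  refine Finset.sum_congr rfl fun e _ => ?_
  exact X1_cut (ends e) X

end edges

end RG3
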